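import Mathlib

/-! Radon partitions, primitive Radon partitions, the Radon vectors and their linear relations. -/

namespace Pool.Agent.L5helper36.Radon

open Finset

/-- the convex hulls of `A` and `B` have a common point -/
def HullsMeet {d : ℕ} (A B : Finset (Fin d → ℝ)) : Prop :=
  (convexHull ℝ (A : Set (Fin d → ℝ)) ∩ convexHull ℝ (B : Set (Fin d → ℝ))).Nonempty

/-- no `d + 1` points of `S` lie on an affine hyperplane `{x | f x = b}`, `f ≠ 0` -/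
def GeneralPosition {d : ℕ} (S : Finset (Fin d → ℝ)) : Prop :=
  ∀ T ⊆ S, T.card = d + 1 →
    ¬ ∃ (f : (Fin d → ℝ) →ₗ[ℝ] ℝ) (b : ℝ), f ≠ 0 ∧ ∀ x ∈ T, f x = b

/-- `r_i(S)`: the number of unordered partitions `{A, B}` of `S` into two nonempty sets with
`conv A ∩ conv B ≠ ∅` and `|A| = i` (so `|B| = |S| - i`) -/
noncomputable def radonCount {d : ℕ} (S : Finset (Fin d → ℝ)) (i : ℕ) : ℕ :=
  Set.ncard {P : Sym2 (Finset (Fin d → ℝ)) | ∃ A B : Finset (Fin d → ℝ), P = s(A, B) ∧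
    A ∪ B = S ∧ Disjoint A B ∧ A.Nonempty ∧ B.Nonempty ∧ HullsMeet A B ∧ A.card = i}

/-- `{A, B}` is a primitive Radon partition: `A`, `B` are disjoint and nonempty with
`conv A ∩ conv B ≠ ∅`, and no other pair `A' ⊆ A`, `B' ⊆ B` of nonempty sets has this property -/
def IsPrimitive {d : ℕ} (A B : Finset (Fin d → ℝ)) : Prop :=
  Disjoint A B ∧ A.Nonempty ∧ B.Nonempty ∧ HullsMeet A B ∧
    ∀ A' ⊆ A, ∀ B' ⊆ B, A'.Nonempty → B'.Nonempty → HullsMeet A' B' → A' = A ∧ B' = B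

/-- `P_i(S)`: the number of primitive Radon partitions `{A, B}` in `S` (unordered pairs) with
`|A| = i` and `|B| = d + 2 - i` -/
noncomputable def primCount {d : ℕ} (S : Finset (Fin d → ℝ)) (i : ℕ) : ℕ :=
  Set.ncard {P : Sym2 (Finset (Fin d → ℝ)) | ∃ A B : Finset (Fin d → ℝ), P = s(A, B) ∧
    A ⊆ S ∧ B ⊆ S ∧ IsPrimitive A B ∧ A.card = i ∧ A.card + B.card = d + 2}

/-- The symmetric sequence of which `x = (x₁, …, x_k)`, `k = ⌊n/2⌋`, is the first half: its entry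
at `m` is `x_m` if `1 ≤ m < n/2`, `x_{n-m}` if `n/2 < m ≤ n - 1`, `2 x_m` if `m = n/2`, and `0` if
`m = 0` or `m ≥ n`. (The coordinate `x_{i+1}` is `x i`, `i : Fin k`.) -/
noncomputable def full {k : ℕ} (n : ℕ) (x : Fin k → ℝ) (m : ℕ) : ℝ :=
  ∑ i : Fin k, ((if (i : ℕ) + 1 = m then x i else 0) + (if (i : ℕ) + 1 + m = n then x i else 0))

/-- The pair (Radon vector, primitive Radon vector) of `S` -/
noncomputable def radonVec (s d : ℕ) (S : Finset (Fin d → ℝ)) :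
    (Fin (s / 2) → ℝ) × (Fin (d / 2 + 1) → ℝ) :=
  (fun i => (radonCount S (i + 1) : ℝ), fun i => (primCount S (i + 1) : ℝ))

/-- `V(s, d)` -/
def V (s d : ℕ) : Set ((Fin (s / 2) → ℝ) × (Fin (d / 2 + 1) → ℝ)) :=
  {v | ∃ S : Finset (Fin d → ℝ), S.card = s ∧ GeneralPosition S ∧ v = radonVec s d S}

/-- The system of linear equations for `(r, P) = v`; `r_{i+1} = v.1 i`, `P_{i+1} = v.2 i`. -/
structure Relations (s d : ℕ) (v : (Fin (s / 2) → ℝ) × (Fin (d / 2 + 1) → ℝ)) : Prop where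
  sum_r : ∑ i : Fin (s / 2), v.1 i = 2 ^ (s - 1) - ∑ k ∈ range (d + 1), ((s - 1).choose k : ℝ)
  alt_r : Odd d → Even s → ∑ i : Fin (s / 2), (-1 : ℝ) ^ ((i : ℕ) + 1) * v.1 i = 0
  sum_P : ∑ i : Fin (d / 2 + 1), v.2 i = (s.choose (d + 2) : ℝ)
  mixed : ∑ i : Fin (s / 2), (((i : ℝ) + 1) * (s - ((i : ℝ) + 1))) * v.1 i -
      ∑ i : Fin (d / 2 + 1), (((i : ℝ) + 1) * (d + 2 - ((i : ℝ) + 1))) * v.2 i =
      (s.choose 2 : ℝ) * (2 ^ (s - 2) - ∑ k ∈ range (d + 1), ((s - 2).choose k : ℝ))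
  two : s = d + 2 → ∀ (i : Fin (s / 2)) (j : Fin (d / 2 + 1)), (i : ℕ) = j → v.1 i = v.2 j
  three : s = d + 3 → ∀ m : ℕ,
    2 * full s v.1 (m + 1) = full (d + 2) v.2 (m + 1) + full (d + 2) v.2 m
  one : d = 1 → ∀ i : Fin (s / 2), (if 2 * ((i : ℕ) + 1) = s then 2 else 1) * v.1 i =
    (s.choose ((i : ℕ) + 1) : ℝ) - 2

end Pool.Agent.L5helper36.Radon
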