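import Pool.Agent.L5helper36.Radon.Ident
import Pool.Agent.L5helper36.Radon.Defs

/-! Radon partitions, primitive Radon partitions and sign patterns of affine functionals. -/

set_option linter.unusedSectionVars false

namespace Pool.Agent.L5helper36.Radon

open Finset

variable {d : ℕ}

/-- the space of affine functionals -/
abbrev Aff (d : ℕ) : Type := Module.Dual ℝ (Fin d → ℝ) × ℝ

/-- evaluation of an affine functional at a point -/
def ev (p : Fin d → ℝ) : Aff d →ₗ[ℝ] ℝ :=
  (Module.Dual.eval ℝ (Fin d → ℝ) p).comp (LinearMap.fst ℝ _ _) + LinearMap.snd ℝ _ _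

@[simp] lemma ev_apply (p : Fin d → ℝ) (m : Aff d) : ev p m = m.1 p + m.2 := by
  simp [ev]

lemma finrank_Aff : Module.finrank ℝ (Aff d) = d + 1 := by
  rw [Module.finrank_prod, Subspace.dual_finrank_eq, Module.finrank_fin_fun, Module.finrank_self]

lemma finrank_top_Aff : Module.finrank ℝ (⊤ : Submodule ℝ (Aff d)) = d + 1 := by
  rw [finrank_top, finrank_Aff]

/-- disjoint hulls of finite sets can be separated strictly -/
lemma not_hullsMeet_iff (A B : Finset (Fin d → ℝ)) :
    ¬ HullsMeet A B ↔ ∃ m : Aff d, (∀ p ∈ A, 0 < m.1 p + m.2) ∧ ∀ p ∈ B, m.1 p + m.2 < 0 := by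
  constructor
  · intro h
    have hd : Disjoint (convexHull ℝ (A : Set (Fin d → ℝ))) (convexHull ℝ (B : Set (Fin d → ℝ))) := by
      rw [Set.disjoint_iff_inter_eq_empty]
      exact Set.not_nonempty_iff_eq_empty.mp h
    obtain ⟨f, u, v, h1, h2, h3⟩ := geometric_hahn_banach_compact_closed
      (convex_convexHull ℝ (A : Set (Fin d → ℝ))) (A.finite_toSet.isCompact_convexHull (𝕜 := ℝ))
      (convex_convexHull ℝ (B : Set (Fin d → ℝ)))
      (B.finite_toSet.isCompact_convexHull (𝕜 := ℝ)).isClosed hd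
    refine ⟨(-f.toLinearMap, (u + v) / 2), fun p hp => ?_, fun p hp => ?_⟩
    · have := h1 p (subset_convexHull ℝ _ hp)
      simp only [LinearMap.neg_apply, ContinuousLinearMap.coe_coe]
      linarith
    · have := h3 p (subset_convexHull ℝ _ hp)
      simp only [LinearMap.neg_apply, ContinuousLinearMap.coe_coe]
      linarith
  · rintro ⟨m, h1, h2⟩ ⟨x, hxA, hxB⟩
    have e1 : x ∈ {y | 0 < m.1 y + m.2} := by
      have e : {y : Fin d → ℝ | 0 < m.1 y + m.2} = {y | -m.2 < m.1 y} := by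
        ext y
        simp only [Set.mem_ofPred_eq]
        constructor <;> intro h <;> linarith
      have hc : Convex ℝ {y : Fin d → ℝ | 0 < m.1 y + m.2} := by
        rw [e]
        exact convex_halfSpace_gt (𝕜 := ℝ) (f := m.1) m.1.isLinear (-m.2)
      have hs : (A : Set (Fin d → ℝ)) ⊆ {y : Fin d → ℝ | 0 < m.1 y + m.2} := fun p hp => h1 p hp
      exact convexHull_min hs hc hxA
    have e2 : x ∈ {y | m.1 y + m.2 < 0} := by
      have e : {y : Fin d → ℝ | m.1 y + m.2 < 0} = {y | m.1 y < -m.2} := by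
        ext y
        simp only [Set.mem_ofPred_eq]
        constructor <;> intro h <;> linarith
      have hc : Convex ℝ {y : Fin d → ℝ | m.1 y + m.2 < 0} := by
        rw [e]
        exact convex_halfSpace_lt (𝕜 := ℝ) (f := m.1) m.1.isLinear (-m.2)
      have hs : (B : Set (Fin d → ℝ)) ⊆ {y : Fin d → ℝ | m.1 y + m.2 < 0} := fun p hp => h2 p hp
      exact convexHull_min hs hc hxB
    simp only [Set.mem_ofPred_eq] at e1 e2
    linarith

lemma HullsMeet.nonempty_left {A B : Finset (Fin d → ℝ)} (h : HullsMeet A B) : A.Nonempty := by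
  by_contra hA
  rw [not_nonempty_iff_eq_empty] at hA
  obtain ⟨x, hx, -⟩ := h
  subst hA
  simp at hx

lemma HullsMeet.symm {A B : Finset (Fin d → ℝ)} (h : HullsMeet A B) : HullsMeet B A := by
  obtain ⟨x, hx, hx'⟩ := h
  exact ⟨x, hx', hx⟩

lemma HullsMeet.nonempty_right {A B : Finset (Fin d → ℝ)} (h : HullsMeet A B) : B.Nonempty :=
  h.symm.nonempty_left

/-- sign patterns and hulls -/
lemma sep_iff {A B : Finset (Fin d → ℝ)} (hd : Disjoint A B) :
    Sep (ev (d := d)) ⊤ (A ∪ B) A ↔ ¬ HullsMeet A B := by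
  rw [not_hullsMeet_iff]
  constructor
  · rintro ⟨m, -, h1, h2⟩
    refine ⟨m, fun p hp => ?_, fun p hp => ?_⟩
    · simpa using h1 p (mem_union_left _ hp) hp
    · have : p ∉ A := fun h => (disjoint_left.mp hd h) hp
      simpa using h2 p (mem_union_right _ hp) this
  · rintro ⟨m, h1, h2⟩
    refine ⟨m, Submodule.mem_top, fun p hp hpA => ?_, fun p hp hpA => ?_⟩
    · simpa using h1 p hpA
    · simpa using h2 p ((mem_union.mp hp).resolve_left hpA)

lemma sep_iff' {R T : Finset (Fin d → ℝ)} (hT : T ⊆ R) :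
    Sep (ev (d := d)) ⊤ R T ↔ ¬ HullsMeet T (R \ T) := by
  rw [← sep_iff disjoint_sdiff, union_sdiff_of_subset hT]

/-- if the forms in `A` are in general position and `|A| = n` only `0` is killed by all of them -/
lemma GP.eq_zero_of_card {M : Type*} [AddCommGroup M] [Module ℝ M] [FiniteDimensional ℝ M]
    {ι : Type*} [DecidableEq ι] {φ : ι → M →ₗ[ℝ] ℝ} (A : Finset ι) :
    ∀ (n : ℕ) (U : Submodule ℝ M), GP φ n U A → A.card = n → ∀ f ∈ U, (∀ v ∈ A, φ v f = 0) →
      f = 0 := by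
  induction A using Finset.induction_on with
  | empty =>
    intro n U h hn f hf _
    simp only [card_empty] at hn
    subst hn
    exact h.eq_zero hf
  | insert x A hx ih =>
    intro n U h hn f hf h0
    rw [card_insert_of_notMem hx] at hn
    subst hn
    exact ih _ _ (h.res hx) rfl f (mem_res.mpr ⟨hf, h0 x (mem_insert_self _ _)⟩)
      fun v hv => h0 v (mem_insert_of_mem hv)

/-- general position of points gives general position of the evaluation forms -/
lemma GeneralPosition.gp {S : Finset (Fin d → ℝ)} (hS : GeneralPosition S)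
    (hc : d + 1 ≤ S.card) : GP (ev (d := d)) (d + 1) ⊤ S := by
  refine ⟨finrank_top_Aff, fun Z hZ hn x hx hxZ => ?_⟩
  obtain ⟨Y, h1, h2, h3⟩ := exists_subsuperset_card_eq (s := insert x Z) (t := S) (n := d + 1)
    (insert_subset hx hZ) (by rw [card_insert_of_notMem hxZ]; omega) hc
  let L : Aff d →ₗ[ℝ] (Y → ℝ) := LinearMap.pi fun y => ev y.1
  have hinj : Function.Injective L := by
    rw [← LinearMap.ker_eq_bot, LinearMap.ker_eq_bot']
    intro m hm
    have h4 : ∀ y ∈ Y, m.1 y + m.2 = 0 := fun y hy => by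
      have := congrFun hm ⟨y, hy⟩
      simpa [L] using this
    have h5 : m.1 = 0 := by
      by_contra hne
      exact hS Y h2 h3 ⟨m.1, -m.2, hne, fun y hy => by linarith [h4 y hy]⟩
    obtain ⟨y, hy⟩ : Y.Nonempty := card_pos.mp (by omega)
    have h6 := h4 y hy
    rw [h5] at h6
    ext1
    · exact h5
    · simpa using h6
  have hsurj : Function.Surjective L := by
    refine (LinearMap.injective_iff_surjective_of_finrank_eq_finrank ?_).mp hinj
    rw [finrank_Aff, Module.finrank_fintype_fun_eq_card, Fintype.card_coe, h3]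
  obtain ⟨m, hm⟩ := hsurj (fun y => if y.1 = x then 1 else 0)
  refine ⟨m, Submodule.mem_top, fun z hz => ?_, ?_⟩
  · have := congrFun hm ⟨z, h1 (mem_insert_of_mem hz)⟩
    have hzx : z ≠ x := fun h => hxZ (h ▸ hz)
    simpa [L, hzx] using this
  · have := congrFun hm ⟨x, h1 (mem_insert_self _ _)⟩
    have h7 : ev x m = 1 := by simpa [L] using this
    rw [h7]; norm_num

/-! ### unordered and ordered pairs -/

section pairs
variable {α : Type*} [DecidableEq α]

open Classical in
lemma sym2_count_asymm (Q : Finset (α × α)) (h : ∀ p ∈ Q, p.swap ∉ Q) :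
    Set.ncard {P : Sym2 α | ∃ A B, P = s(A, B) ∧ (A, B) ∈ Q} = Q.card := by
  have e : {P : Sym2 α | ∃ A B, P = s(A, B) ∧ (A, B) ∈ Q} =
      ((Q.image (fun p => s(p.1, p.2)) : Finset (Sym2 α)) : Set (Sym2 α)) := by
    ext P
    simp only [Set.mem_ofPred_eq, coe_image, Set.mem_image, mem_coe, Prod.exists]
    constructor
    · rintro ⟨A, B, rfl, h⟩; exact ⟨A, B, h, rfl⟩
    · rintro ⟨A, B, h, rfl⟩; exact ⟨A, B, rfl, h⟩
  rw [e, Set.ncard_coe_finset, card_image_of_injOn]
  rintro ⟨a, b⟩ hp ⟨a', b'⟩ hq hpq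
  simp only [Sym2.eq_iff] at hpq
  rcases hpq with ⟨rfl, rfl⟩ | ⟨rfl, rfl⟩
  · rfl
  · exact absurd hq (h _ hp)

open Classical in
lemma sym2_count_symm (Q : Finset (α × α)) (hne : ∀ p ∈ Q, p.1 ≠ p.2) (h : ∀ p ∈ Q, p.swap ∈ Q) :
    2 * Set.ncard {P : Sym2 α | ∃ A B, P = s(A, B) ∧ (A, B) ∈ Q} = Q.card := by
  have e : {P : Sym2 α | ∃ A B, P = s(A, B) ∧ (A, B) ∈ Q} =
      ((Q.image (fun p => s(p.1, p.2)) : Finset (Sym2 α)) : Set (Sym2 α)) := by
    ext P
    simp only [Set.mem_ofPred_eq, coe_image, Set.mem_image, mem_coe, Prod.exists]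
    constructor
    · rintro ⟨A, B, rfl, h⟩; exact ⟨A, B, h, rfl⟩
    · rintro ⟨A, B, h, rfl⟩; exact ⟨A, B, rfl, h⟩
  rw [e, Set.ncard_coe_finset, card_eq_sum_card_image (fun p : α × α => s(p.1, p.2)) Q,
    sum_const_nat (m := 2), mul_comm]
  intro P hP
  obtain ⟨⟨a, b⟩, hp, rfl⟩ := mem_image.mp hP
  have : (Q.filter fun q : α × α => s(q.1, q.2) = s(a, b)) = {(a, b), (b, a)} := by
    ext ⟨a', b'⟩
    simp only [mem_filter, Sym2.eq_iff, mem_insert, mem_singleton, Prod.mk.injEq]
    constructor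
    · rintro ⟨-, h⟩; exact h
    · rintro (⟨rfl, rfl⟩ | ⟨rfl, rfl⟩)
      · exact ⟨hp, Or.inl ⟨rfl, rfl⟩⟩
      · exact ⟨h _ hp, Or.inr ⟨rfl, rfl⟩⟩
  rw [this, card_pair]
  intro hh
  rw [Prod.mk.injEq] at hh
  exact hne _ hp hh.1

end pairs

/-- ordered Radon partitions with `m` points in the first part -/
noncomputable def rt (S : Finset (Fin d → ℝ)) (m : ℕ) : ℤ :=
  ∑ T ∈ S.powersetCard m, (1 - tau (ev (d := d)) ⊤ S T)

/-- ordered circuits with `m` points in the first part -/
noncomputable def pt (S : Finset (Fin d → ℝ)) (m : ℕ) : ℤ :=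
  ∑ R ∈ S.powersetCard (d + 2), ∑ T ∈ R.powersetCard m, (1 - tau (ev (d := d)) ⊤ R T)

open Classical in
lemma radonCount_eq (S : Finset (Fin d → ℝ)) (i : ℕ) (hi : 2 * i ≤ S.card) :
    ((if 2 * i = S.card then 2 else 1) * radonCount S i : ℤ) = rt S i := by
  set Q : Finset (Finset (Fin d → ℝ) × Finset (Fin d → ℝ)) :=
    (((S.powersetCard i).filter fun T => HullsMeet T (S \ T)).image fun T => (T, S \ T)) with hQ
  have hmem : ∀ A B, (A, B) ∈ Q ↔ (A ∪ B = S ∧ Disjoint A B ∧ A.Nonempty ∧ B.Nonempty ∧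
      HullsMeet A B ∧ A.card = i) := by
    intro A B
    simp only [hQ, mem_image, mem_filter, mem_powersetCard, Prod.mk.injEq]
    constructor
    · rintro ⟨T, ⟨⟨h1, h2⟩, h3⟩, rfl, rfl⟩
      exact ⟨union_sdiff_of_subset h1, disjoint_sdiff, h3.nonempty_left, h3.nonempty_right, h3, h2⟩
    · rintro ⟨h1, h2, -, -, h3, h4⟩
      have e : S \ A = B := by rw [← h1, union_sdiff_cancel_left h2]
      exact ⟨A, ⟨⟨h1 ▸ subset_union_left, h4⟩, e.symm ▸ h3⟩, rfl, e⟩
  have hset : {P : Sym2 (Finset (Fin d → ℝ)) | ∃ A B : Finset (Fin d → ℝ), P = s(A, B) ∧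
      A ∪ B = S ∧ Disjoint A B ∧ A.Nonempty ∧ B.Nonempty ∧ HullsMeet A B ∧ A.card = i} =
      {P : Sym2 (Finset (Fin d → ℝ)) | ∃ A B, P = s(A, B) ∧ (A, B) ∈ Q} := by
    ext P
    simp only [Set.mem_ofPred_eq, hmem]
  have hcard : (Q.card : ℤ) = rt S i := by
    rw [hQ, card_image_of_injOn (by
      intro a _ b _ hab
      exact (Prod.mk.inj hab).1), card_filter]
    unfold rt
    push_cast
    refine sum_congr rfl fun T hT => ?_
    have hTS := (mem_powersetCard.mp hT).1
    by_cases h : HullsMeet T (S \ T)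
    · rw [if_pos h, tau_eq_zero.mpr (by rw [sep_iff' hTS]; simpa using h)]; simp
    · rw [if_neg h, tau_eq_one.mpr (by rw [sep_iff' hTS]; exact h)]; simp
  have hB : ∀ A B, (A, B) ∈ Q → B.card = S.card - i := by
    intro A B h
    rw [hmem] at h
    have := card_union_of_disjoint h.2.1
    rw [h.1] at this
    omega
  unfold radonCount
  rw [hset, ← hcard]
  split_ifs with h2
  · have := sym2_count_symm Q (by
      rintro ⟨A, B⟩ h hAB
      rw [hmem] at h
      simp only at hAB
      subst hAB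
      obtain ⟨x, hx⟩ := h.2.2.1
      exact disjoint_left.mp h.2.1 hx hx) (by
      rintro ⟨A, B⟩ h
      have hb := hB A B h
      rw [Prod.swap_prod_mk, hmem]
      rw [hmem] at h
      exact ⟨by rw [union_comm]; exact h.1, h.2.1.symm, h.2.2.2.1, h.2.2.1, h.2.2.2.2.1.symm,
        by omega⟩)
    exact_mod_cast this
  · have := sym2_count_asymm Q (by
      rintro ⟨A, B⟩ h h'
      have hb := hB A B h
      rw [Prod.swap_prod_mk, hmem] at h'
      omega)
    rw [one_mul]
    exact_mod_cast this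

open Classical in
lemma primCount_eq {S : Finset (Fin d → ℝ)} (hS : GP (ev (d := d)) (d + 1) ⊤ S) (i : ℕ) :
    ((if 2 * i = d + 2 then 2 else 1) * primCount S i : ℤ) = pt S i := by
  set Q0 : Finset ((_ : Finset (Fin d → ℝ)) × Finset (Fin d → ℝ)) :=
    ((S.powersetCard (d + 2)).sigma fun R => (R.powersetCard i).filter fun T =>
      HullsMeet T (R \ T)) with hQ0
  set Q : Finset (Finset (Fin d → ℝ) × Finset (Fin d → ℝ)) :=
    Q0.image fun x => (x.2, x.1 \ x.2) with hQ
  have hprim : ∀ A B : Finset (Fin d → ℝ), Disjoint A B → HullsMeet A B → A ⊆ S → B ⊆ S →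
      A.card + B.card = d + 2 → IsPrimitive A B := by
    intro A B h1 h2 h3 h4 h5
    refine ⟨h1, h2.nonempty_left, h2.nonempty_right, h2, fun A' hA' B' hB' _ _ h6 => ?_⟩
    have hd' : Disjoint A' B' := h1.mono hA' hB'
    have h7 := (not_iff_not.mpr (sep_iff hd')).mpr (by simpa using h6)
    have h8 : ¬ (A' ∪ B').card ≤ d + 1 := by
      intro h8
      exact h7 (sep_of_card_le _ _ _ (hS.mono (union_subset (hA'.trans h3) (hB'.trans h4))) h8 _)
    rw [card_union_of_disjoint hd'] at h8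
    have h9 := card_le_card hA'
    have h10 := card_le_card hB'
    exact ⟨eq_of_subset_of_card_le hA' (by omega), eq_of_subset_of_card_le hB' (by omega)⟩
  have hmem : ∀ A B, (A, B) ∈ Q ↔ (A ⊆ S ∧ B ⊆ S ∧ IsPrimitive A B ∧ A.card = i ∧
      A.card + B.card = d + 2) := by
    intro A B
    simp only [hQ, hQ0, mem_image, mem_sigma, mem_filter, mem_powersetCard, Prod.mk.injEq]
    constructor
    · rintro ⟨⟨R, T⟩, ⟨⟨h1, h2⟩, ⟨h3, h4⟩, h5⟩, rfl, rfl⟩
      simp only at h1 h2 h3 h4 h5 ⊢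
      have h6 : T.card + (R \ T).card = d + 2 := by
        rw [← h2, add_comm, card_sdiff_add_card_eq_card h3]
      exact ⟨h3.trans h1, sdiff_subset.trans h1,
        hprim _ _ disjoint_sdiff h5 (h3.trans h1) (sdiff_subset.trans h1) h6, h4, h6⟩
    · rintro ⟨h1, h2, h3, h4, h5⟩
      refine ⟨⟨A ∪ B, A⟩, ⟨⟨union_subset h1 h2, ?_⟩, ⟨subset_union_left, h4⟩, ?_⟩, rfl, ?_⟩
      · rw [card_union_of_disjoint h3.1, h5]
      · simp only
        rw [union_sdiff_cancel_left h3.1]; exact h3.2.2.2.1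
      · simp only
        exact union_sdiff_cancel_left h3.1
  have hset : {P : Sym2 (Finset (Fin d → ℝ)) | ∃ A B : Finset (Fin d → ℝ), P = s(A, B) ∧
      A ⊆ S ∧ B ⊆ S ∧ IsPrimitive A B ∧ A.card = i ∧ A.card + B.card = d + 2} =
      {P : Sym2 (Finset (Fin d → ℝ)) | ∃ A B, P = s(A, B) ∧ (A, B) ∈ Q} := by
    ext P
    simp only [Set.mem_ofPred_eq, hmem]
  have hcard : (Q.card : ℤ) = pt S i := by
    rw [hQ, card_image_of_injOn (by
      rintro ⟨R, T⟩ hx ⟨R', T'⟩ hy hab
      simp only [hQ0, coe_sigma, Set.mem_sigma_iff, mem_coe, mem_powersetCard, mem_filter] at hx hy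
      rw [Prod.mk.injEq] at hab
      obtain ⟨rfl, h2⟩ := hab
      have h3 : R = R' := by
        rw [← union_sdiff_of_subset hx.2.1.1, ← union_sdiff_of_subset hy.2.1.1, h2]
      subst h3; rfl), hQ0, card_sigma]
    unfold pt
    push_cast
    refine sum_congr rfl fun R hR => ?_
    rw [card_filter]
    push_cast
    refine sum_congr rfl fun T hT => ?_
    have hTS := (mem_powersetCard.mp hT).1
    by_cases h : HullsMeet T (R \ T)
    · rw [if_pos h, tau_eq_zero.mpr (by rw [sep_iff' hTS]; simpa using h)]; simp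
    · rw [if_neg h, tau_eq_one.mpr (by rw [sep_iff' hTS]; exact h)]; simp
  unfold primCount
  rw [hset, ← hcard]
  split_ifs with h2
  · have := sym2_count_symm Q (by
      rintro ⟨A, B⟩ h hAB
      rw [hmem] at h
      simp only at hAB
      subst hAB
      obtain ⟨x, hx⟩ := h.2.2.1.2.1
      exact disjoint_left.mp h.2.2.1.1 hx hx) (by
      rintro ⟨A, B⟩ h
      rw [Prod.swap_prod_mk, hmem]
      rw [hmem] at h
      obtain ⟨h1, h3, h4, h5, h6⟩ := h
      exact ⟨h3, h1, hprim _ _ h4.1.symm h4.2.2.2.1.symm h3 h1 (by omega), by omega, by omega⟩)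
    exact_mod_cast this
  · have := sym2_count_asymm Q (by
      rintro ⟨A, B⟩ h h'
      rw [hmem] at h
      rw [Prod.swap_prod_mk, hmem] at h'
      omega)
    rw [one_mul]
    exact_mod_cast this

end Pool.Agent.L5helper36.Radon
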