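import Pool.Agent.L5helper36.Radon.Mut2
import Pool.Agent.L5helper36.Radon.Geom

/-! Degenerate configurations of points. -/

set_option linter.unusedSectionVars false

namespace Pool.Agent.L5helper36.Radon

open Finset Polynomial

variable {d : ℕ}

/-! ### the moment curve avoids finitely many hyperplanes -/

/-- the moment curve -/
def mom (d : ℕ) (T : ℝ) : Fin d → ℝ := fun i => T ^ ((i : ℕ) + 1)

/-- the polynomial `T ↦ f(mom T)` -/
noncomputable def momPoly (f : Aff d) : ℝ[X] :=
  C f.2 + ∑ i : Fin d, C (f.1 (Pi.single i 1)) * X ^ ((i : ℕ) + 1)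

lemma dual_apply (g : Module.Dual ℝ (Fin d → ℝ)) (x : Fin d → ℝ) :
    g x = ∑ i, x i * g (Pi.single i 1) := by
  conv_lhs => rw [pi_eq_sum_univ' x]
  rw [map_sum]
  refine sum_congr rfl fun i _ => ?_
  rw [map_smul, smul_eq_mul]

lemma momPoly_eval (f : Aff d) (T : ℝ) : (momPoly f).eval T = ev (mom d T) f := by
  rw [ev_apply, dual_apply, momPoly, eval_add, eval_C, eval_finsetSum, add_comm]
  congr 1
  refine sum_congr rfl fun i _ => ?_
  rw [eval_mul, eval_C, eval_pow, eval_X, mom]
  ring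

lemma momPoly_ne {f : Aff d} (hf : f ≠ 0) : momPoly f ≠ 0 := by
  intro h
  apply hf
  have h0 : f.2 = 0 := by
    have := congrArg (fun p => p.coeff 0) h
    simpa [momPoly, finsetSum_coeff] using this
  have h1 : ∀ i : Fin d, f.1 (Pi.single i 1) = 0 := by
    intro i
    have := congrArg (fun p => p.coeff ((i : ℕ) + 1)) h
    simp only [momPoly, coeff_add, coeff_C_succ, finsetSum_coeff, coeff_C_mul, coeff_X_pow,
      coeff_zero, zero_add] at this
    rw [Finset.sum_eq_single i] at this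
    · simpa using this
    · intro j _ hj
      rw [if_neg, mul_zero]
      intro h; apply hj; apply Fin.ext; omega
    · intro h; exact absurd (mem_univ i) h
  ext1
  · refine LinearMap.ext fun x => ?_
    rw [dual_apply]
    exact sum_eq_zero fun i _ => by rw [h1, mul_zero]
  · exact h0

lemma exists_mom (F : Finset (Aff d)) (hF : ∀ f ∈ F, f ≠ 0) (I : Set ℝ) (hI : I.Infinite) :
    ∃ T ∈ I, ∀ f ∈ F, ev (mom d T) f ≠ 0 := by
  have h1 : (⋃ f ∈ F, {T : ℝ | (momPoly f).IsRoot T}).Finite :=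
    Set.Finite.biUnion F.finite_toSet fun f hf => finite_setOfPred_isRoot (momPoly_ne (hF f hf))
  obtain ⟨T, hT, hT'⟩ := (hI.sdiff h1).nonempty
  refine ⟨T, hT, fun f hf h => hT' ?_⟩
  simp only [Set.mem_iUnion]
  exact ⟨f, hf, by rw [Set.mem_ofPred_eq, IsRoot, momPoly_eval, h]⟩

/-! ### extension by generic points -/

lemma exists_vanish (Z : Finset (Fin d → ℝ)) (hZ : Z.card < d + 1) :
    ∃ f : Aff d, f ≠ 0 ∧ ∀ z ∈ Z, ev z f = 0 := by
  let L : Aff d →ₗ[ℝ] (Z → ℝ) := LinearMap.pi fun y => ev y.1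
  have h := LinearMap.ker_ne_bot_of_finrank_lt (f := L) (by
    rw [finrank_Aff, Module.finrank_fintype_fun_eq_card, Fintype.card_coe]; exact hZ)
  obtain ⟨f, hf, hf0⟩ := (Submodule.ne_bot_iff _).mp h
  refine ⟨f, hf0, fun z hz => ?_⟩
  have := congrFun (LinearMap.mem_ker.mp hf) ⟨z, hz⟩
  simpa [L] using this

lemma GPx.extend (hd : 0 < d) {Y R0 : Finset (Fin d → ℝ)} (H : GPx (ev (d := d)) (d + 1) Y R0)
    (I : Set ℝ) (hI : I.Infinite) : ∃ T ∈ I, mom d T ∉ Y ∧
      GPx (ev (d := d)) (d + 1) (insert (mom d T) Y) R0 := by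
  classical
  have hch : ∀ Z : Finset (Fin d → ℝ), ∃ f : Aff d, f ≠ 0 ∧ (Z.card < d + 1 → ∀ z ∈ Z, ev z f = 0) := by
    intro Z
    by_cases hZ : Z.card < d + 1
    · obtain ⟨f, h1, h2⟩ := exists_vanish Z hZ
      exact ⟨f, h1, fun _ => h2⟩
    · exact ⟨(0, 1), by simp, fun h => absurd h hZ⟩
  choose F hF0 hF using hch
  obtain ⟨T, hT, hTF⟩ := exists_mom (Y.powerset.image F) (by
    intro f hf
    obtain ⟨Z, -, rfl⟩ := mem_image.mp hf
    exact hF0 Z) I hI
  have hy : ∀ Z ⊆ Y, ev (mom d T) (F Z) ≠ 0 := fun Z hZ =>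
    hTF _ (mem_image_of_mem F (mem_powerset.mpr hZ))
  refine ⟨T, hT, ?_, ?_⟩
  · intro hmem
    exact hy {mom d T} (by simpa using hmem) (hF _ (by rw [card_singleton]; omega) _
      (mem_singleton_self _))
  · refine ⟨H.rank, H.sub.trans (subset_insert _ _), H.card, ?_⟩
    intro Z hZ hn x hx hxZ hxR
    by_cases hxy : x = mom d T
    · subst hxy
      have hZY : Z ⊆ Y := by
        intro z hz
        rcases mem_insert.mp (hZ hz) with h | h
        · exact absurd hz (h ▸ hxZ)
        · exact h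
      exact ⟨F Z, hF Z hn, hy Z hZY⟩
    · have hxY : x ∈ Y := (mem_insert.mp hx).resolve_left hxy
      by_cases hyZ : mom d T ∈ Z
      · have hZ' : Z.erase (mom d T) ⊆ Y := by
          intro z hz
          obtain ⟨h1, h2⟩ := mem_erase.mp hz
          exact (mem_insert.mp (hZ h2)).resolve_left h1
        have hc : (Z.erase (mom d T)).card + 1 = Z.card := card_erase_add_one hyZ
        have hxZ' : x ∉ Z.erase (mom d T) := fun h => hxZ (mem_of_mem_erase h)
        have hcx : (insert x (Z.erase (mom d T))).card < d + 1 := by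
          rw [card_insert_of_notMem hxZ']; omega
        obtain ⟨f, hf1, hf2⟩ := H.gen (Z.erase (mom d T)) hZ' (by omega) x hxY hxZ' (by
          intro h
          rw [h, H.card] at hcx
          exact lt_irrefl _ hcx)
        set g := F (insert x (Z.erase (mom d T))) with hg
        have hg1 := hF (insert x (Z.erase (mom d T))) hcx
        have hg2 := hy (insert x (Z.erase (mom d T))) (insert_subset hxY hZ')
        rw [← hg] at hg1 hg2
        refine ⟨(ev (mom d T) g) • f - (ev (mom d T) f) • g, fun z hz => ?_, ?_⟩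
        · by_cases hzy : z = mom d T
          · subst hzy
            rw [map_sub, map_smul, map_smul, smul_eq_mul, smul_eq_mul]
            ring
          · have hz' : z ∈ Z.erase (mom d T) := mem_erase.mpr ⟨hzy, hz⟩
            rw [map_sub, map_smul, map_smul, hf1 z hz', hg1 z (mem_insert_of_mem hz')]
            simp
        · rw [map_sub, map_smul, map_smul, hg1 x (mem_insert_self _ _), smul_zero, sub_zero,
            smul_eq_mul]
          exact mul_ne_zero hg2 hf2
      · have hZY : Z ⊆ Y := by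
          intro z hz
          rcases mem_insert.mp (hZ hz) with h | h
          · exact absurd hz (h ▸ hyZ)
          · exact h
        exact H.gen Z hZY hn x hxY hxZ hxR


/-! ### the degenerate simplex -/

variable {e : ℕ}

/-- the vertices of a simplex in the hyperplane `x 0 = 0` -/
def ww (j : Fin (e + 1)) : Fin (e + 1) → ℝ := if j = 0 then 0 else Pi.single j 1

/-- barycentric coordinates -/
noncomputable def bary (j : Fin (e + 1)) : Aff (e + 1) :=
  if j = 0 then (-∑ i ∈ univ.erase (0 : Fin (e + 1)), LinearMap.proj i, 1)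
  else (LinearMap.proj j, 0)

/-- the height functional -/
def height : Aff (e + 1) := (LinearMap.proj 0, 0)

lemma ev_height (x : Fin (e + 1) → ℝ) : ev x height = x 0 := by
  rw [ev_apply]; simp [height]

lemma ev_bary_zero (x : Fin (e + 1) → ℝ) :
    ev x (bary 0) = 1 - ∑ i ∈ univ.erase (0 : Fin (e + 1)), x i := by
  rw [ev_apply, bary, if_pos rfl]
  simp only [LinearMap.neg_apply, LinearMap.sum_apply, LinearMap.proj_apply]
  ring

lemma ev_bary_ne (x : Fin (e + 1) → ℝ) {j : Fin (e + 1)} (hj : j ≠ 0) :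
    ev x (bary j) = x j := by
  rw [ev_apply, bary, if_neg hj]
  simp

lemma ev_bary_ww (i j : Fin (e + 1)) : ev (ww i) (bary j) = if i = j then 1 else 0 := by
  by_cases hj : j = 0
  · subst hj
    rw [ev_bary_zero]
    by_cases hi : i = 0
    · subst hi; simp [ww]
    · rw [if_neg hi, ww, if_neg hi]
      rw [Finset.sum_eq_single i]
      · simp
      · intro b _ hb; simp [hb]
      · intro h; exact absurd (mem_erase.mpr ⟨hi, mem_univ i⟩) h
  · rw [ev_bary_ne _ hj]
    by_cases hi : i = 0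
    · subst hi; rw [if_neg (fun h => hj h.symm)]; simp [ww]
    · rw [ww, if_neg hi]
      by_cases hij : i = j
      · subst hij; simp
      · rw [if_neg hij]; simp [Ne.symm hij]

lemma ww_inj : Function.Injective (ww (e := e)) := by
  intro i j h
  by_contra hij
  have h1 := ev_bary_ww i j
  have h2 := ev_bary_ww j j
  rw [h, h2, if_pos rfl, if_neg hij] at h1
  exact one_ne_zero h1

lemma ww_zero (i : Fin (e + 1)) : ww i 0 = 0 := by
  unfold ww
  split_ifs with h
  · rfl
  · simp [Ne.symm h]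

/-- the last point -/
noncomputable def pp (c : Fin (e + 1) → ℝ) : Fin (e + 1) → ℝ := ∑ j, c j • ww j

lemma ev_pp {c : Fin (e + 1) → ℝ} (hc : ∑ j, c j = 1) (f : Aff (e + 1)) :
    ev (pp c) f = ∑ j, c j * ev (ww j) f := by
  simp only [ev_apply, pp, map_sum, map_smul, smul_eq_mul, mul_add, sum_add_distrib]
  rw [← sum_mul, hc, one_mul]

lemma ev_pp_bary {c : Fin (e + 1) → ℝ} (hc : ∑ j, c j = 1) (j : Fin (e + 1)) :
    ev (pp c) (bary j) = c j := by
  rw [ev_pp hc]
  simp only [ev_bary_ww]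
  simp

lemma pp_ne_ww {c : Fin (e + 1) → ℝ} (hc : ∑ j, c j = 1) (h0 : ∀ j, c j ≠ 0) (he : 1 ≤ e)
    (i : Fin (e + 1)) : pp c ≠ ww i := by
  intro h
  obtain ⟨j, hj⟩ : ∃ j : Fin (e + 1), j ≠ i := by
    have : Nontrivial (Fin (e + 1)) := Fin.nontrivial_iff_two_le.mpr (by omega)
    exact exists_ne i
  have h1 := ev_pp_bary hc j
  rw [h, ev_bary_ww, if_neg (fun h => hj h.symm)] at h1
  exact h0 j h1.symm

/-- the `d + 1` points in a hyperplane -/
noncomputable def RR (c : Fin (e + 1) → ℝ) : Finset (Fin (e + 1) → ℝ) :=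
  insert (pp c) (univ.image ww)

lemma mem_RR {c : Fin (e + 1) → ℝ} {v : Fin (e + 1) → ℝ} :
    v ∈ RR c ↔ v = pp c ∨ ∃ j, ww j = v := by
  simp [RR]

lemma RR_zero {c : Fin (e + 1) → ℝ} {v : Fin (e + 1) → ℝ} (hv : v ∈ RR c) : v 0 = 0 := by
  rw [mem_RR] at hv
  rcases hv with rfl | ⟨j, rfl⟩
  · simp [pp, ww_zero]
  · exact ww_zero j

lemma RR_erase {c : Fin (e + 1) → ℝ} (hc : ∑ j, c j = 1) (h0 : ∀ j, c j ≠ 0) (he : 1 ≤ e) :
    (RR c).erase (pp c) = univ.image ww := by
  rw [RR, erase_insert]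
  simp only [mem_image, mem_univ, true_and, not_exists]
  exact fun j h => pp_ne_ww hc h0 he j h.symm

lemma RR_card {c : Fin (e + 1) → ℝ} (hc : ∑ j, c j = 1) (h0 : ∀ j, c j ≠ 0) (he : 1 ≤ e) :
    (RR c).card = e + 1 + 1 := by
  rw [RR, card_insert_of_notMem, card_image_of_injective _ ww_inj, card_univ, Fintype.card_fin]
  simp only [mem_image, mem_univ, true_and, not_exists]
  exact fun j h => pp_ne_ww hc h0 he j h.symm

lemma RR_gpx {c : Fin (e + 1) → ℝ} (hc : ∑ j, c j = 1) (h0 : ∀ j, c j ≠ 0) (he : 1 ≤ e) :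
    GPx (ev (d := e + 1)) (e + 1 + 1) (RR c) (RR c) := by
  refine ⟨finrank_Aff, Subset.refl _, RR_card hc h0 he, ?_⟩
  intro Z hZ hn x hx hxZ hne
  obtain ⟨v, hv, hvZ⟩ : ∃ v ∈ RR c, v ∉ insert x Z := by
    by_contra hno
    push Not at hno
    exact hne (Subset.antisymm (insert_subset hx hZ) hno)
  rw [mem_insert, not_or] at hvZ
  rw [mem_RR] at hx hv
  rcases hx with rfl | ⟨j, rfl⟩
  · rcases hv with rfl | ⟨i, rfl⟩
    · exact absurd rfl hvZ.1
    · refine ⟨bary i, fun z hz => ?_, ?_⟩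
      · rcases mem_RR.mp (hZ hz) with rfl | ⟨i', rfl⟩
        · exact absurd hz hxZ
        · rw [ev_bary_ww, if_neg]
          rintro rfl
          exact hvZ.2 hz
      · rw [ev_pp_bary hc]; exact h0 i
  · rcases hv with rfl | ⟨i, rfl⟩
    · refine ⟨bary j, fun z hz => ?_, ?_⟩
      · rcases mem_RR.mp (hZ hz) with rfl | ⟨i', rfl⟩
        · exact absurd hz hvZ.2
        · rw [ev_bary_ww, if_neg]
          rintro rfl
          exact hxZ hz
      · rw [ev_bary_ww, if_pos rfl]; exact one_ne_zero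
    · have hij : j ≠ i := fun h => hvZ.1 (by rw [h])
      refine ⟨(c i) • bary j - (c j) • bary i, fun z hz => ?_, ?_⟩
      · rcases mem_RR.mp (hZ hz) with rfl | ⟨i', rfl⟩
        · rw [map_sub, map_smul, map_smul, ev_pp_bary hc, ev_pp_bary hc, smul_eq_mul, smul_eq_mul]
          ring
        · rw [map_sub, map_smul, map_smul, ev_bary_ww, ev_bary_ww, if_neg, if_neg]
          · simp
          · rintro rfl; exact hvZ.2 hz
          · rintro rfl; exact hxZ hz
      · rw [map_sub, map_smul, map_smul, ev_bary_ww, ev_bary_ww, if_pos rfl, if_neg hij]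
        simpa using h0 i

lemma exists_conf {c : Fin (e + 1) → ℝ} (hc : ∑ j, c j = 1) (h0 : ∀ j, c j ≠ 0) (he : 1 ≤ e)
    (k l : ℕ) : ∃ Y : Finset (Fin (e + 1) → ℝ), GPx (ev (d := e + 1)) (e + 1 + 1) Y (RR c) ∧
      (∀ v ∈ Y, v ∉ RR c → v 0 ≠ 0) ∧ (Y.filter fun v => 0 < v 0).card = l ∧
      (Y.filter fun v => v 0 < 0).card = k ∧ Y.card = e + 1 + 1 + k + l := by
  have hmom : ∀ T : ℝ, mom (e + 1) T 0 = T := fun T => by simp [mom]
  induction l with
  | zero =>
    induction k with
    | zero =>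
      refine ⟨RR c, RR_gpx hc h0 he, fun v hv hv' => absurd hv hv', ?_, ?_, ?_⟩
      · rw [card_eq_zero, filter_eq_empty_iff]
        intro v hv; rw [RR_zero hv]; exact lt_irrefl _
      · rw [card_eq_zero, filter_eq_empty_iff]
        intro v hv; rw [RR_zero hv]; exact lt_irrefl _
      · rw [RR_card hc h0 he]
    | succ k ih =>
      obtain ⟨Y, h1, h2, h3, h4, h5⟩ := ih
      obtain ⟨T, hT, hTY, hT2⟩ := h1.extend (by omega) (Set.Iio 0) (Set.Iio_infinite 0)
      have hT' : T < 0 := hT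
      refine ⟨_, hT2, ?_, ?_, ?_, ?_⟩
      · intro v hv hv'
        rcases mem_insert.mp hv with rfl | hv
        · rw [hmom]; exact hT'.ne
        · exact h2 v hv hv'
      · rw [filter_insert, hmom, if_neg (not_lt.mpr hT'.le), h3]
      · rw [filter_insert, hmom, if_pos hT', card_insert_of_notMem, h4]
        exact fun h => hTY (mem_filter.mp h).1
      · rw [card_insert_of_notMem hTY, h5]; ring
  | succ l ih =>
    obtain ⟨Y, h1, h2, h3, h4, h5⟩ := ih
    obtain ⟨T, hT, hTY, hT2⟩ := h1.extend (by omega) (Set.Ioi 0) (Set.Ioi_infinite 0)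
    have hT' : 0 < T := hT
    refine ⟨_, hT2, ?_, ?_, ?_, ?_⟩
    · intro v hv hv'
      rcases mem_insert.mp hv with rfl | hv
      · rw [hmom]; exact hT'.ne'
      · exact h2 v hv hv'
    · rw [filter_insert, hmom, if_pos hT', card_insert_of_notMem, h3]
      exact fun h => hTY (mem_filter.mp h).1
    · rw [filter_insert, hmom, if_neg (not_lt.mpr hT'.le), h4]
    · rw [card_insert_of_notMem hTY, h5]; ring

/-- coefficients with `i - 1` negative entries -/
lemma exists_coeff (e i : ℕ) (h1 : 1 ≤ i) (h2 : i ≤ e + 1) : ∃ c : Fin (e + 1) → ℝ,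
    ∑ j, c j = 1 ∧ (∀ j, c j ≠ 0) ∧ (univ.filter fun j => c j < 0).card = i - 1 := by
  have hpos : (0 : ℝ) < e + 2 - i := by
    have : (i : ℝ) ≤ e + 1 := by exact_mod_cast h2
    linarith
  have hi : (0 : ℝ) < i := by exact_mod_cast h1
  have hq : (0 : ℝ) < i / (e + 2 - i) := div_pos hi hpos
  refine ⟨fun j => if (j : ℕ) < i - 1 then -1 else i / (e + 2 - i), ?_, ?_, ?_⟩
  · have hcard : ((univ : Finset (Fin (e + 1))).filter fun j : Fin (e + 1) => (j : ℕ) < i - 1).card = i - 1 := by
      rw [Fin.card_filter_val_lt]; omega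
    rw [sum_ite, sum_const, sum_const, hcard]
    have h3 : ((univ : Finset (Fin (e + 1))).filter fun j : Fin (e + 1) => ¬ (j : ℕ) < i - 1).card =
        e + 1 - (i - 1) := by
      rw [filter_not, card_sdiff_of_subset (filter_subset _ _), hcard, card_univ, Fintype.card_fin]
    rw [h3, nsmul_eq_mul, nsmul_eq_mul]
    have h4 : ((e + 1 - (i - 1) : ℕ) : ℝ) = e + 2 - i := by
      rw [show e + 1 - (i - 1) = e + 2 - i by omega, Nat.cast_sub (by omega)]
      push_cast; ring
    have h5 : ((i - 1 : ℕ) : ℝ) = i - 1 := by rw [Nat.cast_sub h1]; simp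
    rw [h4, h5]
    field_simp
    ring
  · intro j
    simp only
    split_ifs
    · norm_num
    · exact hq.ne'
  · have : ((univ : Finset (Fin (e + 1))).filter fun j : Fin (e + 1) =>
        (if (j : ℕ) < i - 1 then (-1 : ℝ) else i / (e + 2 - i)) < 0) =
        univ.filter fun j : Fin (e + 1) => (j : ℕ) < i - 1 := by
      apply filter_congr
      intro j _
      split_ifs with h
      · simp [h]
      · simp only [h, iff_false, not_lt]; exact hq.le
    rw [this, Fin.card_filter_val_lt]; omega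

end Pool.Agent.L5helper36.Radon
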