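import Pool.Agent.L5helper36.Radon.Defs

/-! The set of Radon vectors. -/

namespace Pool.Agent.L5helper36.Radon

/-- the set of all Radon vectors `(r_1, …, r_{⌊s/2⌋})` of `s`-point sets in general position
in `ℝ^d` -/
def VR (s d : ℕ) : Set (Fin (s / 2) → ℝ) :=
  {x | ∃ S : Finset (Fin d → ℝ), S.card = s ∧ GeneralPosition S ∧
    x = fun i : Fin (s / 2) => (radonCount S ((i : ℕ) + 1) : ℝ)}

end Pool.Agent.L5helper36.Radon
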