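import Pool.Agent.L5helper36.Radon.Hull

/-! The affine hull of the Radon vectors: the main theorem. -/

set_option linter.unusedSectionVars false

namespace Pool.Agent.L5helper36.Radon

open Finset

/-- the points `0, 1, …, s - 1` of the line -/
noncomputable def linePts (s : ℕ) : Finset (Fin 1 → ℝ) :=
  (range s).image fun i : ℕ => fun _ : Fin 1 => (i : ℝ)

lemma linePts_card (s : ℕ) : (linePts s).card = s := by
  rw [linePts, card_image_of_injective, card_range]
  intro i j h
  have := congrFun h 0
  simpa using this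

lemma linePts_gp (s : ℕ) : GeneralPosition (linePts s) := by
  rintro T hT hc ⟨f, b, hf, hb⟩
  obtain ⟨x, hx, y, hy, hxy⟩ := one_lt_card.mp (show 1 < T.card by omega)
  have hlin : ∀ p : Fin 1 → ℝ, f p = p 0 * f 1 := by
    intro p
    have : p = p 0 • (1 : Fin 1 → ℝ) := by
      ext i; rw [Subsingleton.elim i 0]; simp
    conv_lhs => rw [this]
    rw [map_smul, smul_eq_mul]
  have h1 : f 1 ≠ 0 := by
    intro h
    apply hf
    refine LinearMap.ext fun p => ?_
    rw [hlin, h, mul_zero, LinearMap.zero_apply]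
  have h2 : x 0 * f 1 = y 0 * f 1 := by rw [← hlin, ← hlin, hb x hx, hb y hy]
  have h3 := mul_right_cancel₀ h1 h2
  apply hxy
  ext i
  rw [Subsingleton.elim i 0, h3]

lemma V_nonempty {s d : ℕ} (hd : 1 ≤ d) (hs : d + 2 ≤ s) : (V s d).Nonempty := by
  rcases Nat.eq_or_lt_of_le hd with rfl | hd2
  · exact ⟨_, linePts s, linePts_card s, linePts_gp s, rfl⟩
  · obtain ⟨e, rfl⟩ : ∃ e, d = e + 1 := ⟨d - 1, by omega⟩
    obtain ⟨S, S', hS, -, gS, -⟩ := mut_pair (e := e) (i := 1) (k := 0) (l := s - e - 2)
      (by omega) le_rfl (by omega) (by omega)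
    exact ⟨_, S, by omega, gS, rfl⟩

/-- a functional on pairs of vectors -/
lemma functional_apply {p q : ℕ} (F : ((Fin p → ℝ) × (Fin q → ℝ)) →ₗ[ℝ] ℝ)
    (x : Fin p → ℝ) (y : Fin q → ℝ) : F (x, y) = ∑ i, F (Pi.single i 1, 0) * x i +
      ∑ j, F (0, Pi.single j 1) * y j := by
  have e : ((x, y) : (Fin p → ℝ) × (Fin q → ℝ)) =
      ∑ i, x i • ((Pi.single i 1 : Fin p → ℝ), (0 : Fin q → ℝ)) +
      ∑ j, y j • ((0 : Fin p → ℝ), (Pi.single j 1 : Fin q → ℝ)) := by
    ext k
    · simp [Prod.fst_sum, Finset.sum_apply, Pi.single_apply]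
    · simp [Prod.snd_sum, Finset.sum_apply, Pi.single_apply]
  rw [e, map_add, map_sum, map_sum]
  congr 1
  · exact sum_congr rfl fun i _ => by rw [map_smul, smul_eq_mul, mul_comm]
  · exact sum_congr rfl fun i _ => by rw [map_smul, smul_eq_mul, mul_comm]

/-- the key step: a functional which kills `V - V` kills every difference of solutions -/
lemma functional_kills {s d : ℕ} (hd : 1 ≤ d) (hs : d + 2 ≤ s) (a : Fin (s / 2) → ℝ)
    (b : Fin (d / 2 + 1) → ℝ)
    (hF : ∀ v ∈ V s d, ∀ v' ∈ V s d,
      ∑ i, a i * (v.1 i - v'.1 i) + ∑ i, b i * (v.2 i - v'.2 i) = 0)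
    {v v' : (Fin (s / 2) → ℝ) × (Fin (d / 2 + 1) → ℝ)} (hv : Relations s d v)
    (hv' : Relations s d v') :
    ∑ i, a i * (v.1 i - v'.1 i) + ∑ i, b i * (v.2 i - v'.2 i) = 0 := by
  obtain ⟨x, hx⟩ : ∃ x : Fin (s / 2) → ℝ, ∀ i, x i = v.1 i - v'.1 i := ⟨_, fun _ => rfl⟩
  obtain ⟨y, hy⟩ : ∃ y : Fin (d / 2 + 1) → ℝ, ∀ i, y i = v.2 i - v'.2 i := ⟨_, fun _ => rfl⟩
  have hx' : x = v.1 - v'.1 := funext hx
  have hy' : y = v.2 - v'.2 := funext hy
  have X1 : ∑ i, x i = 0 := by
    simp only [hx]; rw [sum_sub_distrib, hv.sum_r, hv'.sum_r, sub_self]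
  have X2 : Odd d → Even s → ∑ i : Fin (s / 2), (-1 : ℝ) ^ ((i : ℕ) + 1) * x i = 0 := by
    intro h1 h2
    simp only [hx, mul_sub]; rw [sum_sub_distrib, hv.alt_r h1 h2, hv'.alt_r h1 h2, sub_self]
  have X3 : ∑ i, y i = 0 := by
    simp only [hy]; rw [sum_sub_distrib, hv.sum_P, hv'.sum_P, sub_self]
  have X4 : ∑ i : Fin (s / 2), (((i : ℝ) + 1) * (s - ((i : ℝ) + 1))) * x i -
      ∑ i : Fin (d / 2 + 1), (((i : ℝ) + 1) * (d + 2 - ((i : ℝ) + 1))) * y i = 0 := by
    have e1 := hv.mixed
    have e2 := hv'.mixed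
    simp only [hx, hy]
    rw [sum_congr rfl (fun i _ => mul_sub _ _ _), sum_sub_distrib,
      sum_congr rfl (fun i _ => mul_sub _ _ _), sum_sub_distrib]
    linarith
  simp only [← hx, ← hy]
  rcases Nat.eq_or_lt_of_le hd with rfl | hd2
  · -- `d = 1`
    have x0 : ∀ i, x i = 0 := by
      intro i
      have e1 := hv.one rfl i
      have e2 := hv'.one rfl i
      have h5 : (if 2 * ((i : ℕ) + 1) = s then (2 : ℝ) else 1) ≠ 0 := by
        split_ifs <;> norm_num
      rw [hx]
      exact sub_eq_zero.mpr (mul_left_cancel₀ h5 (e1.trans e2.symm))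
    have y0 : ∀ i, y i = 0 := by
      intro i
      have : Subsingleton (Fin (1 / 2 + 1)) := by
        rw [show 1 / 2 + 1 = 1 by norm_num]; infer_instance
      have h6 := X3
      rw [Fintype.sum_subsingleton _ i] at h6
      exact h6
    rw [sum_eq_zero (fun i _ => by rw [x0, mul_zero]), sum_eq_zero (fun i _ => by rw [y0, mul_zero]),
      add_zero]
  obtain ⟨e, rfl⟩ : ∃ e, d = e + 1 := ⟨d - 1, by omega⟩
  have hrec : ∀ i k : ℕ, 1 ≤ i → i ≤ e + 1 → k + e + 2 ≤ s →
      hat s a (e + 2 - i + k) - hat s a (i + k) =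
      ((s : ℝ) - e - 2 - 2 * k) * (hat (e + 3) b i - hat (e + 3) b (i + 1)) :=
    fun i k h1 h2 h3 => recursion (by omega) (by omega) a b hF h1 h2 h3
  rcases Nat.lt_or_ge s (e + 5) with hs2 | hs2
  · rcases Nat.lt_or_ge s (e + 4) with hs3 | hs3
    · -- `s = d + 2`
      obtain rfl : s = e + 3 := by omega
      have hxy : ∀ i : Fin ((e + 3) / 2), x i = y ⟨i, by have := i.2; omega⟩ := by
        intro i
        rw [hx, hy, hv.two (by omega) i ⟨i, by have := i.2; omega⟩ rfl,
          hv'.two (by omega) i ⟨i, by have := i.2; omega⟩ rfl]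
      have hconst : ∀ i : ℕ, 1 ≤ i → i ≤ e + 2 →
          hat (e + 3) a i + hat (e + 3) b i = hat (e + 3) a 1 + hat (e + 3) b 1 := by
        intro i hi1
        induction i, hi1 using Nat.le_induction with
        | base => intro _; rfl
        | succ i hi1 ih =>
          intro hi2
          have h1 := hrec i 0 hi1 (by omega) (by omega)
          have h2 : hat (e + 3) a (e + 2 - i + 0) = hat (e + 3) a (i + 1) := by
            rw [← hat_symm a (show i + 1 ≤ e + 3 by omega)]
            congr 1; omega
          rw [h2, add_zero] at h1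
          push_cast at h1
          rw [← ih (by omega)]
          linarith
      have hsum : ∑ i, a i * x i = ∑ j : Fin ((e + 1) / 2 + 1), hat (e + 3) a (j + 1) * y j := by
        have hcard : (e + 3) / 2 = (e + 1) / 2 + 1 := by omega
        refine Fintype.sum_equiv (finCongr hcard) _ _ fun i => ?_
        rw [hxy i]
        congr 1
        rw [finCongr_apply, Fin.val_cast]
        exact (hat_apply (by omega) a i).symm
      rw [hsum, ← sum_add_distrib]
      have : ∀ j : Fin ((e + 1) / 2 + 1), hat (e + 3) a (j + 1) * y j + b j * y j =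
          (hat (e + 3) a 1 + hat (e + 3) b 1) * y j := by
        intro j
        have := j.2
        rw [← hconst (j + 1) (by omega) (by omega), hat_apply (by omega) b j]
        ring
      rw [sum_congr rfl (fun j _ => this j), ← mul_sum, X3, mul_zero]
    · -- `s = d + 3`
      obtain rfl : s = e + 4 := by omega
      have X6 : ∀ m : ℕ, 2 * full (e + 4) x (m + 1) = full (e + 3) y (m + 1) +
          full (e + 3) y m := by
        intro m
        rw [hx', hy', full_sub, full_sub, full_sub]
        linear_combination hv.three (by omega) m - hv'.three (by omega) m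
      have hconst : ∀ i : ℕ, 1 ≤ i → i ≤ e + 2 →
          hat (e + 4) a i + hat (e + 4) a (i + 1) + 2 * hat (e + 3) b i =
            hat (e + 4) a 1 + hat (e + 4) a 2 + 2 * hat (e + 3) b 1 := by
        intro i hi1
        induction i, hi1 using Nat.le_induction with
        | base => intro _; rfl
        | succ i hi1 ih =>
          intro hi2
          have h1 := hrec i 0 hi1 (by omega) (by omega)
          have h2 : hat (e + 4) a (e + 2 - i + 0) = hat (e + 4) a (i + 2) := by
            rw [← hat_symm a (show i + 2 ≤ e + 4 by omega)]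
            congr 1; omega
          rw [h2, add_zero] at h1
          push_cast at h1
          rw [← ih (by omega)]
          linarith
      have s1 := sum_hat (n := e + 4) (by omega) a x
      have s2 := sum_hat (n := e + 3) (by omega) b y
      have s3 := sum_full_symm (n := e + 3) (by omega) y (fun _ => 1) (fun _ _ => rfl)
      simp only [one_mul] at s3
      rw [X3, mul_zero] at s3
      -- shift the sum
      have t1 : 2 * ∑ m ∈ range (e + 4 + 1), hat (e + 4) a m * full (e + 4) x m =
          ∑ m ∈ range (e + 3 + 1), (hat (e + 4) a m + hat (e + 4) a (m + 1)) *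
            full (e + 3) y m := by
        rw [sum_range_succ', full_zero (by omega), mul_zero, add_zero, mul_sum]
        have c1 : ∀ m ∈ range (e + 4), 2 * (hat (e + 4) a (m + 1) * full (e + 4) x (m + 1)) =
            hat (e + 4) a (m + 1) * full (e + 3) y (m + 1) +
              hat (e + 4) a (m + 1) * full (e + 3) y m := by
          intro m _
          linear_combination hat (e + 4) a (m + 1) * X6 m
        rw [sum_congr rfl c1, sum_add_distrib]
        have c2 : ∑ m ∈ range (e + 4), hat (e + 4) a (m + 1) * full (e + 3) y (m + 1) =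
            ∑ m ∈ range (e + 4), hat (e + 4) a m * full (e + 3) y m := by
          rw [sum_range_succ, full_ge (n := e + 3) (m := e + 3 + 1) (by omega) y (by omega),
            mul_zero, add_zero, sum_range_succ' (fun m => hat (e + 4) a m * full (e + 3) y m),
            full_zero (by omega), mul_zero, add_zero]
        rw [c2, ← sum_add_distrib]
        exact sum_congr rfl fun m _ => by ring
      have t2 : ∑ m ∈ range (e + 3 + 1), (hat (e + 4) a m + hat (e + 4) a (m + 1)) *
            full (e + 3) y m + 2 * ∑ m ∈ range (e + 3 + 1), hat (e + 3) b m * full (e + 3) y m =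
          (hat (e + 4) a 1 + hat (e + 4) a 2 + 2 * hat (e + 3) b 1) *
            ∑ m ∈ range (e + 3 + 1), full (e + 3) y m := by
        rw [mul_sum, mul_sum, ← sum_add_distrib]
        refine sum_congr rfl fun m hm => ?_
        rcases Nat.eq_zero_or_pos m with rfl | hm0
        · rw [full_zero (by omega)]; ring
        · rcases Nat.lt_or_ge m (e + 3) with hm1 | hm1
          · rw [← hconst m hm0 (by omega)]; ring
          · rw [full_ge (by omega) y hm1]; ring
      rw [s3, mul_zero] at t2
      rw [s1] at t1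
      rw [s2] at t2
      linarith
  · -- `s ≥ d + 4`
    obtain ⟨p, q, c, p', hc, h1, h2⟩ := linalg (d := e + 1) (s := s) (by omega) (by omega)
      (hat s a) (hat (e + 3) b) (fun m hm => hat_symm a hm) (by
      intro i k hi1 hi2 hk
      have := hrec i k hi1 (by omega) (by omega)
      rw [show e + 1 + 1 - i = e + 2 - i by omega, this]
      push_cast
      ring)
    have r1 : ∑ i, a i * x i = p * ∑ i, x i + q * ∑ i : Fin (s / 2),
        (((i : ℝ) + 1) * (s - ((i : ℝ) + 1))) * x i +
        c * ∑ i : Fin (s / 2), (-1 : ℝ) ^ ((i : ℕ) + 1) * x i := by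
      rw [mul_sum, mul_sum, mul_sum, ← sum_add_distrib, ← sum_add_distrib]
      refine sum_congr rfl fun i _ => ?_
      have := i.2
      rw [← hat_apply (n := s) (by omega) a i, h1 (i + 1) (by omega) (by omega)]
      push_cast
      ring
    have r2 : ∑ i, b i * y i = p' * ∑ i, y i - q * ∑ i : Fin ((e + 1) / 2 + 1),
        (((i : ℝ) + 1) * (((e + 1 : ℕ) : ℝ) + 2 - ((i : ℝ) + 1))) * y i := by
      rw [mul_sum, mul_sum, ← sum_sub_distrib]
      refine sum_congr rfl fun i _ => ?_
      have := i.2
      rw [← hat_apply (n := e + 3) (by omega) b i, h2 (i + 1) (by omega) (by omega)]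
      push_cast
      ring
    have r3 : c * ∑ i : Fin (s / 2), (-1 : ℝ) ^ ((i : ℕ) + 1) * x i = 0 := by
      rcases hc with h0 | ⟨h3, h4⟩
      · rw [h0, zero_mul]
      · rw [X2 h3 h4, mul_zero]
    rw [r1, r2, r3, X1, X3]
    linear_combination q * X4

/-- **The affine hull of `V(s, d)`.** -/
theorem affineSpan_V {s d : ℕ} (hd : 1 ≤ d) (hs : d + 2 ≤ s) :
    (affineSpan ℝ (V s d) : Set ((Fin (s / 2) → ℝ) × (Fin (d / 2 + 1) → ℝ))) =
      {v | Relations s d v} := by
  have hsub : ∀ v ∈ V s d, Relations s d v := by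
    rintro v ⟨S, h1, h2, rfl⟩
    exact relations_radonVec h1 hs h2
  apply Set.Subset.antisymm
  · intro v hv
    refine affineSpan_induction (p := fun v => Relations s d v) hv hsub ?_
    intro c u v w hu hv hw
    rw [vsub_eq_sub, vadd_eq_add]
    exact hu.combo hv hw c
  · intro v hv
    obtain ⟨v0, hv0⟩ := V_nonempty hd hs
    have key : v - v0 ∈ vectorSpan ℝ (V s d) := by
      by_contra hno
      obtain ⟨F, hF1, hF2⟩ := Submodule.exists_le_ker_of_notMem hno
      apply hF1
      have e1 : ∀ w w' : (Fin (s / 2) → ℝ) × (Fin (d / 2 + 1) → ℝ), F (w - w') =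
          ∑ i, F (Pi.single i 1, 0) * (w.1 i - w'.1 i) +
            ∑ j, F (0, Pi.single j 1) * (w.2 j - w'.2 j) := by
        intro w w'
        exact functional_apply F (w - w').1 (w - w').2
      rw [e1]
      refine functional_kills hd hs _ _ ?_ hv (hsub v0 hv0)
      intro w hw w' hw'
      rw [← e1]
      exact LinearMap.mem_ker.mp (hF2 (vsub_mem_vectorSpan ℝ hw hw'))
    have := vadd_mem_affineSpan_of_mem_affineSpan_of_mem_vectorSpan (k := ℝ)
      (mem_affineSpan ℝ hv0) key
    rw [vadd_eq_add, sub_add_cancel] at this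
    exact this

end Pool.Agent.L5helper36.Radon
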