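import Pool.Agent.L5helper36.Radon.Geom

/-! The two-sided version of a half vector and the statement of the relations. -/

set_option linter.unusedSectionVars false

namespace Pool.Agent.L5helper36.Radon

open Finset

lemma sum_full {k n : ℕ} (hk : k ≤ n) (x : Fin k → ℝ) (g : ℕ → ℝ) :
    ∑ m ∈ range (n + 1), g m * full n x m =
      ∑ i : Fin k, (g (i + 1) + g (n - (i + 1))) * x i := by
  simp only [full, mul_sum]
  rw [sum_comm]
  refine sum_congr rfl fun i _ => ?_
  have hi := i.2
  simp only [mul_add, sum_add_distrib, mul_ite, mul_zero]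
  rw [sum_ite_eq (range (n + 1)) ((i : ℕ) + 1)]
  have h1 : ∀ m ∈ range (n + 1), (if (i : ℕ) + 1 + m = n then g m * x i else 0) =
      (if n - (i + 1) = m then g m * x i else 0) := by
    intro m hm
    rw [mem_range] at hm
    congr 1
    rw [eq_iff_iff]
    omega
  rw [sum_congr rfl h1, sum_ite_eq, if_pos (by rw [mem_range]; omega), if_pos (by
    rw [mem_range]; omega)]
  ring

lemma sum_full_symm {k n : ℕ} (hk : k ≤ n) (x : Fin k → ℝ) (g : ℕ → ℝ)
    (hg : ∀ m ≤ n, g (n - m) = g m) :
    ∑ m ∈ range (n + 1), g m * full n x m = 2 * ∑ i : Fin k, g (i + 1) * x i := by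
  rw [sum_full hk, mul_sum]
  refine sum_congr rfl fun i _ => ?_
  rw [hg _ (by have := i.2; omega)]
  ring

lemma full_add {k n : ℕ} (x y : Fin k → ℝ) (m : ℕ) : full n (x + y) m = full n x m + full n y m := by
  simp only [full, Pi.add_apply]
  rw [← sum_add_distrib]
  refine sum_congr rfl fun i _ => ?_
  split_ifs <;> ring

lemma full_smul {k n : ℕ} (c : ℝ) (x : Fin k → ℝ) (m : ℕ) : full n (c • x) m = c * full n x m := by
  simp only [full, Pi.smul_apply, smul_eq_mul]
  rw [mul_sum]
  refine sum_congr rfl fun i _ => ?_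
  split_ifs <;> ring

lemma full_sub {k n : ℕ} (x y : Fin k → ℝ) (m : ℕ) : full n (x - y) m = full n x m - full n y m := by
  simp only [full, Pi.sub_apply]
  rw [← sum_sub_distrib]
  refine sum_congr rfl fun i _ => ?_
  split_ifs <;> ring

lemma full_apply {k n : ℕ} (hk : k = n / 2) (x : Fin k → ℝ) (i : Fin k) :
    full n x (i + 1) = (if 2 * ((i : ℕ) + 1) = n then 2 else 1) * x i := by
  unfold full
  rw [Finset.sum_eq_single i]
  · by_cases h : 2 * ((i : ℕ) + 1) = n
    · rw [if_pos rfl, if_pos (by omega), if_pos h]; ring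
    · rw [if_pos rfl, if_neg (by omega), if_neg h]; ring
  · intro j _ hj
    have h1 : (j : ℕ) ≠ i := fun h => hj (Fin.ext h)
    have := i.2
    have := j.2
    rw [if_neg (by omega), if_neg (by omega), add_zero]
  · intro h; exact absurd (mem_univ i) h

/-- `full` is determined by its values at `1 ≤ m ≤ n/2` and symmetry -/
lemma full_eq_of {k n : ℕ} (hk : k = n / 2) (x : Fin k → ℝ) (F : ℕ → ℝ) (h0 : F 0 = 0)
    (hs : ∀ m ≤ n, F (n - m) = F m) (hn : ∀ m, n < m → F m = 0)
    (hx : ∀ i : Fin k, (if 2 * ((i : ℕ) + 1) = n then 2 else 1) * x i = F (i + 1)) (m : ℕ) :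
    full n x m = F m := by
  have key : ∀ m, 1 ≤ m → 2 * m ≤ n → full n x m = F m := by
    intro m h1 h2
    have := full_apply hk x ⟨m - 1, by omega⟩
    have h3 := hx ⟨m - 1, by omega⟩
    simp only [Nat.sub_add_cancel h1] at this h3
    rw [this, h3]
  have z : ∀ m, (m = 0 ∨ n ≤ m) → full n x m = 0 := by
    intro m hm
    unfold full
    refine sum_eq_zero fun i _ => ?_
    have := i.2
    rw [if_neg (by omega), if_neg (by omega), add_zero]
  have sy : ∀ m ≤ n, full n x (n - m) = full n x m := by
    intro m hm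
    unfold full
    refine sum_congr rfl fun i _ => ?_
    rw [add_comm]
    have := i.2
    congr 1
    · congr 1; rw [eq_iff_iff]; omega
    · congr 1; rw [eq_iff_iff]; omega
  rcases Nat.eq_zero_or_pos m with rfl | h1
  · rw [z 0 (Or.inl rfl), h0]
  rcases lt_or_ge n m with h2 | h2
  · rw [z m (Or.inr h2.le), hn m h2]
  rcases le_or_gt (2 * m) n with h3 | h3
  · exact key m h1 h3
  · rcases Nat.eq_or_lt_of_le h2 with rfl | h4
    · rw [z m (Or.inr le_rfl)]
      have := hs m le_rfl
      rw [Nat.sub_self, h0] at this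
      exact this
    · rw [← sy m h2, ← hs m h2]
      exact key _ (by omega) (by omega)

end Pool.Agent.L5helper36.Radon
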