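import Mathlib

/-! The linear recursion satisfied by a functional which kills all mutation vectors. -/

namespace Pool.Agent.L5helper36.Radon

open Finset

lemma core_down {d s : ℕ} (hs : d + 4 ≤ s) (γ ε : ℕ → ℝ)
    (hγ : ∀ m ≤ s, γ (s - m) = γ m)
    (h : ∀ i k : ℕ, 1 ≤ i → 2 * i ≤ d → k + d + 1 ≤ s →
      γ (d + 1 - i + k) - γ (i + k) = ((s : ℝ) - d - 1 - 2 * k) * ε i)
    (h1 : ∀ m, d / 2 ≤ m → m + d / 2 ≤ s → γ m = 0) (h2 : ε (d / 2) = 0) :
    ∀ t < d / 2, (∀ m, d / 2 - t ≤ m → m + (d / 2 - t) ≤ s → γ m = 0) ∧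
      ε (d / 2 - t) = 0 := by
  intro t
  induction t with
  | zero => intro _; exact ⟨h1, h2⟩
  | succ t ih =>
    intro ht
    obtain ⟨i1, -⟩ := ih (by omega)
    obtain ⟨i, hi⟩ : ∃ i, i = d / 2 - (t + 1) := ⟨_, rfl⟩
    have hi' : d / 2 - t = i + 1 := by omega
    rw [hi'] at i1
    rw [← hi]
    have hiI : i + 1 ≤ d / 2 := by omega
    have hid : 2 * i ≤ d := by omega
    have hi1 : 1 ≤ i := by omega
    have e1 := h i 1 hi1 hid (by omega)
    rw [i1 (d + 1 - i + 1) (by omega) (by omega), i1 (i + 1) le_rfl (by omega), sub_self] at e1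
    have hpos : ((s : ℝ) - d - 1 - 2 * (1 : ℕ)) ≠ 0 := by
      have : (d : ℝ) + 4 ≤ s := by exact_mod_cast hs
      push_cast
      linarith
    have hε : ε i = 0 := by
      rcases mul_eq_zero.mp e1.symm with h | h
      · exact absurd h hpos
      · exact h
    have e0 := h i 0 hi1 hid (by omega)
    rw [hε, mul_zero, add_zero, add_zero, i1 (d + 1 - i) (by omega) (by omega)] at e0
    have hγi : γ i = 0 := by linarith
    refine ⟨fun m hm1 hm2 => ?_, hε⟩
    rcases Nat.eq_or_lt_of_le hm1 with rfl | hm3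
    · exact hγi
    · rcases Nat.eq_or_lt_of_le hm2 with hm4 | hm4
      · have : m = s - i := by omega
        rw [this, hγ i (by omega), hγi]
      · exact i1 m hm3 (by omega)

lemma linalg {d s : ℕ} (hd : 2 ≤ d) (hs : d + 4 ≤ s) (A B : ℕ → ℝ)
    (hA : ∀ m ≤ s, A (s - m) = A m)
    (h : ∀ i k : ℕ, 1 ≤ i → 2 * i ≤ d → k + d + 1 ≤ s →
      A (d + 1 - i + k) - A (i + k) = ((s : ℝ) - d - 1 - 2 * k) * (B i - B (i + 1))) :
    ∃ a b c a' : ℝ, (c = 0 ∨ (Odd d ∧ Even s)) ∧
      (∀ m : ℕ, 1 ≤ m → m + 1 ≤ s → A m = a + b * (m * (s - m)) + c * (-1) ^ m) ∧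
      (∀ m : ℕ, 1 ≤ m → m ≤ d / 2 + 1 → B m = a' - b * (m * (d + 2 - m))) := by
  set I := d / 2 with hI
  have hI1 : 1 ≤ I := by omega
  have hq : ((d : ℝ) + 1 - 2 * I) ≠ 0 := by
    have : (2 * I : ℝ) ≤ d := by
      have : 2 * I ≤ d := by omega
      exact_mod_cast this
    linarith
  set b : ℝ := (B I - B (I + 1)) / ((d : ℝ) + 1 - 2 * I) with hb
  have hbI : B I - B (I + 1) = b * ((d : ℝ) + 1 - 2 * I) := by
    rw [hb]; field_simp
  -- `γ₀`
  set G : ℕ → ℝ := fun m => A m - b * (m * (s - m)) with hG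
  have hGs : ∀ m ≤ s, G (s - m) = G m := by
    intro m hm
    simp only [hG]
    rw [hA m hm, Nat.cast_sub hm]
    ring
  have hGI : ∀ k, k + d + 1 ≤ s → G (d + 1 - I + k) = G (I + k) := by
    intro k hk
    have e := h I k hI1 (by omega) hk
    rw [hbI] at e
    simp only [hG]
    have c1 : ((d + 1 - I + k : ℕ) : ℝ) = (d : ℝ) + 1 - I + k := by
      rw [Nat.cast_add, Nat.cast_sub (by omega)]; push_cast; ring
    rw [c1]
    push_cast
    linarith
  -- the constants
  have key : ∃ a c : ℝ, (c = 0 ∨ (Odd d ∧ Even s)) ∧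
      ∀ m, I ≤ m → m + I ≤ s → G m = a + c * (-1) ^ m := by
    rcases Nat.even_or_odd d with hev | hodd
    · refine ⟨G I, 0, Or.inl rfl, fun m hm1 hm2 => ?_⟩
      obtain ⟨r, hr⟩ := hev
      obtain ⟨k, rfl⟩ := Nat.exists_eq_add_of_le hm1
      clear hm1
      induction k with
      | zero => simp
      | succ k ih =>
        have := hGI k (by omega)
        rw [show d + 1 - I + k = I + (k + 1) by omega] at this
        rw [this, ih (by omega)]
        ring
    · obtain ⟨r, hr⟩ := hodd
      have hper : ∀ k, k + 2 * I + 2 ≤ s → G (I + (k + 2)) = G (I + k) := by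
        intro k hk
        have := hGI k (by omega)
        rwa [show d + 1 - I + k = I + (k + 2) by omega] at this
      have hall : ∀ k, k + 2 * I ≤ s → G (I + k) = (G I + G (I + 1)) / 2 +
          (-1) ^ k * ((G I - G (I + 1)) / 2) := by
        intro k
        induction k using Nat.twoStepInduction with
        | zero => intro _; simp; ring
        | one => intro _; simp; ring
        | more k ih1 _ =>
          intro hk
          rw [hper k (by omega), ih1 (by omega), pow_add]
          ring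
      rcases Nat.even_or_odd s with hse | hso
      · refine ⟨(G I + G (I + 1)) / 2, (-1) ^ I * ((G I - G (I + 1)) / 2),
          Or.inr ⟨⟨r, hr⟩, hse⟩, fun m hm1 hm2 => ?_⟩
        obtain ⟨k, rfl⟩ := Nat.exists_eq_add_of_le hm1
        rw [hall k (by omega), pow_add]
        have : (-1 : ℝ) ^ I * (-1) ^ I = 1 := by rw [← pow_add]; exact (Even.add_self I).neg_one_pow
        linear_combination (-((-1 : ℝ) ^ k * ((G I - G (I + 1)) / 2))) * this
      · -- `s` odd: both classes agree
        obtain ⟨q, hq'⟩ := hso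
        have e1 := hall (s - 2 * I) (by omega)
        have e2 : G (I + (s - 2 * I)) = G I := by
          rw [show I + (s - 2 * I) = s - I by omega]
          exact hGs I (by omega)
        have e3 : (-1 : ℝ) ^ (s - 2 * I) = -1 := by
          apply Odd.neg_one_pow
          exact ⟨q - I, by omega⟩
        rw [e2, e3] at e1
        have e4 : G I = G (I + 1) := by linarith
        refine ⟨G I, 0, Or.inl rfl, fun m hm1 hm2 => ?_⟩
        obtain ⟨k, rfl⟩ := Nat.exists_eq_add_of_le hm1
        rw [hall k (by omega), ← e4]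
        ring
  obtain ⟨a, c, hc, hGm⟩ := key
  have hsgn : ∀ m ≤ s, c * (-1) ^ (s - m) = c * (-1) ^ m := by
    intro m hm
    rcases hc with h0 | ⟨-, hse⟩
    · rw [h0]; ring
    · have h1 : (-1 : ℝ) ^ (s - m) * (-1) ^ m = 1 := by
        rw [← pow_add, Nat.sub_add_cancel hm]; exact hse.neg_one_pow
      have h2 : (-1 : ℝ) ^ m * (-1) ^ m = 1 := by
        rw [← pow_add]; exact (Even.add_self m).neg_one_pow
      linear_combination (c * (-1) ^ m) * h1 - (c * (-1) ^ (s - m)) * h2
  have hpar : ∀ i k : ℕ, 2 * i ≤ d → c * (-1) ^ (d + 1 - i + k) = c * (-1 : ℝ) ^ (i + k) := by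
    intro i k hi
    rcases hc with h0 | ⟨hd', -⟩
    · rw [h0]; ring
    · obtain ⟨r, hr⟩ := hd'
      rw [show d + 1 - i + k = 2 * (r + 1 - i) + (i + k) by omega, pow_add, pow_mul]
      simp
  set γ : ℕ → ℝ := fun m => G m - a - c * (-1) ^ m with hγ
  set ε : ℕ → ℝ := fun i => (B i - B (i + 1)) - b * ((d : ℝ) + 1 - 2 * i) with hε
  have main := core_down hs γ ε (by
    intro m hm
    simp only [hγ]
    rw [hGs m hm, hsgn m hm]) (by
    intro i k hi1 hi2 hk
    have e := h i k hi1 hi2 hk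
    simp only [hγ, hε, hG]
    have c1 : ((d + 1 - i + k : ℕ) : ℝ) = (d : ℝ) + 1 - i + k := by
      rw [Nat.cast_add, Nat.cast_sub (by omega)]; push_cast; ring
    have c2 := hpar i k hi2
    rw [c1]
    push_cast
    linear_combination e - c2) (by
    intro m hm1 hm2
    simp only [hγ]
    rw [hGm m hm1 hm2]; ring) (by
    simp only [hε]
    rw [hbI]; ring)
  have hγ1 : ∀ m, 1 ≤ m → m + 1 ≤ s → γ m = 0 := by
    intro m hm1 hm2
    exact (main (I - 1) (by omega)).1 m (by omega) (by omega)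
  have hε1 : ∀ i, 1 ≤ i → i ≤ I → ε i = 0 := by
    intro i hi1 hi2
    have := (main (I - i) (by omega)).2
    rwa [show d / 2 - (I - i) = i by omega] at this
  refine ⟨a, b, c, B 1 + b * (d + 1), hc, fun m hm1 hm2 => ?_, fun m hm1 hm2 => ?_⟩
  · have := hγ1 m hm1 hm2
    simp only [hγ, hG] at this
    linarith
  · obtain ⟨t, rfl⟩ := Nat.exists_eq_add_of_le hm1
    clear hm1
    induction t with
    | zero => simp; ring
    | succ t ih =>
      have e1 := ih (by omega)
      have e2 := hε1 (1 + t) (by omega) (by omega)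
      simp only [hε] at e2
      rw [show 1 + (t + 1) = 1 + t + 1 by omega]
      push_cast at e1 e2 ⊢
      linear_combination e1 - e2

end Pool.Agent.L5helper36.Radon
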