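import Pool.Agent.L5helper36.Radon.Rel

/-! The relations hold for every set in general position. -/

set_option linter.unusedSectionVars false

namespace Pool.Agent.L5helper36.Radon

open Finset

variable {d : ℕ}

theorem relations_radonVec {s : ℕ} {S : Finset (Fin d → ℝ)} (hs : S.card = s) (hsd : d + 2 ≤ s)
    (hS : GeneralPosition S) : Relations s d (radonVec s d S) := by
  have h : GP (ev (d := d)) (d + 1) ⊤ S := hS.gp (by omega)
  have hne : S.Nonempty := card_pos.mp (by omega)
  have hr := full_r (d := d) hs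
  have hP := full_P (s := s) h
  constructor
  · have h1 := sum_full_symm (k := s / 2) (n := s) (by omega) (radonVec s d S).1 (fun _ => 1)
      (fun _ _ => rfl)
    have h2 := rel1 h hne
    simp only [one_mul, hr] at h1
    rw [hs] at h2
    have h3 : ((∑ m ∈ range (s + 1), rt S m : ℤ) : ℝ) =
      ((2 * (2 ^ (s - 1) - ∑ k ∈ range (d + 1), ((s - 1).choose k : ℤ)) : ℤ) : ℝ) := by
      rw [h2]
    push_cast at h3
    linarith
  · intro hd hse
    have h1 := sum_full_symm (k := s / 2) (n := s) (by omega) (radonVec s d S).1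
      (fun m => (-1) ^ m) (fun m hm => by
        have : (-1 : ℝ) ^ (s - m) * (-1) ^ m = 1 := by
          rw [← pow_add, Nat.sub_add_cancel hm]; exact hse.neg_one_pow
        have h2 : (-1 : ℝ) ^ m * (-1) ^ m = 1 := by
          rw [← pow_add]; exact (Even.add_self m).neg_one_pow
        calc (-1 : ℝ) ^ (s - m) = (-1 : ℝ) ^ (s - m) * ((-1) ^ m * (-1) ^ m) := by rw [h2, mul_one]
          _ = _ := by rw [← mul_assoc, this, one_mul])
    have h2 := rel2 h hne (by
      rw [hs]; exact hse.add (hd.add_odd odd_one))
    simp only [hr] at h1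
    rw [hs] at h2
    have h3 : ((∑ m ∈ range (s + 1), (-1) ^ m * rt S m : ℤ) : ℝ) = ((0 : ℤ) : ℝ) := by
      rw [h2]
    push_cast at h3
    linarith
  · have h1 := sum_full_symm (k := d / 2 + 1) (n := d + 2) (by omega) (radonVec s d S).2
      (fun _ => 1) (fun _ _ => rfl)
    have h2 := rel3 h
    simp only [one_mul, hP] at h1
    rw [hs] at h2
    have h3 : ((∑ m ∈ range (d + 2 + 1), pt S m : ℤ) : ℝ) =
      ((2 * (s.choose (d + 2) : ℤ) : ℤ) : ℝ) := by
      rw [h2]
    push_cast at h3
    linarith
  · have h1 := sum_full_symm (k := s / 2) (n := s) (by omega) (radonVec s d S).1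
      (fun m => (m : ℝ) * (s - m)) (fun m hm => by
        push_cast [Nat.cast_sub hm]; ring)
    have h1' := sum_full_symm (k := d / 2 + 1) (n := d + 2) (by omega) (radonVec s d S).2
      (fun m => (m : ℝ) * (d + 2 - m)) (fun m hm => by
        push_cast [Nat.cast_sub hm]; ring)
    have h2 := rel4 h
    simp only [hr] at h1
    simp only [hP] at h1'
    rw [hs] at h2
    have h3 := congrArg (fun z : ℤ => (z : ℝ)) h2
    push_cast [Nat.cast_sub (show 1 ≤ s by omega)] at h3 h1 h1'
    have h4 : (s.choose 2 : ℝ) = s * (s - 1) / 2 := Nat.cast_choose_two ℝ s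
    rw [h4]
    linarith
  · intro h2 i j hij
    have h3 := full_apply (n := s) rfl (radonVec s d S).1 i
    have h4 := full_apply (n := d + 2) (by omega) (radonVec s d S).2 j
    rw [hr] at h3
    rw [hP, ← hij, rel5 (by omega), h3, ← h2] at h4
    have h5 : (if 2 * ((i : ℕ) + 1) = s then (2 : ℝ) else 1) ≠ 0 := by
      split_ifs <;> norm_num
    exact mul_left_cancel₀ h5 h4
  · intro h2 m
    rw [hr, hP, hP]
    exact_mod_cast rel6 h (by omega) m
  · intro h1 i
    subst h1
    have h3 := full_apply (n := s) rfl (radonVec s 1 S).1 i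
    have := i.2
    rw [← h3, hr, rel7 h (by omega) (by omega), hs]
    push_cast
    ring

end Pool.Agent.L5helper36.Radon
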