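import Pool.Agent.L5helper36.Radon.Trans
import Pool.Agent.L5helper36.Radon.RelMain
import Pool.Agent.L5helper36.Radon.Lin

/-! The affine hull of the Radon vectors. -/

set_option linter.unusedSectionVars false

namespace Pool.Agent.L5helper36.Radon

open Finset

/-! ### the solution set is an affine subspace -/

lemma lin_sum {ι : Type*} (I : Finset ι) (g u v w : ι → ℝ) (c : ℝ) :
    ∑ i ∈ I, g i * (c * (u i - v i) + w i) =
      c * (∑ i ∈ I, g i * u i - ∑ i ∈ I, g i * v i) + ∑ i ∈ I, g i * w i := by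
  rw [← sum_sub_distrib, mul_sum, ← sum_add_distrib]
  exact sum_congr rfl fun i _ => by ring

lemma lin_sum' {ι : Type*} (I : Finset ι) (u v w : ι → ℝ) (c : ℝ) :
    ∑ i ∈ I, (c * (u i - v i) + w i) =
      c * (∑ i ∈ I, u i - ∑ i ∈ I, v i) + ∑ i ∈ I, w i := by
  rw [← sum_sub_distrib, mul_sum, ← sum_add_distrib]

lemma Relations.combo {s d : ℕ} {u v w : (Fin (s / 2) → ℝ) × (Fin (d / 2 + 1) → ℝ)}
    (hu : Relations s d u) (hv : Relations s d v) (hw : Relations s d w) (c : ℝ) :
    Relations s d (c • (u - v) + w) := by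
  have e1 : ∀ i, (c • (u - v) + w).1 i = c * (u.1 i - v.1 i) + w.1 i := fun i => by simp
  have e2 : ∀ i, (c • (u - v) + w).2 i = c * (u.2 i - v.2 i) + w.2 i := fun i => by simp
  have f1 : ∀ m, full s (c • (u - v) + w).1 m = c * (full s u.1 m - full s v.1 m) +
      full s w.1 m := fun m => by
    rw [Prod.fst_add, Prod.smul_fst, Prod.fst_sub, full_add, full_smul, full_sub]
  have f2 : ∀ m, full (d + 2) (c • (u - v) + w).2 m = c * (full (d + 2) u.2 m -
      full (d + 2) v.2 m) + full (d + 2) w.2 m := fun m => by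
    rw [Prod.snd_add, Prod.smul_snd, Prod.snd_sub, full_add, full_smul, full_sub]
  constructor
  · simp only [e1]
    rw [lin_sum', hu.sum_r, hv.sum_r, hw.sum_r]; ring
  · intro h1 h2
    simp only [e1]
    rw [lin_sum, hu.alt_r h1 h2, hv.alt_r h1 h2, hw.alt_r h1 h2]; ring
  · simp only [e2]
    rw [lin_sum', hu.sum_P, hv.sum_P, hw.sum_P]; ring
  · simp only [e1, e2]
    rw [lin_sum, lin_sum]
    linear_combination c * hu.mixed - c * hv.mixed + hw.mixed
  · intro h1 i j hij
    rw [e1, e2, hu.two h1 i j hij, hv.two h1 i j hij, hw.two h1 i j hij]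
  · intro h1 m
    rw [f1, f2, f2]
    linear_combination c * hu.three h1 m - c * hv.three h1 m + hw.three h1 m
  · intro h1 i
    rw [e1]
    linear_combination c * hu.one h1 i - c * hv.one h1 i + hw.one h1 i

/-! ### symmetric extension of a functional -/

/-- symmetric extension of coefficients -/
noncomputable def hat {k : ℕ} (n : ℕ) (a : Fin k → ℝ) (m : ℕ) : ℝ :=
  ∑ i : Fin k, if ((i : ℕ) + 1 = m ∨ (i : ℕ) + 1 + m = n) then a i else 0

lemma hat_symm {k n : ℕ} (a : Fin k → ℝ) {m : ℕ} (hm : m ≤ n) :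
    hat n a (n - m) = hat n a m := by
  unfold hat
  refine sum_congr rfl fun i _ => ?_
  have := i.2
  congr 1
  rw [eq_iff_iff]
  omega

lemma hat_apply {k n : ℕ} (hk : 2 * k ≤ n) (a : Fin k → ℝ) (i : Fin k) :
    hat n a (i + 1) = a i := by
  unfold hat
  rw [Finset.sum_eq_single i]
  · rw [if_pos (Or.inl rfl)]
  · intro j _ hj
    have h1 : (j : ℕ) ≠ i := fun h => hj (Fin.ext h)
    have := i.2
    have := j.2
    rw [if_neg (by omega)]
  · intro h; exact absurd (mem_univ i) h

lemma sum_hat {k n : ℕ} (hk : 2 * k ≤ n) (a x : Fin k → ℝ) :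
    ∑ m ∈ range (n + 1), hat n a m * full n x m = 2 * ∑ i, a i * x i := by
  rw [sum_full_symm (by omega) x (hat n a) (fun m hm => hat_symm a hm)]
  congr 1
  exact sum_congr rfl fun i _ => by rw [hat_apply hk]

lemma full_zero {k n : ℕ} (hk : k < n) (x : Fin k → ℝ) : full n x 0 = 0 := by
  unfold full
  refine sum_eq_zero fun i _ => ?_
  have := i.2
  rw [if_neg (by omega), if_neg (by omega), add_zero]

lemma full_ge {k n : ℕ} (hk : k < n) (x : Fin k → ℝ) {m : ℕ} (hm : n ≤ m) : full n x m = 0 := by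
  unfold full
  refine sum_eq_zero fun i _ => ?_
  have := i.2
  rw [if_neg (by omega), if_neg (by omega), add_zero]

/-! ### mutation vectors -/

/-- a functional which kills `V - V` satisfies the recursion -/
lemma recursion {e s : ℕ} (he : 1 ≤ e) (hs : e + 3 ≤ s) (a : Fin (s / 2) → ℝ)
    (b : Fin ((e + 1) / 2 + 1) → ℝ)
    (hF : ∀ v ∈ V s (e + 1), ∀ v' ∈ V s (e + 1),
      ∑ i, a i * (v.1 i - v'.1 i) + ∑ i, b i * (v.2 i - v'.2 i) = 0)
    {i k : ℕ} (hi : 1 ≤ i) (hi2 : i ≤ e + 1) (hk : k + e + 2 ≤ s) :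
    hat s a (e + 2 - i + k) - hat s a (i + k) =
      ((s : ℝ) - e - 2 - 2 * k) * (hat (e + 3) b i - hat (e + 3) b (i + 1)) := by
  obtain ⟨l, hl⟩ : ∃ l, l = s - e - 2 - k := ⟨_, rfl⟩
  obtain ⟨S, S', hS, hS', gS, gS', hr, hP⟩ := mut_pair (k := k) (l := l) he hi hi2 (by omega)
  have cS : S.card = s := by omega
  have cS' : S'.card = s := by omega
  have h0 := hF _ ⟨S, cS, gS, rfl⟩ _ ⟨S', cS', gS', rfl⟩
  have G : GP (ev (d := e + 1)) (e + 1 + 1) ⊤ S := gS.gp (by omega)
  have G' : GP (ev (d := e + 1)) (e + 1 + 1) ⊤ S' := gS'.gp (by omega)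
  have s1 := sum_hat (n := s) (by omega) a
    ((radonVec s (e + 1) S).1 - (radonVec s (e + 1) S').1)
  have s2 := sum_hat (n := e + 3) (by omega) b
    ((radonVec s (e + 1) S).2 - (radonVec s (e + 1) S').2)
  simp only [Pi.sub_apply] at s1 s2
  have t1 : ∀ m, full s ((radonVec s (e + 1) S).1 - (radonVec s (e + 1) S').1) m =
      (if i + k = m then 1 else 0) + (if e + 2 - i + l = m then 1 else 0) -
        (if i + l = m then 1 else 0) - (if e + 2 - i + k = m then 1 else 0) := by
    intro m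
    rw [full_sub, full_r cS, full_r cS', ← Int.cast_sub, hr m]
    push_cast
    rfl
  have t2 : ∀ m, full (e + 3) ((radonVec s (e + 1) S).2 - (radonVec s (e + 1) S').2) m =
      ((l : ℝ) - k) * ((if i = m then 1 else 0) + (if e + 3 - i = m then 1 else 0) -
        (if i + 1 = m then 1 else 0) - (if e + 2 - i = m then 1 else 0)) := by
    intro m
    have q1 := full_P (d := e + 1) (s := s) G m
    have q2 := full_P (d := e + 1) (s := s) G' m
    rw [full_sub, q1, q2, ← Int.cast_sub, hP m]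
    push_cast
    rfl
  have u1 : ∀ p : ℕ, p ≤ s → ∑ m ∈ range (s + 1), hat s a m * (if p = m then (1 : ℝ) else 0) =
      hat s a p := by
    intro p hp
    simp only [mul_ite, mul_one, mul_zero]
    rw [sum_ite_eq, if_pos (by rw [mem_range]; omega)]
  have u2 : ∀ p : ℕ, p ≤ e + 3 → ∑ m ∈ range (e + 3 + 1),
      hat (e + 3) b m * (if p = m then (1 : ℝ) else 0) = hat (e + 3) b p := by
    intro p hp
    simp only [mul_ite, mul_one, mul_zero]
    rw [sum_ite_eq, if_pos (by rw [mem_range]; omega)]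
  have w1 : ∑ m ∈ range (s + 1), hat s a m *
      full s ((radonVec s (e + 1) S).1 - (radonVec s (e + 1) S').1) m =
      hat s a (i + k) + hat s a (e + 2 - i + l) - hat s a (i + l) - hat s a (e + 2 - i + k) := by
    simp only [t1, mul_add, mul_sub, sum_add_distrib, sum_sub_distrib]
    rw [u1 _ (by omega), u1 _ (by omega), u1 _ (by omega), u1 _ (by omega)]
  have w2 : ∑ m ∈ range (e + 3 + 1), hat (e + 3) b m *
      full (e + 3) ((radonVec s (e + 1) S).2 - (radonVec s (e + 1) S').2) m =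
      ((l : ℝ) - k) * (hat (e + 3) b i + hat (e + 3) b (e + 3 - i) - hat (e + 3) b (i + 1) -
        hat (e + 3) b (e + 2 - i)) := by
    rw [← u2 i (by omega), ← u2 (e + 3 - i) (by omega), ← u2 (i + 1) (by omega),
      ← u2 (e + 2 - i) (by omega), ← sum_add_distrib, ← sum_sub_distrib, ← sum_sub_distrib,
      mul_sum]
    refine sum_congr rfl fun m _ => ?_
    rw [t2]
    ring
  rw [w1] at s1
  rw [w2] at s2
  have v1 : hat s a (e + 2 - i + l) = hat s a (i + k) := by
    rw [← hat_symm a (show i + k ≤ s by omega)]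
    congr 1; omega
  have v2 : hat s a (i + l) = hat s a (e + 2 - i + k) := by
    rw [← hat_symm a (show e + 2 - i + k ≤ s by omega)]
    congr 1; omega
  have v3 : hat (e + 3) b (e + 3 - i) = hat (e + 3) b i :=
    hat_symm b (by omega)
  have v4 : hat (e + 3) b (e + 2 - i) = hat (e + 3) b (i + 1) := by
    rw [← hat_symm b (show i + 1 ≤ e + 3 by omega)]
    congr 1; omega
  rw [v1, v2] at s1
  rw [v3, v4] at s2
  have hlr : (l : ℝ) = s - e - 2 - k := by
    rw [hl, Nat.cast_sub (by omega), Nat.cast_sub (by omega), Nat.cast_sub (by omega)]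
    push_cast; ring
  rw [hlr] at s2
  linarith

end Pool.Agent.L5helper36.Radon
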