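import Pool.Agent.L5helper36.Radon.Sep

/-! Identities for sign patterns: pairs, alternating sums. -/

set_option linter.unusedSectionVars false

namespace Pool.Agent.L5helper36.Radon

open Finset

variable {M : Type*} [AddCommGroup M] [Module ℝ M] {ι : Type*} [DecidableEq ι]

lemma tau_eq_one {φ : ι → M →ₗ[ℝ] ℝ} {U : Submodule ℝ M} {B T : Finset ι} :
    tau φ U B T = 1 ↔ Sep φ U B T := by
  unfold tau; split_ifs with h <;> simp [h]

lemma tau_eq_zero {φ : ι → M →ₗ[ℝ] ℝ} {U : Submodule ℝ M} {B T : Finset ι} :
    tau φ U B T = 0 ↔ ¬ Sep φ U B T := by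
  unfold tau; split_ifs with h <;> simp [h]

/-- at most `n` forms in general position take all sign patterns -/
theorem sep_of_card_le [FiniteDimensional ℝ M] {φ : ι → M →ₗ[ℝ] ℝ} (A : Finset ι) :
    ∀ (n : ℕ) (U : Submodule ℝ M), GP φ n U A → A.card ≤ n → ∀ T, Sep φ U A T := by
  induction A using Finset.induction_on with
  | empty => intro n U _ _ T; exact sep_empty
  | insert x A hx ih =>
    intro n U h hn T
    rw [card_insert_of_notMem hx] at hn
    cases n with
    | zero => omega
    | succ n =>
      have h1 := ih n _ (h.res hx) (by omega) T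
      rw [← sep_and hx (h.exists_ne (mem_insert_self x A))] at h1
      by_cases hT : x ∈ T
      · rw [insert_eq_of_mem hT] at h1; exact h1.1
      · rw [erase_eq_of_notMem hT] at h1; exact h1.2

lemma tau_of_card_le [FiniteDimensional ℝ M] {φ : ι → M →ₗ[ℝ] ℝ} {A B : Finset ι}
    {n : ℕ} {U : Submodule ℝ M} (h : GP φ n U A) (hB : B ⊆ A) (hn : B.card ≤ n) (T : Finset ι) :
    tau φ U B T = 1 :=
  tau_eq_one.mpr (sep_of_card_le B n U (h.mono hB) hn T)

/-! ### Pairs -/

/-- weight: `p` positive, `q` negative, both in `R` -/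
def wt (p q : ι) (R T : Finset ι) : ℤ := if p ∈ T ∧ q ∈ R \ T then 1 else 0

/-- sign patterns which occur, with `p` positive and `q` negative -/
noncomputable def pairS (φ : ι → M →ₗ[ℝ] ℝ) (U : Submodule ℝ M) (A : Finset ι) (p q : ι) : ℤ :=
  ∑ T ∈ A.powerset, tau φ U A T * wt p q A T

/-- circuits with `p` positive and `q` negative -/
noncomputable def pairC (φ : ι → M →ₗ[ℝ] ℝ) (n : ℕ) (U : Submodule ℝ M) (A : Finset ι)
    (p q : ι) : ℤ :=
  ∑ R ∈ A.powersetCard (n + 1), ∑ T ∈ R.powerset, (1 - tau φ U R T) * wt p q R T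

def cp : ℕ → ℕ → ℕ
  | 0, 0 => 0
  | 0, _ + 1 => 1
  | _ + 1, 0 => 0
  | b + 1, n + 1 => cp b (n + 1) + cp b n

lemma cp_eq : ∀ b n : ℕ, cp b n = ∑ k ∈ range n, b.choose k
  | 0, 0 => by simp [cp]
  | 0, n + 1 => by
    rw [cp, sum_range_succ']
    simp
  | b + 1, 0 => by simp [cp]
  | b + 1, n + 1 => by
    rw [cp, cp_eq b (n + 1), cp_eq b n, sum_range_succ' (fun k => (b + 1).choose k)]
    simp only [Nat.choose_succ_succ, sum_add_distrib, Nat.choose_zero_right]
    rw [sum_range_succ' (fun k => b.choose k)]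
    simp only [Nat.choose_zero_right]
    ring

lemma wt_insert {p q x : ι} (hp : p ≠ x) (hq : q ≠ x) {R T : Finset ι} :
    wt p q (insert x R) (insert x T) = wt p q R T ∧ wt p q (insert x R) T = wt p q R T := by
  constructor <;> simp [wt, hp, hq]

lemma pairS_insert {φ : ι → M →ₗ[ℝ] ℝ} {U : Submodule ℝ M} {A : Finset ι} {x p q : ι}
    (hxA : x ∉ A) (hx : ∃ g ∈ U, φ x g ≠ 0) (hp : p ≠ x) (hq : q ≠ x) :
    pairS φ U (insert x A) p q = pairS φ U A p q + pairS φ (res φ U x) A p q := by
  have h := sum_tau_insert hxA hx (fun T => wt p q (insert x A) T) (fun T _ => by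
    rw [(wt_insert hp hq).1, (wt_insert hp hq).2])
  simp only [(wt_insert hp hq).2] at h
  rw [pairS, pairS, pairS, ← h]
  exact sum_congr rfl fun T _ => by rw [(wt_insert hp hq).2]

lemma pairC_insert [FiniteDimensional ℝ M] {φ : ι → M →ₗ[ℝ] ℝ} {n : ℕ} {U : Submodule ℝ M}
    {A : Finset ι} {x p q : ι} (h : GP φ (n + 1) U (insert x A))
    (hxA : x ∉ A) (hp : p ≠ x) (hq : q ≠ x) :
    pairC φ (n + 1) U (insert x A) p q =
      pairC φ (n + 1) U A p q + pairC φ n (res φ U x) A p q := by
  have hx := h.exists_ne (mem_insert_self x A)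
  rw [pairC, pairC, pairC, powersetCard_succ_insert hxA, sum_union, sum_image]
  · congr 1
    refine sum_congr rfl fun R hR => ?_
    rw [mem_powersetCard] at hR
    have hxR : x ∉ R := fun h => hxA (hR.1 h)
    rw [sum_powerset_insert hxR, ← sum_add_distrib]
    refine sum_congr rfl fun T hT => ?_
    rw [mem_powerset] at hT
    have hxT : x ∉ T := fun h => hxR (hT h)
    rw [(wt_insert hp hq).1, (wt_insert hp hq).2, ← add_mul]
    congr 1
    have h1 := tau_ext (T := T) hxR hx
    rw [erase_eq_of_notMem hxT, tau_of_card_le h (hR.1.trans (subset_insert x A)) hR.2.le] at h1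
    linarith
  · intro R hR R' hR' hRR
    have h1 : x ∉ R := fun h => hxA ((mem_powersetCard.mp hR).1 h)
    have h2 : x ∉ R' := fun h => hxA ((mem_powersetCard.mp hR').1 h)
    have := congrArg (fun s => s.erase x) hRR
    simpa [erase_insert h1, erase_insert h2] using this
  · rw [disjoint_left]
    intro R hR hR'
    obtain ⟨R'', -, rfl⟩ := mem_image.mp hR'
    exact hxA ((mem_powersetCard.mp hR).1 (mem_insert_self _ _))

lemma sum_powerset_pair {p q : ι} (hpq : p ≠ q) (f : Finset ι → ℤ) :
    ∑ T ∈ ({p, q} : Finset ι).powerset, f T * wt p q {p, q} T = f {p} := by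
  rw [Finset.sum_eq_single {p}]
  · simp [wt, hpq.symm]
  · intro T hT hTp
    rw [mem_powerset] at hT
    have : wt p q {p, q} T = 0 := by
      unfold wt
      rw [if_neg]
      rintro ⟨h1, h2⟩
      apply hTp
      ext v
      constructor
      · intro hv
        rcases mem_insert.mp (hT hv) with h | h
        · simp [h]
        · rw [mem_singleton] at h
          subst h
          exact absurd hv (mem_sdiff.mp h2).2
      · intro hv
        rw [mem_singleton] at hv
        exact hv ▸ h1
    rw [this, mul_zero]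
  · intro h
    exact absurd (mem_powerset.mpr (by simp)) h

theorem pair_identity [FiniteDimensional ℝ M] {φ : ι → M →ₗ[ℝ] ℝ} {p q : ι} (hpq : p ≠ q)
    (B : Finset ι) (hpB : p ∉ B) (hqB : q ∉ B) :
    ∀ (n : ℕ) (U : Submodule ℝ M), GP φ n U (insert p (insert q B)) →
      pairS φ U (insert p (insert q B)) p q + pairC φ n U (insert p (insert q B)) p q =
        cp B.card n := by
  induction B using Finset.induction_on with
  | empty =>
    intro n U h
    have e : (insert p (insert q ∅) : Finset ι) = {p, q} := rfl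
    rw [e] at h ⊢
    have hS : pairS φ U {p, q} p q = tau φ U {p, q} {p} := sum_powerset_pair hpq _
    have hc : ({p, q} : Finset ι).card = 2 := card_pair hpq
    rw [hS]
    rcases n with _ | _ | n
    · have h1 : tau φ U {p, q} {p} = 0 := tau_eq_zero.mpr (not_sep_zero h (by simp))
      have h2 : pairC φ 0 U {p, q} p q = 0 := by
        refine sum_eq_zero fun R hR => sum_eq_zero fun T hT => ?_
        rw [mem_powersetCard, zero_add] at hR
        rw [mem_powerset] at hT
        have : wt p q R T = 0 := by
          unfold wt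
          rw [if_neg]
          rintro ⟨h1, h2⟩
          obtain ⟨a, ha⟩ := card_eq_one.mp hR.2
          have a1 := hT h1
          have a2 := (mem_sdiff.mp h2).1
          rw [ha, mem_singleton] at a1 a2
          exact hpq (a1.trans a2.symm)
        rw [this, mul_zero]
      rw [h1, h2]; simp [cp]
    · have h2 : pairC φ (0 + 1) U {p, q} p q = 1 - tau φ U {p, q} {p} := by
        unfold pairC
        have : ({p, q} : Finset ι).powersetCard (0 + 1 + 1) = {{p, q}} := by
          have := powersetCard_self ({p, q} : Finset ι)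
          rwa [hc] at this
        rw [this, sum_singleton]
        exact sum_powerset_pair hpq _
      rw [h2]; simp [cp]
    · have h1 : tau φ U {p, q} {p} = 1 := tau_of_card_le h (Subset.refl _) (by rw [hc]; omega) _
      have h2 : pairC φ (n + 1 + 1) U {p, q} p q = 0 := by
        unfold pairC
        rw [powersetCard_eq_empty.mpr (by rw [hc]; omega), sum_empty]
      rw [h1, h2]; simp [cp]
  | insert x B hx ih =>
    intro n U h
    have hpx : p ≠ x := fun h => hpB (h ▸ mem_insert_self _ _)
    have hqx : q ≠ x := fun h => hqB (h ▸ mem_insert_self _ _)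
    have e : insert p (insert q (insert x B)) = insert x (insert p (insert q B)) := by
      ext v; simp only [mem_insert]; tauto
    have hxA : x ∉ insert p (insert q B) := by
      simp only [mem_insert, not_or]
      exact ⟨hpx.symm, hqx.symm, hx⟩
    rw [e] at h ⊢
    rw [card_insert_of_notMem hx]
    have hpB' : p ∉ B := fun h => hpB (mem_insert_of_mem h)
    have hqB' : q ∉ B := fun h => hqB (mem_insert_of_mem h)
    cases n with
    | zero =>
      rw [cp]
      have h1 : pairS φ U (insert x (insert p (insert q B))) p q = 0 := by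
        refine sum_eq_zero fun T _ => ?_
        rw [tau_eq_zero.mpr (not_sep_zero h (insert_nonempty _ _)), zero_mul]
      have h2 : pairC φ 0 U (insert x (insert p (insert q B))) p q = 0 := by
        refine sum_eq_zero fun R hR => sum_eq_zero fun T hT => ?_
        rw [mem_powersetCard, zero_add] at hR
        rw [mem_powerset] at hT
        have : wt p q R T = 0 := by
          unfold wt
          rw [if_neg]
          rintro ⟨h1, h2⟩
          obtain ⟨a, ha⟩ := card_eq_one.mp hR.2
          have a1 := hT h1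
          have a2 := (mem_sdiff.mp h2).1
          rw [ha, mem_singleton] at a1 a2
          exact hpq (a1.trans a2.symm)
        rw [this, mul_zero]
      rw [h1, h2]; simp
    | succ n =>
      rw [cp, pairS_insert hxA (h.exists_ne (mem_insert_self x _)) hpx hqx,
        pairC_insert h hxA hpx hqx]
      have i1 := ih hpB' hqB' (n + 1) U (h.mono (subset_insert x _))
      have i2 := ih hpB' hqB' n (res φ U x) (h.res hxA)
      push_cast
      linarith

lemma sum_wt {A R T : Finset ι} (hT : T ⊆ R) (hR : R ⊆ A) :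
    ∑ p ∈ A, ∑ q ∈ A, wt p q R T = (T.card : ℤ) * (R.card - T.card : ℤ) := by
  have h1 : ∀ p q : ι, wt p q R T = (if p ∈ T then 1 else 0) * (if q ∈ R \ T then 1 else 0) := by
    intro p q
    unfold wt
    by_cases h1 : p ∈ T <;> by_cases h2 : q ∈ R \ T <;> simp [h1, h2]
  simp only [h1]
  rw [← sum_mul_sum]
  have e1 : A.filter (fun p => p ∈ T) = T := by
    ext v; simp only [mem_filter]; exact ⟨fun h => h.2, fun h => ⟨hR (hT h), h⟩⟩
  have e2 : A.filter (fun p => p ∈ R \ T) = R \ T := by
    ext v; simp only [mem_filter]; exact ⟨fun h => h.2, fun h => ⟨hR (mem_sdiff.mp h).1, h⟩⟩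
  rw [← sum_filter, ← sum_filter, e1, e2, sum_const, sum_const, card_sdiff_of_subset hT]
  have := card_le_card hT
  rw [nsmul_eq_mul, nsmul_eq_mul, Nat.cast_sub this]
  ring

/-- **The mixed identity** for sign patterns and circuits. -/
theorem mixed_identity [FiniteDimensional ℝ M] {φ : ι → M →ₗ[ℝ] ℝ} {A : Finset ι} {n : ℕ}
    {U : Submodule ℝ M} (h : GP φ n U A) :
    ∑ T ∈ A.powerset, tau φ U A T * ((T.card : ℤ) * (A.card - T.card : ℤ)) +
      ∑ R ∈ A.powersetCard (n + 1), ∑ T ∈ R.powerset, (1 - tau φ U R T) *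
        ((T.card : ℤ) * (R.card - T.card : ℤ)) =
      (A.card * (A.card - 1) : ℕ) * ∑ k ∈ range n, (((A.card - 2).choose k : ℕ) : ℤ) := by
  have h1 : ∀ p ∈ A, ∀ q ∈ A, p ≠ q → pairS φ U A p q + pairC φ n U A p q =
      ∑ k ∈ range n, (((A.card - 2).choose k : ℕ) : ℤ) := by
    intro p hp q hq hpq
    have e : insert p (insert q ((A.erase p).erase q)) = A := by
      rw [insert_erase, insert_erase hp]
      rw [mem_erase]; exact ⟨hpq.symm, hq⟩
    have hq' : q ∈ A.erase p := mem_erase.mpr ⟨hpq.symm, hq⟩
    have := pair_identity (φ := φ) hpq ((A.erase p).erase q) (by simp) (by simp) n U (by rwa [e])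
    rw [e, cp_eq, card_erase_of_mem hq', card_erase_of_mem hp] at this
    rw [this]
    push_cast
    rfl
  have h2 : ∀ p, pairS φ U A p p + pairC φ n U A p p = 0 := by
    intro p
    have : ∀ R T, wt p p R T = 0 := by
      intro R T; unfold wt; rw [if_neg]; rintro ⟨a, b⟩; exact (mem_sdiff.mp b).2 a
    simp [pairS, pairC, this]
  have h3 : ∑ p ∈ A, ∑ q ∈ A, (pairS φ U A p q + pairC φ n U A p q) =
      (A.card * (A.card - 1) : ℕ) * ∑ k ∈ range n, (((A.card - 2).choose k : ℕ) : ℤ) := by
    have : ∀ p ∈ A, ∑ q ∈ A, (pairS φ U A p q + pairC φ n U A p q) =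
        (A.card - 1 : ℕ) * ∑ k ∈ range n, (((A.card - 2).choose k : ℕ) : ℤ) := by
      intro p hp
      rw [← add_sum_erase _ _ hp, h2, zero_add, sum_congr rfl (fun q hq =>
        h1 p hp q (mem_of_mem_erase hq) (ne_of_mem_erase hq).symm), sum_const, card_erase_of_mem hp]
      simp
    rw [sum_congr rfl this, sum_const, nsmul_eq_mul]
    push_cast
    ring
  rw [← h3]
  simp only [sum_add_distrib]
  congr 1
  · simp only [pairS]
    rw [sum_congr rfl (fun p _ => sum_comm), sum_comm]
    refine sum_congr rfl fun T hT => ?_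
    simp only [← mul_sum]
    rw [sum_wt (mem_powerset.mp hT) (Subset.refl A)]
  · simp only [pairC]
    rw [sum_congr rfl (fun p _ => sum_comm), sum_comm]
    refine sum_congr rfl fun R hR => ?_
    rw [sum_congr rfl (fun p _ => sum_comm), sum_comm]
    refine sum_congr rfl fun T hT => ?_
    simp only [← mul_sum]
    rw [sum_wt (mem_powerset.mp hT) (mem_powersetCard.mp hR).1]

/-! ### The alternating sum over subsets -/

/-- alternating sum over the subsets of `A` -/
noncomputable def alt (φ : ι → M →ₗ[ℝ] ℝ) (U : Submodule ℝ M) (A T : Finset ι) : ℤ :=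
  ∑ B ∈ A.powerset, (-1) ^ B.card * tau φ U B T

lemma alt_insert {φ : ι → M →ₗ[ℝ] ℝ} {U : Submodule ℝ M} {A T : Finset ι} {x : ι}
    (hxA : x ∉ A) (hx : ∃ g ∈ U, φ x g ≠ 0) :
    alt φ U (insert x A) (insert x T) + alt φ U (insert x A) (T.erase x) =
      alt φ U A T - alt φ (res φ U x) A T := by
  simp only [alt]
  rw [sum_powerset_insert hxA, sum_powerset_insert hxA]
  have h1 : ∀ B ∈ A.powerset, (-1 : ℤ) ^ B.card * tau φ U B (insert x T) =
      (-1) ^ B.card * tau φ U B T := fun B hB => by
    rw [tau_congr (T := insert x T) (T' := T)]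
    intro v hv
    have : v ≠ x := fun h => hxA (h ▸ (mem_powerset.mp hB) hv)
    simp [this]
  have h2 : ∀ B ∈ A.powerset, (-1 : ℤ) ^ B.card * tau φ U B (T.erase x) =
      (-1) ^ B.card * tau φ U B T := fun B hB => by
    rw [tau_congr (T := T.erase x) (T' := T)]
    intro v hv
    have : v ≠ x := fun h => hxA (h ▸ (mem_powerset.mp hB) hv)
    simp [this]
  rw [sum_congr rfl h1, sum_congr rfl h2]
  have h3 : ∑ B ∈ A.powerset, (-1 : ℤ) ^ (insert x B).card * tau φ U (insert x B) (insert x T) +
      ∑ B ∈ A.powerset, (-1 : ℤ) ^ (insert x B).card * tau φ U (insert x B) (T.erase x) =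
      - ∑ B ∈ A.powerset, (-1 : ℤ) ^ B.card * tau φ U B T -
        ∑ B ∈ A.powerset, (-1 : ℤ) ^ B.card * tau φ (res φ U x) B T := by
    rw [← sum_add_distrib, ← sum_neg_distrib, ← sum_sub_distrib]
    refine sum_congr rfl fun B hB => ?_
    have hxB : x ∉ B := fun h => hxA ((mem_powerset.mp hB) h)
    rw [← mul_add, tau_ext hxB hx, card_insert_of_notMem hxB, pow_succ]
    ring
  linarith

lemma alt_of_sep {φ : ι → M →ₗ[ℝ] ℝ} {U : Submodule ℝ M} {A T : Finset ι}
    (h : Sep φ U A T) (hA : A.Nonempty) : alt φ U A T = 0 := by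
  unfold alt
  rw [sum_congr rfl (g := fun B => (-1 : ℤ) ^ B.card) (fun B hB => by
    rw [tau_eq_one.mpr (h.mono (mem_powerset.mp hB)), mul_one])]
  exact sum_powerset_neg_one_pow_card_of_nonempty hA

/-- **Euler type identity** (Cowan). -/
theorem alt_eq [FiniteDimensional ℝ M] {φ : ι → M →ₗ[ℝ] ℝ} : ∀ (a : ℕ) (A : Finset ι),
    A.card = a + 1 → ∀ (n : ℕ) (U : Submodule ℝ M), GP φ n U A → ∀ T,
      alt φ U A T = (-1) ^ n * (1 - tau φ U A T) := by
  intro a
  induction a with
  | zero =>
    intro A hA n U h T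
    obtain ⟨x, rfl⟩ := card_eq_one.mp hA
    have h1 : alt φ U {x} T = 1 - tau φ U {x} T := by
      unfold alt
      rw [← insert_empty_eq, sum_powerset_insert (notMem_empty x)]
      simp only [powerset_empty, sum_singleton, card_empty, pow_zero, one_mul, insert_empty_eq,
        card_singleton, pow_one]
      rw [tau_eq_one.mpr sep_empty]; ring
    rw [h1]
    cases n with
    | zero => simp
    | succ n => rw [tau_of_card_le h (Subset.refl _) (by simp)]; simp
  | succ a ih =>
    intro A hA n U h T
    have hAne : A.Nonempty := card_pos.mp (by omega)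
    cases n with
    | zero =>
      rw [tau_eq_zero.mpr (not_sep_zero h hAne)]
      unfold alt
      rw [Finset.sum_eq_single ∅]
      · rw [tau_eq_one.mpr sep_empty]; simp
      · intro B hB hB0
        rw [tau_eq_zero.mpr (not_sep_zero h (nonempty_iff_ne_empty.mpr hB0)), mul_zero]
      · intro h; exact absurd (empty_mem_powerset A) h
    | succ n =>
      -- the flip
      have flip : ∀ x ∈ A, ∀ T, (alt φ U A (insert x T) - (-1) ^ (n + 1) *
          (1 - tau φ U A (insert x T))) = - (alt φ U A (T.erase x) - (-1) ^ (n + 1) *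
          (1 - tau φ U A (T.erase x))) := by
        intro x hx T
        have hx' : x ∉ A.erase x := notMem_erase x A
        have e : insert x (A.erase x) = A := insert_erase hx
        have hne := h.exists_ne hx
        have h1 := alt_insert (T := T) hx' hne
        have h2 := tau_ext (T := T) hx' hne
        rw [e] at h1 h2
        have hc : (A.erase x).card = a + 1 := by rw [card_erase_of_mem hx, hA]; rfl
        rw [ih (A.erase x) hc (n + 1) U (h.mono (erase_subset x A)) T,
          ih (A.erase x) hc n (res φ U x) (GP.res (by rwa [e]) hx') T] at h1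
        have h3 : (-1 : ℤ) ^ (n + 1) = -(-1) ^ n := by rw [pow_succ]; ring
        rw [h3] at h1 ⊢
        have h4 : alt φ U A (insert x T) + alt φ U A (T.erase x) = -(-1 : ℤ) ^ n *
            (2 - (tau φ U (A.erase x) T + tau φ (res φ U x) (A.erase x) T)) := by
          rw [h1]; ring
        rw [← h2] at h4
        linarith
      obtain ⟨T0, hT0⟩ : ∃ T0, Sep φ U A T0 := by
        by_contra hno
        push Not at hno
        have h1 := sum_tau A (n + 1) U h
        rw [sum_eq_zero (fun T _ => tau_eq_zero.mpr (hno T)), hA, cnt_eq] at h1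
        have h2 : 0 < ∑ k ∈ range (n + 1), (a + 1).choose k :=
          sum_pos' (fun _ _ => Nat.zero_le _) ⟨0, by simp, by simp⟩
        have h3 : (2 * ∑ k ∈ range (n + 1), (a + 1).choose k : ℕ) = 0 := by exact_mod_cast h1.symm
        omega
      have main : ∀ D ⊆ A, alt φ U A ((T0 \ D) ∪ (T ∩ D)) = (-1) ^ (n + 1) *
          (1 - tau φ U A ((T0 \ D) ∪ (T ∩ D))) := by
        intro D
        induction D using Finset.induction_on with
        | empty =>
          intro _
          have : (T0 \ ∅) ∪ (T ∩ ∅) = T0 := by simp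
          rw [this, alt_of_sep hT0 hAne, tau_eq_one.mpr hT0]; simp
        | insert x D hxD ihD =>
          intro hD
          have hxA : x ∈ A := hD (mem_insert_self _ _)
          have i1 := ihD (fun v hv => hD (mem_insert_of_mem hv))
          set S := (T0 \ D) ∪ (T ∩ D) with hS
          have i2 : ∀ T', (T' = insert x S ∨ T' = S.erase x) →
              alt φ U A T' = (-1) ^ (n + 1) * (1 - tau φ U A T') := by
            have f := flip x hxA S
            by_cases hxS : x ∈ S
            · have e1 : insert x S = S := insert_eq_of_mem hxS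
              rw [e1, i1, sub_self] at f
              rintro T' (rfl | rfl)
              · rw [e1]; exact i1
              · linarith
            · have e1 : S.erase x = S := erase_eq_of_notMem hxS
              rw [e1, i1, sub_self] at f
              rintro T' (rfl | rfl)
              · linarith
              · rw [e1]; exact i1
          apply i2
          by_cases hxT : x ∈ T
          · left
            ext v
            simp only [hS, mem_union, mem_sdiff, mem_insert, mem_inter]
            by_cases hv : v = x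
            · subst hv; simp [hxT]
            · simp [hv]
          · right
            ext v
            simp only [hS, mem_union, mem_sdiff, mem_insert, mem_inter, mem_erase]
            by_cases hv : v = x
            · subst hv; simp [hxT]
            · simp [hv]
      have m := main A (Subset.refl A)
      have hcong : ∀ v ∈ A, v ∈ (T0 \ A) ∪ (T ∩ A) ↔ v ∈ T := by
        intro v hv; simp [hv]
      rw [tau_congr hcong] at m
      rw [← m]
      unfold alt
      refine sum_congr rfl fun B hB => ?_
      rw [tau_congr (T := (T0 \ A) ∪ (T ∩ A)) (T' := T)]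
      intro v hv
      exact hcong v ((mem_powerset.mp hB) hv)

/-- the signed sum over the occurring sign patterns vanishes if `|A| ≡ n (mod 2)` -/
theorem signed_sum [FiniteDimensional ℝ M] {φ : ι → M →ₗ[ℝ] ℝ} {A : Finset ι} (hA : A.Nonempty)
    {n : ℕ} {U : Submodule ℝ M} (h : GP φ n U A) (hpar : Even (A.card + n)) :
    ∑ T ∈ A.powerset, (-1) ^ T.card * tau φ U A T = 0 := by
  obtain ⟨a, ha⟩ : ∃ a, A.card = a + 1 := ⟨A.card - 1, by have := card_pos.mpr hA; omega⟩
  have h1 : ∑ T ∈ A.powerset, (-1 : ℤ) ^ T.card * alt φ U A T =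
      ∑ T ∈ A.powerset, (-1 : ℤ) ^ T.card * ((-1) ^ n * (1 - tau φ U A T)) :=
    sum_congr rfl fun T _ => by rw [alt_eq a A ha n U h T]
  have h2 : ∑ T ∈ A.powerset, (-1 : ℤ) ^ T.card * alt φ U A T =
      (-1) ^ A.card * ∑ T ∈ A.powerset, (-1) ^ T.card * tau φ U A T := by
    simp only [alt, mul_sum]
    rw [sum_comm, Finset.sum_eq_single A]
    · exact sum_congr rfl fun T _ => by ring
    · intro B hB hBA
      rw [mem_powerset] at hB
      obtain ⟨y, hyA, hyB⟩ : ∃ y ∈ A, y ∉ B := by
        by_contra hno
        push Not at hno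
        exact hBA (Subset.antisymm hB hno)
      rw [← insert_erase hyA, sum_powerset_insert (notMem_erase y A), ← sum_add_distrib]
      refine sum_eq_zero fun T hT => ?_
      have hyT : y ∉ T := fun h => notMem_erase y A ((mem_powerset.mp hT) h)
      have e : tau φ U B (insert y T) = tau φ U B T := tau_congr fun v hv => by
        have : v ≠ y := fun h => hyB (h ▸ hv)
        simp [this]
      rw [e, card_insert_of_notMem hyT, pow_succ]
      ring
    · intro h; exact absurd (mem_powerset.mpr (Subset.refl A)) h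
  have h3 : ∑ T ∈ A.powerset, (-1 : ℤ) ^ T.card * ((-1) ^ n * (1 - tau φ U A T)) =
      -(-1) ^ n * ∑ T ∈ A.powerset, (-1) ^ T.card * tau φ U A T := by
    have h4 := sum_powerset_neg_one_pow_card_of_nonempty hA
    have : ∀ T ∈ A.powerset, (-1 : ℤ) ^ T.card * ((-1) ^ n * (1 - tau φ U A T)) =
        (-1) ^ n * (-1) ^ T.card - (-1) ^ n * ((-1) ^ T.card * tau φ U A T) := fun T _ => by ring
    rw [sum_congr rfl this, sum_sub_distrib, ← mul_sum, ← mul_sum, h4]
    ring
  rw [h2, h3] at h1
  have h5 : (-1 : ℤ) ^ A.card = (-1) ^ n := by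
    have h6 : (-1 : ℤ) ^ (A.card + n) = 1 := hpar.neg_one_pow
    rw [pow_add] at h6
    have h7 : (-1 : ℤ) ^ n * (-1) ^ n = 1 := by rw [← pow_add]; exact (Even.add_self n).neg_one_pow
    calc (-1 : ℤ) ^ A.card = (-1) ^ A.card * ((-1) ^ n * (-1) ^ n) := by rw [h7, mul_one]
      _ = (-1) ^ n := by rw [← mul_assoc, h6, one_mul]
  rw [h5] at h1
  have h8 : (-1 : ℤ) ^ n ≠ 0 := pow_ne_zero _ (by norm_num)
  have h9 : 2 * ((-1 : ℤ) ^ n * ∑ T ∈ A.powerset, (-1) ^ T.card * tau φ U A T) = 0 := by linarith
  rcases mul_eq_zero.mp h9 with h | h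
  · norm_num at h
  · exact (mul_eq_zero.mp h).resolve_left h8

/-- with `n + 2` forms each pattern which does not occur contains exactly two circuits -/
theorem two_circuits [FiniteDimensional ℝ M] {φ : ι → M →ₗ[ℝ] ℝ} {A : Finset ι}
    {n : ℕ} {U : Submodule ℝ M} (h : GP φ n U A) (hA : A.card = n + 2) (T : Finset ι)  :
    ∑ B ∈ A.powersetCard (n + 1), (1 - tau φ U B T) = 2 * (1 - tau φ U A T) := by
  have h1 := alt_eq (n + 1) A (by omega) n U h T
  by_cases hT : Sep φ U A T
  · rw [tau_eq_one.mpr hT]
    rw [sum_eq_zero fun B hB => by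
      rw [tau_eq_one.mpr (hT.mono (mem_powersetCard.mp hB).1), sub_self]]
    simp
  · rw [tau_eq_zero.mpr hT] at h1 ⊢
    have hAne : A.Nonempty := card_pos.mp (by omega)
    have h2 : ∑ B ∈ A.powerset, (-1 : ℤ) ^ B.card * (1 - tau φ U B T) = -(-1) ^ n := by
      have h4 := sum_powerset_neg_one_pow_card_of_nonempty hAne
      have : ∀ B ∈ A.powerset, (-1 : ℤ) ^ B.card * (1 - tau φ U B T) =
        (-1) ^ B.card - (-1) ^ B.card * tau φ U B T := fun B _ => by ring
      rw [sum_congr rfl this, sum_sub_distrib, h4]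
      unfold alt at h1
      rw [h1]; ring
    rw [sum_powerset, hA, sum_range_succ, sum_range_succ, sum_eq_zero] at h2
    · have h3 : ∑ B ∈ A.powersetCard (n + 2), (-1 : ℤ) ^ B.card * (1 - tau φ U B T) =
          (-1) ^ (n + 2) := by
        rw [← hA, powersetCard_self, sum_singleton, tau_eq_zero.mpr hT]; simp
      have h4 : ∑ B ∈ A.powersetCard (n + 1), (-1 : ℤ) ^ B.card * (1 - tau φ U B T) =
          (-1) ^ (n + 1) * ∑ B ∈ A.powersetCard (n + 1), (1 - tau φ U B T) := by
        rw [mul_sum]
        exact sum_congr rfl fun B hB => by rw [(mem_powersetCard.mp hB).2]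
      rw [h3, h4, zero_add, pow_succ, pow_add] at h2
      have h8 : (-1 : ℤ) ^ n ≠ 0 := pow_ne_zero _ (by norm_num)
      have h9 : (-1 : ℤ) ^ n * (2 - ∑ B ∈ A.powersetCard (n + 1), (1 - tau φ U B T)) = 0 := by
        linarith
      have := (mul_eq_zero.mp h9).resolve_left h8
      linarith
    · intro j hj
      refine sum_eq_zero fun B hB => ?_
      rw [mem_powersetCard] at hB
      rw [mem_range] at hj
      rw [tau_of_card_le h hB.1 (by omega), sub_self, mul_zero]

/-- exactly two patterns do not occur on `n + 1` forms -/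
theorem sum_circuit [FiniteDimensional ℝ M] {φ : ι → M →ₗ[ℝ] ℝ} {R : Finset ι}
    {n : ℕ} {U : Submodule ℝ M} (h : GP φ n U R) (hR : R.card = n + 1) :
    ∑ T ∈ R.powerset, (1 - tau φ U R T) = 2 := by
  rw [sum_sub_distrib, sum_tau R n U h, sum_const, card_powerset, hR, cnt_eq]
  have h1 := Nat.sum_range_choose n
  rw [sum_range_succ, Nat.choose_self] at h1
  have h2 : ((∑ k ∈ range n, n.choose k : ℕ) : ℤ) + 1 = 2 ^ n := by exact_mod_cast h1
  push_cast at h2 ⊢
  rw [nsmul_eq_mul, pow_succ]
  push_cast
  linarith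

end Pool.Agent.L5helper36.Radon
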