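import Pool.Agent.L5helper36.Radon.Ident

/-! Mutations: moving one form through a degenerate position. -/

set_option linter.unusedSectionVars false

namespace Pool.Agent.L5helper36.Radon

open Finset Filter Topology

variable {M : Type*} [AddCommGroup M] [Module ℝ M] {ι : Type*} [DecidableEq ι]

/-- general position except for the `n` forms in `R0` -/
structure GPx (φ : ι → M →ₗ[ℝ] ℝ) (n : ℕ) (Y R0 : Finset ι) : Prop where
  rank : Module.finrank ℝ M = n
  sub : R0 ⊆ Y
  card : R0.card = n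
  gen : ∀ Z ⊆ Y, Z.card < n → ∀ x ∈ Y, x ∉ Z → insert x Z ≠ R0 →
    ∃ f : M, (∀ z ∈ Z, φ z f = 0) ∧ φ x f ≠ 0

/-- the data of a mutation -/
structure Mut (φ : ι → M →ₗ[ℝ] ℝ) (n : ℕ) (Y R0 A : Finset ι) (x0 : ι) (h : M)
    (ψ : M →ₗ[ℝ] ℝ) (c : ι → ℝ) : Prop extends GPx φ n Y R0 where
  x0_mem : x0 ∈ A
  A_sub : A ⊆ R0
  hR : ∀ v ∈ R0, φ v h = 0
  hY : ∀ v ∈ Y, v ∉ R0 → φ v h ≠ 0
  psi_h : 0 < ψ h
  dep : ∀ f, φ x0 f = ∑ v ∈ R0.erase x0, c v * φ v f
  cneg : ∀ v ∈ A, v ≠ x0 → c v < 0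
  cpos : ∀ v ∈ R0, v ∉ A → 0 < c v
  other : ∃ v ∈ Y, v ∉ R0

/-- the form with index `x0` is moved -/
noncomputable def shift (φ : ι → M →ₗ[ℝ] ℝ) (x0 : ι) (ψ : M →ₗ[ℝ] ℝ) (t : ℝ) : ι → M →ₗ[ℝ] ℝ :=
  Function.update φ x0 (φ x0 + t • ψ)

lemma shift_self (φ : ι → M →ₗ[ℝ] ℝ) (x0 : ι) (ψ : M →ₗ[ℝ] ℝ) (t : ℝ) (f : M) :
    shift φ x0 ψ t x0 f = φ x0 f + t * ψ f := by
  simp [shift]

lemma shift_ne (φ : ι → M →ₗ[ℝ] ℝ) {x0 v : ι} (hv : v ≠ x0) (ψ : M →ₗ[ℝ] ℝ) (t : ℝ) (f : M) :
    shift φ x0 ψ t v f = φ v f := by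
  simp [shift, hv]

lemma shift_apply (φ : ι → M →ₗ[ℝ] ℝ) (x0 v : ι) (ψ : M →ₗ[ℝ] ℝ) (t : ℝ) (f : M) :
    shift φ x0 ψ t v f = φ v f + t * (if v = x0 then ψ f else 0) := by
  by_cases hv : v = x0
  · subst hv; rw [shift_self, if_pos rfl]
  · rw [shift_ne φ hv, if_neg hv]; ring

lemma cont_shift (φ : ι → M →ₗ[ℝ] ℝ) (x0 v : ι) (ψ : M →ₗ[ℝ] ℝ) (f : M) :
    Tendsto (fun t : ℝ => shift φ x0 ψ t v f) (𝓝 0) (𝓝 (φ v f)) := by
  simp only [shift_apply]
  have : Tendsto (fun t : ℝ => φ v f + t * (if v = x0 then ψ f else 0)) (𝓝 0)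
      (𝓝 (φ v f + 0 * (if v = x0 then ψ f else 0))) := by
    apply Continuous.tendsto
    fun_prop
  simpa using this

lemma eventually_sep {φ : ι → M →ₗ[ℝ] ℝ} {B T : Finset ι} (x0 : ι) (ψ : M →ₗ[ℝ] ℝ)
    (h : Sep φ ⊤ B T) : ∀ᶠ t : ℝ in 𝓝 0, Sep (shift φ x0 ψ t) ⊤ B T := by
  obtain ⟨f, hf, h1, h2⟩ := h
  have key : ∀ᶠ t : ℝ in 𝓝 0, ∀ v ∈ B, (v ∈ T → 0 < shift φ x0 ψ t v f) ∧
      (v ∉ T → shift φ x0 ψ t v f < 0) := by
    rw [Finset.eventually_all]
    intro v hv
    have hc := cont_shift φ x0 v ψ f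
    by_cases hT : v ∈ T
    · filter_upwards [hc.eventually (lt_mem_nhds (h1 v hv hT))] with t ht
      exact ⟨fun _ => ht, fun h => absurd hT h⟩
    · filter_upwards [hc.eventually (gt_mem_nhds (h2 v hv hT))] with t ht
      exact ⟨fun h => absurd h hT, fun _ => ht⟩
  filter_upwards [key] with t ht
  exact ⟨f, hf, fun v hv => (ht v hv).1, fun v hv => (ht v hv).2⟩

variable {φ : ι → M →ₗ[ℝ] ℝ} {n : ℕ} {Y R0 A : Finset ι} {x0 : ι} {h : M} {ψ : M →ₗ[ℝ] ℝ}
  {c : ι → ℝ}

lemma Mut.x0R (H : Mut φ n Y R0 A x0 h ψ c) : x0 ∈ R0 := H.A_sub H.x0_mem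
lemma Mut.x0Y (H : Mut φ n Y R0 A x0 h ψ c) : x0 ∈ Y := H.sub H.x0R

lemma Mut.eventually_gp (H : Mut φ n Y R0 A x0 h ψ c) :
    ∀ᶠ t : ℝ in 𝓝[≠] 0, GP (shift φ x0 ψ t) n ⊤ Y := by
  have key : ∀ᶠ t : ℝ in 𝓝[≠] 0, ∀ Z ∈ Y.powerset, ∀ x ∈ Y, (Z.card < n → x ∉ Z →
      ∃ f : M, (∀ z ∈ Z, shift φ x0 ψ t z f = 0) ∧ shift φ x0 ψ t x f ≠ 0) := by
    rw [Finset.eventually_all]
    intro Z hZ
    rw [Finset.eventually_all]
    intro x hx
    rw [mem_powerset] at hZ
    by_cases hZn : Z.card < n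
    swap
    · exact Eventually.of_forall fun t h => absurd h hZn
    by_cases hxZ : x ∈ Z
    · exact Eventually.of_forall fun t _ h => absurd hxZ h
    have ht0 : ∀ᶠ t : ℝ in 𝓝[≠] (0 : ℝ), t ≠ 0 := eventually_mem_nhdsWithin
    by_cases hx0 : x0 ∈ Z
    · -- `g`
      have hxx0 : x ≠ x0 := fun h => hxZ (h ▸ hx0)
      obtain ⟨g, hg1, hg2⟩ := H.gen (Z.erase x0) ((erase_subset _ _).trans hZ)
        ((card_le_card (erase_subset _ _)).trans_lt hZn) x0 H.x0Y (notMem_erase _ _) (by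
          rw [insert_erase hx0]
          intro h
          rw [h, H.card] at hZn
          omega)
      by_cases hR : insert x Z = R0
      · have hgx : φ x g ≠ 0 := by
          intro h0
          apply hg2
          rw [H.dep]
          refine sum_eq_zero fun v hv => ?_
          rw [← hR, mem_erase, mem_insert] at hv
          rcases hv with ⟨h1, rfl | h2⟩
          · rw [h0, mul_zero]
          · rw [hg1 v (mem_erase.mpr ⟨h1, h2⟩), mul_zero]
        filter_upwards [ht0] with t ht _ _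
        refine ⟨(t * ψ h) • g - (φ x0 g + t * ψ g) • h, fun z hz => ?_, ?_⟩
        · by_cases hzx : z = x0
          · subst hzx
            rw [map_sub, map_smul, map_smul, shift_self, shift_self, H.hR _ H.x0R]
            simp only [smul_eq_mul]
            ring
          · rw [map_sub, map_smul, map_smul, shift_ne φ hzx, shift_ne φ hzx,
              hg1 z (mem_erase.mpr ⟨hzx, hz⟩), H.hR z (hR ▸ mem_insert_of_mem hz)]
            simp
        · rw [map_sub, map_smul, map_smul, shift_ne φ hxx0, shift_ne φ hxx0,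
            H.hR x (hR ▸ mem_insert_self _ _)]
          simp only [smul_eq_mul, mul_zero, sub_zero]
          exact mul_ne_zero (mul_ne_zero ht H.psi_h.ne') hgx
      · obtain ⟨f, hf1, hf2⟩ := H.gen Z hZ hZn x hx hxZ hR
        have hlim : Tendsto (fun t : ℝ => (φ x0 g + t * ψ g) * φ x f - (t * ψ f) * φ x g) (𝓝 0)
            (𝓝 (φ x0 g * φ x f)) := by
          have : Tendsto (fun t : ℝ => (φ x0 g + t * ψ g) * φ x f - (t * ψ f) * φ x g) (𝓝 0)
            (𝓝 ((φ x0 g + 0 * ψ g) * φ x f - (0 * ψ f) * φ x g)) := by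
            apply Continuous.tendsto
            fun_prop
          simpa using this
        have h1 : ∀ᶠ t : ℝ in 𝓝 0, (φ x0 g + t * ψ g) * φ x f - (t * ψ f) * φ x g ≠ 0 :=
          hlim.eventually_ne (mul_ne_zero hg2 hf2)
        filter_upwards [h1.filter_mono nhdsWithin_le_nhds] with t ht _ _
        refine ⟨(φ x0 g + t * ψ g) • f - (t * ψ f) • g, fun z hz => ?_, ?_⟩
        · by_cases hzx : z = x0
          · subst hzx
            rw [map_sub, map_smul, map_smul, shift_self, shift_self, hf1 z hz]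
            simp only [smul_eq_mul]
            ring
          · rw [map_sub, map_smul, map_smul, shift_ne φ hzx, shift_ne φ hzx,
              hg1 z (mem_erase.mpr ⟨hzx, hz⟩), hf1 z hz]
            simp
        · rw [map_sub, map_smul, map_smul, shift_ne φ hxx0, shift_ne φ hxx0]
          simpa using ht
    · by_cases hR : insert x Z = R0
      · have hxx : x = x0 := by
          have := H.x0R
          rw [← hR, mem_insert] at this
          exact (this.resolve_right hx0).symm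
        subst hxx
        filter_upwards [ht0] with t ht _ _
        refine ⟨h, fun z hz => ?_, ?_⟩
        · rw [shift_ne φ (x0 := x) (v := z) (fun h => hx0 (h ▸ hz)), H.hR z (hR ▸ mem_insert_of_mem hz)]
        · rw [shift_self, H.hR x H.x0R, zero_add]
          exact mul_ne_zero ht H.psi_h.ne'
      · obtain ⟨f, hf1, hf2⟩ := H.gen Z hZ hZn x hx hxZ hR
        have h1 := (cont_shift φ x0 x ψ f).eventually_ne hf2
        filter_upwards [h1.filter_mono nhdsWithin_le_nhds] with t ht _ _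
        exact ⟨f, fun z hz => by
          rw [shift_ne φ (x0 := x0) (v := z) (fun h => hx0 (h ▸ hz)), hf1 z hz], ht⟩
  filter_upwards [key] with t ht
  refine ⟨by rw [finrank_top]; exact H.rank, fun Z hZ hn x hx hxZ => ?_⟩
  obtain ⟨f, h1, h2⟩ := ht Z (mem_powerset.mpr hZ) x hx hn hxZ
  exact ⟨f, Submodule.mem_top, h1, h2⟩

/-- at `t = 0` the patterns `A` and `R0 \ A` do not occur on `R0` -/
lemma Mut.not_sep (H : Mut φ n Y R0 A x0 h ψ c) {B T : Finset ι} (hB : R0 ⊆ B)
    (hT : ∀ v ∈ R0, v ∈ T ↔ v ∈ A) : ¬ Sep φ ⊤ B T := by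
  rintro ⟨f, -, h1, h2⟩
  have a1 : 0 < φ x0 f := h1 x0 (hB H.x0R) ((hT x0 H.x0R).mpr H.x0_mem)
  have a2 : ∑ v ∈ R0.erase x0, c v * φ v f ≤ 0 := by
    refine sum_nonpos fun v hv => ?_
    obtain ⟨hv1, hv2⟩ := mem_erase.mp hv
    by_cases hA : v ∈ A
    · exact (mul_neg_of_neg_of_pos (H.cneg v hA hv1) (h1 v (hB hv2) ((hT v hv2).mpr hA))).le
    · exact (mul_neg_of_pos_of_neg (H.cpos v hv2 hA)
        (h2 v (hB hv2) (fun h => hA ((hT v hv2).mp h)))).le
  rw [H.dep] at a1
  linarith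

lemma Mut.not_sep' (H : Mut φ n Y R0 A x0 h ψ c) {B T : Finset ι} (hB : R0 ⊆ B)
    (hT : ∀ v ∈ R0, v ∈ T ↔ v ∉ A) : ¬ Sep φ ⊤ B T := by
  rw [← sep_sdiff]
  apply H.not_sep hB
  intro v hv
  rw [Finset.mem_sdiff, hT v hv, not_not]
  exact ⟨fun h => h.2, fun h => ⟨hB hv, h⟩⟩

/-- the new pattern; `σ = 1` for `t > 0`, `σ = -1` for `t < 0` -/
lemma Mut.new_sep [FiniteDimensional ℝ M] (H : Mut φ n Y R0 A x0 h ψ c) {t σ : ℝ}
    (hσ : 0 < σ * t) (hσ0 : σ ≠ 0) {T : Finset ι}
    (hT0 : ∀ v ∈ R0, v ∈ T ↔ v ∈ A) (hT1 : ∀ v ∈ Y, v ∉ R0 → (v ∈ T ↔ 0 < σ * φ v h)) :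
    Sep (shift φ x0 ψ t) ⊤ Y T := by
  -- a functional with the right signs on `R0 \ {x0}`
  have hsub : R0.erase x0 ⊆ Y := (erase_subset _ _).trans H.sub
  have hgp : GP φ n ⊤ (R0.erase x0) := by
    refine ⟨by rw [finrank_top]; exact H.rank, fun Z hZ hn x hx hxZ => ?_⟩
    obtain ⟨f, h1, h2⟩ := H.gen Z (hZ.trans hsub) hn x (hsub hx) hxZ (by
      intro h
      have := H.x0R
      rw [← h, mem_insert] at this
      rcases this with h | h
      · exact notMem_erase x0 R0 (h ▸ hx)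
      · exact notMem_erase x0 R0 (hZ h))
    exact ⟨f, Submodule.mem_top, h1, h2⟩
  obtain ⟨g, -, hg1, hg2⟩ := sep_of_card_le (R0.erase x0) n ⊤ hgp (by
    rw [card_erase_of_mem H.x0R, H.card]; omega) A
  -- a large multiple of `h`
  have key : ∀ᶠ m : ℝ in atTop, ∀ v ∈ Y, (v ∈ T → 0 < shift φ x0 ψ t v (g + (m * σ) • h)) ∧
      (v ∉ T → shift φ x0 ψ t v (g + (m * σ) • h) < 0) := by
    rw [Finset.eventually_all]
    intro v hv
    by_cases hvR : v ∈ R0
    · by_cases hvx : v = x0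
      · subst hvx
        have hm : ∀ᶠ m : ℝ in atTop, 0 < (φ v g + t * ψ g) + m * (σ * t * ψ h) := by
          have : Tendsto (fun m : ℝ => (φ v g + t * ψ g) + m * (σ * t * ψ h)) atTop atTop :=
            tendsto_atTop_add_const_left _ _
              (tendsto_id.atTop_mul_const (mul_pos hσ H.psi_h))
          exact this.eventually_gt_atTop 0
        filter_upwards [hm] with m hm
        have e : shift φ v ψ t v (g + (m * σ) • h) = (φ v g + t * ψ g) + m * (σ * t * ψ h) := by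
          rw [map_add, map_smul, shift_self, shift_self, H.hR v hvR]
          simp only [smul_eq_mul]
          ring
        rw [e]
        exact ⟨fun _ => hm, fun h => absurd ((hT0 v hvR).mpr H.x0_mem) h⟩
      · refine Eventually.of_forall fun m => ?_
        rw [shift_ne φ hvx, map_add, map_smul, H.hR v hvR, smul_zero, add_zero]
        have hve : v ∈ R0.erase x0 := mem_erase.mpr ⟨hvx, hvR⟩
        rw [hT0 v hvR]
        exact ⟨fun h => hg1 v hve h, fun h => hg2 v hve h⟩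
    · have hvx : v ≠ x0 := fun h => hvR (h ▸ H.x0R)
      have hvh := H.hY v hv hvR
      rw [hT1 v hv hvR]
      rcases lt_or_gt_of_ne (mul_ne_zero hσ0 hvh) with hlt | hgt
      · have hm : ∀ᶠ m : ℝ in atTop, φ v g + m * (σ * φ v h) < 0 := by
          have : Tendsto (fun m : ℝ => φ v g + m * (σ * φ v h)) atTop atBot :=
            tendsto_atBot_add_const_left _ _ (tendsto_id.atTop_mul_const_of_neg hlt)
          exact this.eventually_lt_atBot 0
        filter_upwards [hm] with m hm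
        have e : shift φ x0 ψ t v (g + (m * σ) • h) = φ v g + m * (σ * φ v h) := by
          rw [shift_ne φ hvx, map_add, map_smul, smul_eq_mul]; ring
        rw [e]
        exact ⟨fun h => absurd h (not_lt.mpr hlt.le), fun _ => hm⟩
      · have hm : ∀ᶠ m : ℝ in atTop, 0 < φ v g + m * (σ * φ v h) := by
          have : Tendsto (fun m : ℝ => φ v g + m * (σ * φ v h)) atTop atTop :=
            tendsto_atTop_add_const_left _ _ (tendsto_id.atTop_mul_const hgt)
          exact this.eventually_gt_atTop 0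
        filter_upwards [hm] with m hm
        have e : shift φ x0 ψ t v (g + (m * σ) • h) = φ v g + m * (σ * φ v h) := by
          rw [shift_ne φ hvx, map_add, map_smul, smul_eq_mul]; ring
        rw [e]
        exact ⟨fun _ => hm, fun h => absurd hgt h⟩
  obtain ⟨m, hm⟩ := key.exists
  exact ⟨g + (m * σ) • h, Submodule.mem_top, fun v hv => (hm v hv).1, fun v hv => (hm v hv).2⟩

/-- restricting to the kernel of a form outside `R0` gives general position -/
lemma Mut.res [FiniteDimensional ℝ M] (H : Mut φ (n + 1) Y R0 A x0 h ψ c) {v : ι} (hv : v ∈ Y)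
    (hvR : v ∉ R0) : GP φ n (res φ ⊤ v) (Y.erase v) := by
  obtain ⟨f, -, hf⟩ := H.gen ∅ (empty_subset _) (by simp) v hv (by simp) (by
    intro h
    apply hvR
    rw [← h]
    exact mem_insert_self _ _)
  refine ⟨?_, fun Z hZ hn y hy hyZ => ?_⟩
  · have h1 := finrank_res (φ := φ) (U := ⊤) (x := v) ⟨f, Submodule.mem_top, hf⟩
    rw [finrank_top, H.rank] at h1
    omega
  · have hyv := ne_of_mem_erase hy
    have hvZ : v ∉ Z := fun h => notMem_erase v Y (hZ h)
    obtain ⟨f, h1, h2⟩ := H.gen (insert v Z) (insert_subset hv (hZ.trans (erase_subset _ _)))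
      (by rw [card_insert_of_notMem hvZ]; omega) y (mem_of_mem_erase hy) (by
        rw [mem_insert]; rintro (h | h)
        · exact hyv h
        · exact hyZ h) (by
        intro h
        apply hvR
        rw [← h]
        exact mem_insert_of_mem (mem_insert_self _ _))
    exact ⟨f, mem_res.mpr ⟨Submodule.mem_top, h1 v (mem_insert_self _ _)⟩,
      fun z hz => h1 z (mem_insert_of_mem hz), h2⟩

/-- `cnt - 2` patterns at `t = 0` -/
lemma Mut.count [FiniteDimensional ℝ M] (H : Mut φ (n + 1) Y R0 A x0 h ψ c) (D : Finset ι) :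
    Disjoint R0 D → D ⊆ Y → (cnt (R0 ∪ D).card (n + 1) : ℤ) - 2 ≤
      ∑ T ∈ (R0 ∪ D).powerset, tau φ ⊤ (R0 ∪ D) T := by
  induction D using Finset.induction_on with
  | empty =>
    intro _ _
    rw [union_empty, H.card]
    obtain ⟨v, hv, hvR⟩ := H.other
    have h1 := (H.res hv hvR).mono (B := R0) (fun z hz => mem_erase.mpr
      ⟨fun h => hvR (h ▸ hz), H.sub hz⟩)
    have h2 := sum_tau R0 n _ h1
    rw [H.card] at h2
    have h3 : ∑ T ∈ R0.powerset, tau φ (Radon.res φ ⊤ v) R0 T ≤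
        ∑ T ∈ R0.powerset, tau φ ⊤ R0 T := by
      refine sum_le_sum fun T _ => ?_
      unfold tau
      split_ifs with a1 a2
      · exact le_rfl
      · obtain ⟨f, _, b1, b2⟩ := a1
        exact absurd ⟨f, Submodule.mem_top, b1, b2⟩ a2
      · norm_num
      · exact le_rfl
    rw [h2] at h3
    refine le_trans (le_of_eq ?_) h3
    rw [cnt_eq, cnt_eq, sum_range_succ, Nat.choose_self]
    push_cast
    ring
  | insert v D hvD ih =>
    intro hdis hDY
    rw [disjoint_insert_right] at hdis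
    have hvY := hDY (mem_insert_self _ _)
    have hDY' : D ⊆ Y := fun z hz => hDY (mem_insert_of_mem hz)
    have e : R0 ∪ insert v D = insert v (R0 ∪ D) := union_insert v R0 D
    have hv : v ∉ R0 ∪ D := by
      rw [mem_union]; rintro (h | h)
      · exact hdis.1 h
      · exact hvD h
    rw [e, card_insert_of_notMem hv, cnt]
    obtain ⟨f, -, hf⟩ := H.gen ∅ (empty_subset _) (by simp) v hvY (by simp) (by
      intro h
      apply hdis.1
      rw [← h]
      exact mem_insert_self _ _)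
    have h1 := sum_tau_insert (φ := φ) (U := ⊤) hv ⟨f, Submodule.mem_top, hf⟩ (fun _ => 1) (by simp)
    simp only [mul_one] at h1
    have h2 := sum_tau (R0 ∪ D) n _ ((H.res hvY hdis.1).mono (B := R0 ∪ D) (by
      intro z hz
      refine mem_erase.mpr ⟨fun h => hv (h ▸ hz), ?_⟩
      rcases mem_union.mp hz with h | h
      · exact H.sub h
      · exact hDY' h))
    rw [h1, h2]
    have h3 := ih hdis.2 hDY'
    push_cast
    linarith

end Pool.Agent.L5helper36.Radon
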