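import Pool.Agent.L5helper36.Radon.Mut

/-! Mutations: the change of the counts. -/

set_option linter.unusedSectionVars false

namespace Pool.Agent.L5helper36.Radon

open Finset Filter Topology

variable {M : Type*} [AddCommGroup M] [Module ℝ M] {ι : Type*} [DecidableEq ι]

/-- number of patterns with `m` positive signs which do not occur -/
noncomputable def ccs (φ : ι → M →ₗ[ℝ] ℝ) (B : Finset ι) (m : ℕ) : ℤ :=
  ∑ T ∈ B.powersetCard m, (1 - tau φ ⊤ B T)

variable {φ : ι → M →ₗ[ℝ] ℝ} {n : ℕ} {Y R0 A : Finset ι} {x0 : ι} {h : M} {ψ : M →ₗ[ℝ] ℝ}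
  {c : ι → ℝ}

open Classical in
/-- the new pattern -/
noncomputable def newT (φ : ι → M →ₗ[ℝ] ℝ) (R0 A : Finset ι) (h : M) (σ : ℝ) (B : Finset ι) :
    Finset ι :=
  B.filter fun v => v ∈ A ∨ (v ∉ R0 ∧ 0 < σ * φ v h)

/-- good values of the parameter -/
structure Good (φ : ι → M →ₗ[ℝ] ℝ) (n : ℕ) (Y : Finset ι) (x0 : ι) (ψ : M →ₗ[ℝ] ℝ) (t : ℝ) :
    Prop where
  gp : GP (shift φ x0 ψ t) n ⊤ Y
  sep : ∀ B ⊆ Y, ∀ T ⊆ B, Sep φ ⊤ B T → Sep (shift φ x0 ψ t) ⊤ B T

lemma tau_le {φ φ' : ι → M →ₗ[ℝ] ℝ} {U : Submodule ℝ M} {B T : Finset ι}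
    (h : Sep φ U B T → Sep φ' U B T) : tau φ U B T ≤ tau φ' U B T := by
  unfold tau
  split_ifs with a b
  · exact le_rfl
  · exact absurd (h a) b
  · norm_num
  · exact le_rfl

lemma Mut.tau_eq [FiniteDimensional ℝ M] (H : Mut φ (n + 1) Y R0 A x0 h ψ c) {t σ : ℝ}
    (hσ : 0 < σ * t) (hσ0 : σ ≠ 0) (hg : Good φ (n + 1) Y x0 ψ t) {B : Finset ι} (hB : R0 ⊆ B)
    (hBY : B ⊆ Y) : ∀ T ∈ B.powerset, tau (shift φ x0 ψ t) ⊤ B T =
      tau φ ⊤ B T + (if T = newT φ R0 A h σ B then 1 else 0) +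
        (if T = B \ newT φ R0 A h σ B then 1 else 0) := by
  classical
  set T1 := newT φ R0 A h σ B with hT1
  have hT1B : T1 ⊆ B := filter_subset _ _
  have hmem : ∀ v ∈ R0, v ∈ T1 ↔ v ∈ A := by
    intro v hv
    rw [hT1, newT, mem_filter]
    constructor
    · rintro ⟨-, h | h⟩
      · exact h
      · exact absurd hv h.1
    · intro h; exact ⟨hB hv, Or.inl h⟩
  have hmem' : ∀ v ∈ R0, v ∈ B \ T1 ↔ v ∉ A := by
    intro v hv
    rw [Finset.mem_sdiff, hmem v hv]
    exact ⟨fun h => h.2, fun h => ⟨hB hv, h⟩⟩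
  have h0 : tau φ ⊤ B T1 = 0 := tau_eq_zero.mpr (H.not_sep hB hmem)
  have h0' : tau φ ⊤ B (B \ T1) = 0 := tau_eq_zero.mpr (H.not_sep' hB hmem')
  have h1 : Sep (shift φ x0 ψ t) ⊤ B T1 := by
    have a1 := H.new_sep hσ hσ0 (T := newT φ R0 A h σ Y) (by
      intro v hv
      rw [newT, mem_filter]
      constructor
      · rintro ⟨-, h | h⟩
        · exact h
        · exact absurd hv h.1
      · intro h; exact ⟨H.sub hv, Or.inl h⟩) (by
      intro v hv hvR
      rw [newT, mem_filter]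
      constructor
      · rintro ⟨-, h | h⟩
        · exact absurd (H.A_sub h) hvR
        · exact h.2
      · intro h; exact ⟨hv, Or.inr ⟨hvR, h⟩⟩)
    refine (a1.mono hBY).congr fun v hv => ?_
    rw [hT1, newT, newT, mem_filter, mem_filter]
    exact ⟨fun h => ⟨hv, h.2⟩, fun h => ⟨hBY hv, h.2⟩⟩
  have h1' : Sep (shift φ x0 ψ t) ⊤ B (B \ T1) := sep_sdiff.mpr h1
  have hne : T1 ≠ B \ T1 := by
    intro h
    have a := (hmem x0 H.x0R).mpr H.x0_mem
    have b := a
    rw [h] at b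
    exact (Finset.mem_sdiff.mp b).2 a
  have hle : ∀ T ∈ B.powerset, tau φ ⊤ B T + (if T = T1 then 1 else 0) +
      (if T = B \ T1 then 1 else 0) ≤ tau (shift φ x0 ψ t) ⊤ B T := by
    intro T hT
    by_cases a : T = T1
    · rw [if_pos a, a, h0, if_neg hne, tau_eq_one.mpr h1]; norm_num
    · by_cases b : T = B \ T1
      · rw [if_neg a, if_pos b, b, h0', tau_eq_one.mpr h1']; norm_num
      · rw [if_neg a, if_neg b, add_zero, add_zero]
        exact tau_le (hg.sep B hBY T (mem_powerset.mp hT))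
  have hsum : ∑ T ∈ B.powerset, (tau φ ⊤ B T + (if T = T1 then 1 else 0) +
      (if T = B \ T1 then 1 else 0)) = ∑ T ∈ B.powerset, tau (shift φ x0 ψ t) ⊤ B T := by
    apply le_antisymm (sum_le_sum hle)
    rw [sum_tau B _ _ (hg.gp.mono hBY), sum_add_distrib, sum_add_distrib, sum_ite_eq',
      sum_ite_eq', if_pos (mem_powerset.mpr hT1B), if_pos (mem_powerset.mpr sdiff_subset)]
    have := H.count (B \ R0) disjoint_sdiff (sdiff_subset.trans hBY)
    rw [union_sdiff_of_subset hB] at this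
    linarith
  intro T hT
  exact (((sum_eq_sum_iff_of_le hle).mp hsum) T hT).symm

lemma Mut.tau_eq' [FiniteDimensional ℝ M] (H : Mut φ n Y R0 A x0 h ψ c) {t : ℝ}
    (hg : Good φ n Y x0 ψ t) {B : Finset ι} (hB : ¬ R0 ⊆ B)
    (hBY : B ⊆ Y) : ∀ T ∈ B.powerset, tau (shift φ x0 ψ t) ⊤ B T = tau φ ⊤ B T := by
  have hgp : GP φ n ⊤ B := by
    refine ⟨by rw [finrank_top]; exact H.rank, fun Z hZ hn x hx hxZ => ?_⟩
    obtain ⟨f, h1, h2⟩ := H.gen Z (hZ.trans hBY) hn x (hBY hx) hxZ (by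
      intro h
      apply hB
      rw [← h]
      exact insert_subset hx hZ)
    exact ⟨f, Submodule.mem_top, h1, h2⟩
  have hle : ∀ T ∈ B.powerset, tau φ ⊤ B T ≤ tau (shift φ x0 ψ t) ⊤ B T := fun T hT =>
    tau_le (hg.sep B hBY T (mem_powerset.mp hT))
  have hsum : ∑ T ∈ B.powerset, tau φ ⊤ B T = ∑ T ∈ B.powerset, tau (shift φ x0 ψ t) ⊤ B T := by
    rw [sum_tau B _ _ (hg.gp.mono hBY), sum_tau B _ _ hgp]
  intro T hT
  exact (((sum_eq_sum_iff_of_le hle).mp hsum) T hT).symm

open Classical in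
lemma Mut.card_newT (H : Mut φ n Y R0 A x0 h ψ c) {B : Finset ι} (hB : R0 ⊆ B) (σ : ℝ) :
    (newT φ R0 A h σ B).card = A.card + (B.filter fun v => 0 < σ * φ v h).card := by
  have e : newT φ R0 A h σ B = A ∪ B.filter fun v => 0 < σ * φ v h := by
    ext v
    rw [newT, mem_filter, mem_union, mem_filter]
    constructor
    · rintro ⟨h1, h2 | h2⟩
      · exact Or.inl h2
      · exact Or.inr ⟨h1, h2.2⟩
    · rintro (h1 | h1)
      · exact ⟨hB (H.A_sub h1), Or.inl h1⟩
      · refine ⟨h1.1, Or.inr ⟨fun hv => ?_, h1.2⟩⟩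
        have := h1.2
        rw [H.hR v hv, mul_zero] at this
        exact lt_irrefl _ this
  rw [e, card_union_of_disjoint]
  rw [disjoint_left]
  intro v hv hv'
  have := (mem_filter.mp hv').2
  rw [H.hR v (H.A_sub hv), mul_zero] at this
  exact lt_irrefl _ this

lemma Mut.ccs_eq [FiniteDimensional ℝ M] (H : Mut φ (n + 1) Y R0 A x0 h ψ c) {t σ : ℝ}
    (hσ : 0 < σ * t) (hσ0 : σ ≠ 0) (hg : Good φ (n + 1) Y x0 ψ t) {B : Finset ι} (hB : R0 ⊆ B)
    (hBY : B ⊆ Y) {a b : ℕ} (ha : (newT φ R0 A h σ B).card = a) (hb : a + b = B.card) (m : ℕ) :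
    ccs (shift φ x0 ψ t) B m = ccs φ B m - (if a = m then 1 else 0) - (if b = m then 1 else 0) := by
  classical
  have hT1B : newT φ R0 A h σ B ⊆ B := filter_subset _ _
  have h1 : ∀ T ∈ B.powersetCard m, (1 - tau (shift φ x0 ψ t) ⊤ B T) =
      (1 - tau φ ⊤ B T) - (if T = newT φ R0 A h σ B then 1 else 0) -
        (if T = B \ newT φ R0 A h σ B then 1 else 0) := by
    intro T hT
    rw [H.tau_eq hσ hσ0 hg hB hBY T (mem_powerset.mpr (mem_powersetCard.mp hT).1)]
    ring
  unfold ccs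
  rw [sum_congr rfl h1, sum_sub_distrib, sum_sub_distrib, sum_ite_eq', sum_ite_eq']
  have e1 : newT φ R0 A h σ B ∈ B.powersetCard m ↔ a = m := by
    rw [mem_powersetCard, ha]; exact ⟨fun h => h.2, fun h => ⟨hT1B, h⟩⟩
  have e2 : B \ newT φ R0 A h σ B ∈ B.powersetCard m ↔ b = m := by
    rw [mem_powersetCard, card_sdiff_of_subset hT1B, ha]
    constructor
    · rintro ⟨-, h⟩; omega
    · intro h; exact ⟨sdiff_subset, by omega⟩
  simp only [e1, e2]

lemma Mut.ccs_eq' [FiniteDimensional ℝ M] (H : Mut φ n Y R0 A x0 h ψ c) {t : ℝ}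
    (hg : Good φ n Y x0 ψ t) {B : Finset ι} (hB : ¬ R0 ⊆ B)
    (hBY : B ⊆ Y) (m : ℕ) : ccs (shift φ x0 ψ t) B m = ccs φ B m := by
  unfold ccs
  refine sum_congr rfl fun T hT => ?_
  rw [H.tau_eq' hg hB hBY T (mem_powerset.mpr (mem_powersetCard.mp hT).1)]

open Classical in
/-- the change of the Radon numbers -/
theorem Mut.diff_r [FiniteDimensional ℝ M] (H : Mut φ (n + 1) Y R0 A x0 h ψ c) {t t' : ℝ}
    (ht : 0 < t) (ht' : t' < 0) (hg : Good φ (n + 1) Y x0 ψ t) (hg' : Good φ (n + 1) Y x0 ψ t')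
    {i k l : ℕ} (hi : A.card = i) (hl : (Y.filter fun v => 0 < φ v h).card = l)
    (hk : (Y.filter fun v => φ v h < 0).card = k) (hin : i ≤ n + 1)
    (hY : Y.card = n + 1 + k + l) (m : ℕ) :
    ccs (shift φ x0 ψ t) Y m - ccs (shift φ x0 ψ t') Y m =
      (if i + k = m then 1 else 0) + (if n + 1 - i + l = m then 1 else 0) -
        (if i + l = m then 1 else 0) - (if n + 1 - i + k = m then 1 else 0) := by
  have a1 : (newT φ R0 A h 1 Y).card = i + l := by
    rw [H.card_newT H.sub, hi, ← hl]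
    simp only [one_mul]
  have a2 : (newT φ R0 A h (-1) Y).card = i + k := by
    rw [H.card_newT H.sub, hi, ← hk]
    simp only [neg_mul, one_mul, Left.neg_pos_iff]
  rw [H.ccs_eq (σ := 1) (by linarith) one_ne_zero hg H.sub (Subset.refl _) a1
      (b := n + 1 - i + k) (by omega),
    H.ccs_eq (σ := -1) (by linarith) (by norm_num) hg' H.sub (Subset.refl _) a2
      (b := n + 1 - i + l) (by omega)]
  ring

open Classical in
/-- the change of the numbers of primitive partitions -/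
theorem Mut.diff_P [FiniteDimensional ℝ M] (H : Mut φ (n + 1) Y R0 A x0 h ψ c) {t t' : ℝ}
    (ht : 0 < t) (ht' : t' < 0) (hg : Good φ (n + 1) Y x0 ψ t) (hg' : Good φ (n + 1) Y x0 ψ t')
    {i k l : ℕ} (hi : A.card = i) (hl : (Y.filter fun v => 0 < φ v h).card = l)
    (hk : (Y.filter fun v => φ v h < 0).card = k) (hin : i ≤ n + 1) (m : ℕ) :
    ∑ R ∈ Y.powersetCard (n + 2), ccs (shift φ x0 ψ t) R m -
      ∑ R ∈ Y.powersetCard (n + 2), ccs (shift φ x0 ψ t') R m =
      ((l : ℤ) - k) * ((if i = m then 1 else 0) + (if n + 2 - i = m then 1 else 0) -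
        (if i + 1 = m then 1 else 0) - (if n + 1 - i = m then 1 else 0)) := by
  set W : ℤ := (if i = m then 1 else 0) + (if n + 2 - i = m then 1 else 0) -
        (if i + 1 = m then 1 else 0) - (if n + 1 - i = m then 1 else 0) with hW
  rw [← sum_sub_distrib]
  have h1 : ∑ R ∈ Y.powersetCard (n + 2), (ccs (shift φ x0 ψ t) R m - ccs (shift φ x0 ψ t') R m) =
      ∑ R ∈ (Y.powersetCard (n + 2)).filter (fun R => R0 ⊆ R),
        (ccs (shift φ x0 ψ t) R m - ccs (shift φ x0 ψ t') R m) := by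
    rw [sum_filter]
    refine sum_congr rfl fun R hR => ?_
    split_ifs with h
    · rfl
    · rw [H.ccs_eq' hg h (mem_powersetCard.mp hR).1, H.ccs_eq' hg' h (mem_powersetCard.mp hR).1,
        sub_self]
  have h2 : (Y.powersetCard (n + 2)).filter (fun R => R0 ⊆ R) =
      (Y \ R0).image fun e => insert e R0 := by
    ext R
    simp only [mem_filter, mem_powersetCard, mem_image, Finset.mem_sdiff]
    constructor
    · rintro ⟨⟨h1, h2⟩, h3⟩
      have h4 : (R \ R0).card = 1 := by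
        rw [card_sdiff_of_subset h3, H.card]; omega
      obtain ⟨e, he⟩ := card_eq_one.mp h4
      have h5 : e ∈ R \ R0 := by rw [he]; exact mem_singleton_self _
      rw [Finset.mem_sdiff] at h5
      refine ⟨e, ⟨h1 h5.1, h5.2⟩, ?_⟩
      rw [← union_sdiff_of_subset h3, he, union_comm, ← insert_eq]
    · rintro ⟨e, ⟨h1, h2⟩, rfl⟩
      exact ⟨⟨insert_subset h1 H.sub, by rw [card_insert_of_notMem h2, H.card]⟩,
        subset_insert _ _⟩
  rw [h1, h2, sum_image]
  · have h3 : ∀ e ∈ Y \ R0, (ccs (shift φ x0 ψ t) (insert e R0) m -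
        ccs (shift φ x0 ψ t') (insert e R0) m) =
        (if 0 < φ e h then 1 else 0) * W - (if φ e h < 0 then 1 else 0) * W := by
      intro e he
      obtain ⟨heY, heR⟩ := Finset.mem_sdiff.mp he
      have hsub : insert e R0 ⊆ Y := insert_subset heY H.sub
      have hcard : (insert e R0).card = n + 2 := by rw [card_insert_of_notMem heR, H.card]
      have hR0 : ∀ σ : ℝ, ((insert e R0).filter fun v => 0 < σ * φ v h).card =
          if 0 < σ * φ e h then 1 else 0 := by
        intro σ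
        rw [filter_insert]
        have : R0.filter (fun v => 0 < σ * φ v h) = ∅ := by
          rw [filter_eq_empty_iff]
          intro v hv
          rw [H.hR v hv, mul_zero]
          exact lt_irrefl _
        rw [this]
        split_ifs <;> simp
      have c1 := H.card_newT (B := insert e R0) (subset_insert _ _) 1
      have c2 := H.card_newT (B := insert e R0) (subset_insert _ _) (-1)
      rw [hR0, hi] at c1 c2
      simp only [one_mul, neg_mul, Left.neg_pos_iff] at c1 c2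
      rcases lt_or_gt_of_ne (H.hY e heY heR) with hlt | hgt
      · have hn : ¬ 0 < φ e h := not_lt.mpr hlt.le
        rw [if_neg hn] at c1
        rw [if_pos hlt] at c2
        rw [if_neg hn, if_pos hlt]
        rw [H.ccs_eq (σ := 1) (by linarith) one_ne_zero hg (subset_insert _ _) hsub c1
            (b := n + 2 - i) (by omega),
          H.ccs_eq (σ := -1) (by linarith) (by norm_num) hg' (subset_insert _ _) hsub c2
            (b := n + 1 - i) (by omega), hW]
        simp only [add_zero]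
        ring
      · have hn : ¬ φ e h < 0 := not_lt.mpr hgt.le
        rw [if_pos hgt] at c1
        rw [if_neg hn] at c2
        rw [if_neg hn, if_pos hgt]
        rw [H.ccs_eq (σ := 1) (by linarith) one_ne_zero hg (subset_insert _ _) hsub c1
            (b := n + 1 - i) (by omega),
          H.ccs_eq (σ := -1) (by linarith) (by norm_num) hg' (subset_insert _ _) hsub c2
            (b := n + 2 - i) (by omega), hW]
        simp only [add_zero]
        ring
    rw [sum_congr rfl h3, sum_sub_distrib, ← sum_mul, ← sum_mul, sum_boole, sum_boole]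
    have e1 : (Y \ R0).filter (fun v => 0 < φ v h) = Y.filter fun v => 0 < φ v h := by
      ext v
      simp only [mem_filter, Finset.mem_sdiff]
      constructor
      · rintro ⟨⟨h1, -⟩, h2⟩; exact ⟨h1, h2⟩
      · rintro ⟨h1, h2⟩
        exact ⟨⟨h1, fun h3 => by rw [H.hR v h3] at h2; exact lt_irrefl _ h2⟩, h2⟩
    have e2 : (Y \ R0).filter (fun v => φ v h < 0) = Y.filter fun v => φ v h < 0 := by
      ext v
      simp only [mem_filter, Finset.mem_sdiff]
      constructor
      · rintro ⟨⟨h1, -⟩, h2⟩; exact ⟨h1, h2⟩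
      · rintro ⟨h1, h2⟩
        exact ⟨⟨h1, fun h3 => by rw [H.hR v h3] at h2; exact lt_irrefl _ h2⟩, h2⟩
    rw [e1, e2, hl, hk]
    ring
  · intro e he e' he' hee
    rw [mem_coe, Finset.mem_sdiff] at he he'
    simp only at hee
    have : e ∈ insert e' R0 := by rw [← hee]; exact mem_insert_self _ _
    exact (mem_insert.mp this).resolve_right he.2

/-- small parameters are good -/
lemma Mut.eventually_good (H : Mut φ n Y R0 A x0 h ψ c) :
    ∀ᶠ t : ℝ in 𝓝[≠] 0, Good φ n Y x0 ψ t := by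
  have h1 : ∀ᶠ t : ℝ in 𝓝[≠] 0, ∀ B ∈ Y.powerset, ∀ T ∈ B.powerset,
      (Sep φ ⊤ B T → Sep (shift φ x0 ψ t) ⊤ B T) := by
    rw [Finset.eventually_all]
    intro B _
    rw [Finset.eventually_all]
    intro T _
    by_cases hS : Sep φ ⊤ B T
    · filter_upwards [(eventually_sep x0 ψ hS).filter_mono nhdsWithin_le_nhds] with t ht _
      exact ht
    · exact Eventually.of_forall fun t h => absurd h hS
  filter_upwards [H.eventually_gp, h1] with t h2 h3
  exact ⟨h2, fun B hB T hT => h3 B (mem_powerset.mpr hB) T (mem_powerset.mpr hT)⟩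

end Pool.Agent.L5helper36.Radon
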