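import Pool.Agent.L5helper36.Radon.Final
import Pool.Agent.L5helper36.Radon.DefsR

/-! The affine hull of the Radon vectors alone. -/

set_option linter.unusedSectionVars false

namespace Pool.Agent.L5helper36.Radon

open Finset

lemma linalg0 {d s : ℕ} (hd : 2 ≤ d) (hs : d + 2 ≤ s) (A : ℕ → ℝ)
    (hA : ∀ m ≤ s, A (s - m) = A m)
    (h : ∀ i k : ℕ, 1 ≤ i → 2 * i ≤ d → k + d + 1 ≤ s → A (d + 1 - i + k) = A (i + k)) :
    ∃ a c : ℝ, (c = 0 ∨ (Odd d ∧ Even s)) ∧
      (∀ m : ℕ, 1 ≤ m → m + 1 ≤ s → A m = a + c * (-1) ^ m) := by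
  set I := d / 2 with hI
  have hI1 : 1 ≤ I := by omega
  have hGI : ∀ k, k + d + 1 ≤ s → A (d + 1 - I + k) = A (I + k) := fun k hk =>
    h I k hI1 (by omega) hk
  have key : ∃ a c : ℝ, (c = 0 ∨ (Odd d ∧ Even s)) ∧
      ∀ m, I ≤ m → m + I ≤ s → A m = a + c * (-1) ^ m := by
    rcases Nat.even_or_odd d with hev | hodd
    · refine ⟨A I, 0, Or.inl rfl, fun m hm1 hm2 => ?_⟩
      obtain ⟨r, hr⟩ := hev
      obtain ⟨k, rfl⟩ := Nat.exists_eq_add_of_le hm1
      clear hm1
      induction k with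
      | zero => simp
      | succ k ih =>
        have := hGI k (by omega)
        rw [show d + 1 - I + k = I + (k + 1) by omega] at this
        rw [this, ih (by omega)]; ring
    · obtain ⟨r, hr⟩ := hodd
      have hper : ∀ k, k + 2 * I + 2 ≤ s → A (I + (k + 2)) = A (I + k) := by
        intro k hk
        have := hGI k (by omega)
        rwa [show d + 1 - I + k = I + (k + 2) by omega] at this
      have hall : ∀ k, k + 2 * I ≤ s → A (I + k) = (A I + A (I + 1)) / 2 +
          (-1) ^ k * ((A I - A (I + 1)) / 2) := by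
        intro k
        induction k using Nat.twoStepInduction with
        | zero => intro _; simp; ring
        | one => intro _; simp; ring
        | more k ih1 _ =>
          intro hk
          rw [hper k (by omega), ih1 (by omega), pow_add]
          ring
      rcases Nat.even_or_odd s with hse | hso
      · refine ⟨(A I + A (I + 1)) / 2, (-1) ^ I * ((A I - A (I + 1)) / 2),
          Or.inr ⟨⟨r, hr⟩, hse⟩, fun m hm1 hm2 => ?_⟩
        obtain ⟨k, rfl⟩ := Nat.exists_eq_add_of_le hm1
        rw [hall k (by omega), pow_add]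
        have : (-1 : ℝ) ^ I * (-1) ^ I = 1 := by rw [← pow_add]; exact (Even.add_self I).neg_one_pow
        linear_combination (-((-1 : ℝ) ^ k * ((A I - A (I + 1)) / 2))) * this
      · obtain ⟨q, hq'⟩ := hso
        have e1 := hall (s - 2 * I) (by omega)
        have e2 : A (I + (s - 2 * I)) = A I := by
          rw [show I + (s - 2 * I) = s - I by omega]
          exact hA I (by omega)
        have e3 : (-1 : ℝ) ^ (s - 2 * I) = -1 := by
          apply Odd.neg_one_pow
          exact ⟨q - I, by omega⟩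
        rw [e2, e3] at e1
        have e4 : A I = A (I + 1) := by linarith
        refine ⟨A I, 0, Or.inl rfl, fun m hm1 hm2 => ?_⟩
        obtain ⟨k, rfl⟩ := Nat.exists_eq_add_of_le hm1
        rw [hall k (by omega), ← e4]
        ring
  obtain ⟨a, c, hc, hGm⟩ := key
  have hsgn : ∀ m ≤ s, c * (-1) ^ (s - m) = c * (-1) ^ m := by
    intro m hm
    rcases hc with h0 | ⟨-, hse⟩
    · rw [h0]; ring
    · have h1 : (-1 : ℝ) ^ (s - m) * (-1) ^ m = 1 := by
        rw [← pow_add, Nat.sub_add_cancel hm]; exact hse.neg_one_pow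
      have h2 : (-1 : ℝ) ^ m * (-1) ^ m = 1 := by
        rw [← pow_add]; exact (Even.add_self m).neg_one_pow
      linear_combination (c * (-1) ^ m) * h1 - (c * (-1) ^ (s - m)) * h2
  have hpar : ∀ i : ℕ, 2 * i ≤ d → c * (-1) ^ (d + 1 - i) = c * (-1 : ℝ) ^ i := by
    intro i hi
    rcases hc with h0 | ⟨hd', -⟩
    · rw [h0]; ring
    · obtain ⟨r, hr⟩ := hd'
      rw [show d + 1 - i = 2 * (r + 1 - i) + i by omega, pow_add, pow_mul]
      simp
  have main : ∀ t < I, ∀ m, I - t ≤ m → m + (I - t) ≤ s → A m = a + c * (-1) ^ m := by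
    intro t
    induction t with
    | zero => intro _ m h1 h2; exact hGm m h1 h2
    | succ t ih =>
      intro ht m hm1 hm2
      have i1 := ih (by omega)
      obtain ⟨i, hi⟩ : ∃ i, i = I - (t + 1) := ⟨_, rfl⟩
      have hi' : I - t = i + 1 := by omega
      rw [hi'] at i1
      rw [← hi] at hm1 hm2
      have e0 := h i 0 (by omega) (by omega) (by omega)
      rw [add_zero, add_zero, i1 (d + 1 - i) (by omega) (by omega), hpar i (by omega)] at e0
      rcases Nat.eq_or_lt_of_le hm1 with rfl | hm3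
      · exact e0.symm
      · rcases Nat.eq_or_lt_of_le hm2 with hm4 | hm4
        · have : m = s - i := by omega
          rw [this, hA i (by omega), hsgn i (by omega), e0]
        · exact i1 m hm3 (by omega)
  exact ⟨a, c, hc, fun m hm1 hm2 => main (I - 1) (by omega) m (by omega) (by omega)⟩

/-- The affine hull of all Radon vectors, `d ≥ 2`. -/
theorem affineSpan_VR {s d : ℕ} (hd : 2 ≤ d) (hs : d + 2 ≤ s) :
    (affineSpan ℝ (VR s d) : Set (Fin (s / 2) → ℝ)) =
      {x | ∑ i, x i = 2 ^ (s - 1) - ∑ k ∈ range (d + 1), ((s - 1).choose k : ℝ) ∧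
        (Odd d → Even s → ∑ i : Fin (s / 2), (-1 : ℝ) ^ ((i : ℕ) + 1) * x i = 0)} := by
  have hsub : ∀ x ∈ VR s d, ∑ i, x i = 2 ^ (s - 1) - ∑ k ∈ range (d + 1), ((s - 1).choose k : ℝ) ∧
        (Odd d → Even s → ∑ i : Fin (s / 2), (-1 : ℝ) ^ ((i : ℕ) + 1) * x i = 0) := by
    rintro x ⟨S, h1, h2, rfl⟩
    have := relations_radonVec h1 hs h2
    exact ⟨this.sum_r, this.alt_r⟩
  have hVR : ∀ v ∈ V s d, v.1 ∈ VR s d := by
    rintro v ⟨S, h1, h2, rfl⟩
    exact ⟨S, h1, h2, rfl⟩
  apply Set.Subset.antisymm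
  · intro v hv
    refine affineSpan_induction (p := fun x : Fin (s / 2) → ℝ =>
      ∑ i, x i = 2 ^ (s - 1) - ∑ k ∈ range (d + 1), ((s - 1).choose k : ℝ) ∧
        (Odd d → Even s → ∑ i : Fin (s / 2), (-1 : ℝ) ^ ((i : ℕ) + 1) * x i = 0)) hv hsub ?_
    intro c u v w hu hv hw
    rw [vsub_eq_sub, vadd_eq_add]
    have e1 : ∀ i, (c • (u - v) + w) i = c * (u i - v i) + w i := fun i => by simp
    refine ⟨?_, fun h1 h2 => ?_⟩
    · simp only [e1]
      rw [lin_sum', hu.1, hv.1, hw.1]; ring
    · simp only [e1]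
      rw [lin_sum, hu.2 h1 h2, hv.2 h1 h2, hw.2 h1 h2]; ring
  · intro v hv
    obtain ⟨w0, hw0⟩ := V_nonempty (s := s) (d := d) (by omega) hs
    have hv0 := hVR w0 hw0
    have key : v - w0.1 ∈ vectorSpan ℝ (VR s d) := by
      by_contra hno
      obtain ⟨F, hF1, hF2⟩ := Submodule.exists_le_ker_of_notMem hno
      apply hF1
      have e1 : ∀ w : Fin (s / 2) → ℝ, F w = ∑ i, F (Pi.single i 1) * w i := by
        intro w
        conv_lhs => rw [pi_eq_sum_univ' w]
        rw [map_sum]
        refine sum_congr rfl fun i _ => ?_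
        rw [map_smul, smul_eq_mul, mul_comm]
      obtain ⟨a, ha⟩ : ∃ a : Fin (s / 2) → ℝ, a = fun i => F (Pi.single i 1) := ⟨_, rfl⟩
      have e2 : ∀ w : Fin (s / 2) → ℝ, F w = ∑ i, a i * w i := by
        intro w; rw [e1, ha]
      obtain ⟨e, rfl⟩ : ∃ e, d = e + 1 := ⟨d - 1, by omega⟩
      obtain ⟨p, c, hc, h1⟩ := linalg0 (d := e + 1) (s := s) hd hs (hat s a)
        (fun m hm => hat_symm a hm) (by
        intro i k hi1 hi2 hk
        have := recursion (by omega) (by omega) a 0 (by
          intro w hw w' hw'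
          have h3 := LinearMap.mem_ker.mp (hF2 (vsub_mem_vectorSpan ℝ (hVR w hw) (hVR w' hw')))
          rw [vsub_eq_sub, e2] at h3
          simpa using h3) hi1 (show i ≤ e + 1 by omega) (show k + e + 2 ≤ s by omega)
        have z : ∀ m, hat (e + 3) (0 : Fin ((e + 1) / 2 + 1) → ℝ) m = 0 := by
          intro m; unfold hat; exact sum_eq_zero fun _ _ => by simp
        rw [z, z, sub_zero, mul_zero] at this
        rw [show e + 1 + 1 - i = e + 2 - i by omega]
        linarith)
      rw [e2]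
      have h2 := hsub _ hv0
      have r1 : ∀ w : Fin (s / 2) → ℝ, ∑ i, a i * w i = p * ∑ i, w i +
          c * ∑ i : Fin (s / 2), (-1 : ℝ) ^ ((i : ℕ) + 1) * w i := by
        intro w
        rw [mul_sum, mul_sum, ← sum_add_distrib]
        refine sum_congr rfl fun i _ => ?_
        have := i.2
        rw [← hat_apply (n := s) (by omega) a i, h1 (i + 1) (by omega) (by omega)]
        ring
      have r2 : ∑ i, a i * (v - w0.1) i = ∑ i, a i * v i - ∑ i, a i * w0.1 i := by
        rw [← sum_sub_distrib]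
        exact sum_congr rfl fun i _ => by rw [Pi.sub_apply]; ring
      rw [r2, r1, r1, hv.1, h2.1]
      rcases hc with h0 | ⟨h3, h4⟩
      · rw [h0]; ring
      · rw [hv.2 h3 h4, h2.2 h3 h4]; ring
    have := vadd_mem_affineSpan_of_mem_affineSpan_of_mem_vectorSpan (k := ℝ)
      (mem_affineSpan ℝ hv0) key
    rw [vadd_eq_add, sub_add_cancel] at this
    exact this

end Pool.Agent.L5helper36.Radon
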