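import Pool.Agent.L5helper36.Radon.Full

/-! The relations hold for every set in general position. -/

set_option linter.unusedSectionVars false

namespace Pool.Agent.L5helper36.Radon

open Finset

variable {d : ℕ}

/-- the number of inseparable ordered pairs `(T, R \ T)`, `|T| = m` -/
noncomputable def cc (R : Finset (Fin d → ℝ)) (m : ℕ) : ℤ :=
  ∑ T ∈ R.powersetCard m, (1 - tau (ev (d := d)) ⊤ R T)

lemma rt_eq_cc (S : Finset (Fin d → ℝ)) (m : ℕ) : rt S m = cc S m := rfl

lemma pt_eq_cc (S : Finset (Fin d → ℝ)) (m : ℕ) :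
    pt S m = ∑ R ∈ S.powersetCard (d + 2), cc R m := rfl

lemma tau_sdiff {M : Type*} [AddCommGroup M] [Module ℝ M] {ι : Type*} [DecidableEq ι]
    {φ : ι → M →ₗ[ℝ] ℝ} {U : Submodule ℝ M} {B T : Finset ι} :
    tau φ U B (B \ T) = tau φ U B T := by
  unfold tau
  by_cases h : Sep φ U B T
  · rw [if_pos h, if_pos (sep_sdiff.mpr h)]
  · rw [if_neg h, if_neg (fun h' => h (sep_sdiff.mp h'))]

lemma cc_symm (R : Finset (Fin d → ℝ)) {m : ℕ} (hm : m ≤ R.card) :
    cc R (R.card - m) = cc R m := by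
  unfold cc
  refine sum_bij' (fun T _ => R \ T) (fun T _ => R \ T) ?_ ?_ ?_ ?_ ?_
  · intro T hT
    rw [mem_powersetCard] at hT ⊢
    refine ⟨sdiff_subset, ?_⟩
    rw [card_sdiff_of_subset hT.1, hT.2]; omega
  · intro T hT
    rw [mem_powersetCard] at hT ⊢
    refine ⟨sdiff_subset, ?_⟩
    rw [card_sdiff_of_subset hT.1, hT.2]
  · intro T hT
    rw [mem_powersetCard] at hT
    exact Finset.sdiff_sdiff_eq_self hT.1
  · intro T hT
    rw [mem_powersetCard] at hT
    exact Finset.sdiff_sdiff_eq_self hT.1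
  · intro T _
    rw [tau_sdiff]

lemma cc_zero (R : Finset (Fin d → ℝ)) : cc R 0 = 0 := by
  unfold cc
  rw [powersetCard_zero, sum_singleton, tau_eq_one.mpr, sub_self]
  exact ⟨(0, -1), Submodule.mem_top, by simp, by simp⟩

lemma cc_gt (R : Finset (Fin d → ℝ)) {m : ℕ} (hm : R.card < m) : cc R m = 0 := by
  unfold cc
  rw [powersetCard_eq_empty.mpr hm, sum_empty]

lemma sum_cc (R : Finset (Fin d → ℝ)) (g : ℕ → ℤ) :
    ∑ m ∈ range (R.card + 1), g m * cc R m =
      ∑ T ∈ R.powerset, g T.card * (1 - tau (ev (d := d)) ⊤ R T) := by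
  rw [sum_powerset]
  refine sum_congr rfl fun m _ => ?_
  unfold cc
  rw [mul_sum]
  exact sum_congr rfl fun T hT => by rw [(mem_powersetCard.mp hT).2]

lemma sum_pt (S : Finset (Fin d → ℝ)) (g : ℕ → ℤ) :
    ∑ m ∈ range (d + 2 + 1), g m * pt S m =
      ∑ R ∈ S.powersetCard (d + 2), ∑ T ∈ R.powerset,
        g T.card * (1 - tau (ev (d := d)) ⊤ R T) := by
  simp only [pt_eq_cc, mul_sum]
  rw [sum_comm]
  refine sum_congr rfl fun R hR => ?_
  rw [← sum_cc, (mem_powersetCard.mp hR).2]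

lemma full_r {s : ℕ} {S : Finset (Fin d → ℝ)} (hs : S.card = s) (m : ℕ) :
    full s (radonVec s d S).1 m = rt S m := by
  refine full_eq_of rfl _ (fun m => ((rt S m : ℤ) : ℝ)) ?_ ?_ ?_ ?_ m
  · simp only [rt_eq_cc, cc_zero]; simp
  · intro m hm
    simp only [rt_eq_cc, ← hs]
    rw [cc_symm S (by omega)]
  · intro m hm
    simp only [rt_eq_cc]
    rw [cc_gt S (by omega)]; simp
  · intro i
    have h1 := radonCount_eq S (i + 1) (by have := i.2; omega)
    simp only [radonVec]
    rw [← h1, hs]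
    push_cast
    split_ifs <;> simp

lemma pt_symm (S : Finset (Fin d → ℝ)) {m : ℕ} (hm : m ≤ d + 2) :
    pt S (d + 2 - m) = pt S m := by
  rw [pt_eq_cc, pt_eq_cc]
  refine sum_congr rfl fun R hR => ?_
  have := (mem_powersetCard.mp hR).2
  rw [← this, cc_symm R (by omega)]

lemma full_P {s : ℕ} {S : Finset (Fin d → ℝ)} (hS : GP (ev (d := d)) (d + 1) ⊤ S) (m : ℕ) :
    full (d + 2) (radonVec s d S).2 m = pt S m := by
  refine full_eq_of (by omega) _ (fun m => ((pt S m : ℤ) : ℝ)) ?_ ?_ ?_ ?_ m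
  · rw [pt_eq_cc, sum_eq_zero fun R _ => cc_zero R]; simp
  · intro m hm
    simp only [pt_symm S hm]
  · intro m hm
    simp only [pt_eq_cc]
    rw [sum_eq_zero fun R hR => cc_gt R (by rw [(mem_powersetCard.mp hR).2]; exact hm)]; simp
  · intro i
    have h1 := primCount_eq hS (i + 1)
    simp only [radonVec]
    rw [← h1]
    push_cast
    split_ifs <;> simp

lemma sum_card_mul {α : Type*} [DecidableEq α] (A : Finset α) :
    ∑ T ∈ A.powerset, ((T.card : ℤ) * (A.card - T.card : ℤ)) =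
      (A.card * (A.card - 1) : ℕ) * 2 ^ (A.card - 2) := by
  have h1 : ∀ T ∈ A.powerset, ((T.card : ℤ) * (A.card - T.card : ℤ)) =
      ∑ p ∈ A, ∑ q ∈ A, if p ∈ T ∧ q ∈ A \ T then (1 : ℤ) else 0 := by
    intro T hT
    exact (sum_wt (mem_powerset.mp hT) (Subset.refl A)).symm
  rw [sum_congr rfl h1, sum_comm]
  have h2 : ∀ p ∈ A, ∑ T ∈ A.powerset, ∑ q ∈ A, (if p ∈ T ∧ q ∈ A \ T then (1 : ℤ) else 0) =
      (A.card - 1 : ℕ) * 2 ^ (A.card - 2) := by
    intro p hp
    rw [sum_comm, ← add_sum_erase _ _ hp, sum_eq_zero (fun T _ => by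
      rw [if_neg]; rintro ⟨a, b⟩; exact (mem_sdiff.mp b).2 a), zero_add]
    rw [sum_congr rfl (g := fun _ => (2 : ℤ) ^ (A.card - 2)), sum_const, card_erase_of_mem hp,
      nsmul_eq_mul]
    intro q hq
    have hq' := mem_of_mem_erase hq
    have hpq : q ≠ p := ne_of_mem_erase hq
    rw [← sum_filter, sum_const, nsmul_eq_mul, mul_one]
    have h3 : ((A.powerset).filter fun T => p ∈ T ∧ q ∈ A \ T) =
        (((A.erase p).erase q).powerset).image (insert p) := by
      ext T
      simp only [mem_filter, mem_powerset, mem_sdiff, mem_image]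
      constructor
      · rintro ⟨h1, h2, h3, h4⟩
        refine ⟨T.erase p, ?_, insert_erase h2⟩
        intro v hv
        rw [mem_erase] at hv
        rw [mem_erase, mem_erase]
        exact ⟨fun h => h4 (h ▸ hv.2), hv.1, h1 hv.2⟩
      · rintro ⟨T', h1, rfl⟩
        have h2 : q ∉ T' := fun h => by simpa using h1 h
        refine ⟨?_, mem_insert_self _ _, hq', ?_⟩
        · intro v hv
          rcases mem_insert.mp hv with rfl | hv
          · exact hp
          · exact mem_of_mem_erase (mem_of_mem_erase (h1 hv))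
        · rw [mem_insert]; rintro (h | h)
          · exact hpq h
          · exact h2 h
    rw [h3, card_image_of_injOn, card_powerset, card_erase_of_mem hq, card_erase_of_mem hp]
    · push_cast
      rfl
    · intro T hT T' hT' h
      have a1 : p ∉ T := fun h => by simpa using (mem_powerset.mp hT) h
      have a2 : p ∉ T' := fun h => by simpa using (mem_powerset.mp hT') h
      have := congrArg (fun s => s.erase p) h
      simpa [erase_insert a1, erase_insert a2] using this
  rw [sum_congr rfl h2, sum_const, nsmul_eq_mul]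
  push_cast
  ring


lemma sum_rt (S : Finset (Fin d → ℝ)) (g : ℕ → ℤ) :
    ∑ m ∈ range (S.card + 1), g m * rt S m =
      ∑ T ∈ S.powerset, g T.card * (1 - tau (ev (d := d)) ⊤ S T) := sum_cc S g

/-- first relation, ordered form -/
lemma rel1 {S : Finset (Fin d → ℝ)} (h : GP (ev (d := d)) (d + 1) ⊤ S) (hS : S.Nonempty) :
    ∑ m ∈ range (S.card + 1), rt S m =
      2 * (2 ^ (S.card - 1) - ∑ k ∈ range (d + 1), ((S.card - 1).choose k : ℤ)) := by
  have h1 := sum_rt S (fun _ => 1)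
  simp only [one_mul] at h1
  obtain ⟨a, ha⟩ : ∃ a, S.card = a + 1 := ⟨S.card - 1, by have := card_pos.mpr hS; omega⟩
  rw [h1, sum_sub_distrib, sum_tau S (d + 1) ⊤ h, sum_const, card_powerset, ha, cnt_eq]
  simp only [Nat.add_sub_cancel, nsmul_eq_mul, pow_succ]
  push_cast
  ring

lemma rel2 {S : Finset (Fin d → ℝ)} (h : GP (ev (d := d)) (d + 1) ⊤ S) (hS : S.Nonempty)
    (hp : Even (S.card + (d + 1))) :
    ∑ m ∈ range (S.card + 1), (-1 : ℤ) ^ m * rt S m = 0 := by
  rw [sum_rt S (fun m => (-1) ^ m)]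
  have h1 := signed_sum hS h hp
  have h2 := sum_powerset_neg_one_pow_card_of_nonempty hS
  simp only [mul_sub, mul_one, sum_sub_distrib, h2, h1, sub_self]

lemma rel3 {S : Finset (Fin d → ℝ)} (h : GP (ev (d := d)) (d + 1) ⊤ S) :
    ∑ m ∈ range (d + 2 + 1), pt S m = 2 * (S.card.choose (d + 2) : ℤ) := by
  have h1 := sum_pt S (fun _ => 1)
  simp only [one_mul] at h1
  rw [h1, sum_congr rfl (fun R hR => sum_circuit (h.mono (mem_powersetCard.mp hR).1)
    (mem_powersetCard.mp hR).2), sum_const, card_powersetCard, nsmul_eq_mul]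
  ring

lemma rel4 {S : Finset (Fin d → ℝ)} (h : GP (ev (d := d)) (d + 1) ⊤ S) :
    ∑ m ∈ range (S.card + 1), ((m : ℤ) * (S.card - m)) * rt S m -
      ∑ m ∈ range (d + 2 + 1), ((m : ℤ) * (d + 2 - m)) * pt S m =
      (S.card * (S.card - 1) : ℕ) * (2 ^ (S.card - 2) -
        ∑ k ∈ range (d + 1), ((S.card - 2).choose k : ℤ)) := by
  rw [sum_rt S (fun m => (m : ℤ) * (S.card - m)), sum_pt S (fun m => (m : ℤ) * (d + 2 - m))]
  have h1 := mixed_identity h
  have h2 := sum_card_mul S
  have h3 : ∑ T ∈ S.powerset, ((T.card : ℤ) * (S.card - T.card)) *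
      (1 - tau (ev (d := d)) ⊤ S T) = ∑ T ∈ S.powerset, ((T.card : ℤ) * (S.card - T.card)) -
        ∑ T ∈ S.powerset, tau (ev (d := d)) ⊤ S T * ((T.card : ℤ) * (S.card - T.card)) := by
    rw [← sum_sub_distrib]
    exact sum_congr rfl fun T _ => by ring
  have h4 : ∑ R ∈ S.powersetCard (d + 2), ∑ T ∈ R.powerset,
      ((T.card : ℤ) * (d + 2 - T.card)) * (1 - tau (ev (d := d)) ⊤ R T) =
      ∑ R ∈ S.powersetCard (d + 1 + 1), ∑ T ∈ R.powerset, (1 - tau (ev (d := d)) ⊤ R T) *
        ((T.card : ℤ) * (R.card - T.card : ℤ)) := by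
    refine sum_congr rfl fun R hR => sum_congr rfl fun T _ => ?_
    rw [(mem_powersetCard.mp hR).2]
    push_cast
    ring
  rw [h3, h4, h2]
  push_cast at h1 ⊢
  linarith

/-- `s = d + 2` -/
lemma rel5 {S : Finset (Fin d → ℝ)} (hS : S.card = d + 2) (m : ℕ) : pt S m = rt S m := by
  rw [pt_eq_cc, rt_eq_cc, ← hS, powersetCard_self, sum_singleton]

/-- `s = d + 3` -/
lemma rel6 {S : Finset (Fin d → ℝ)} (h : GP (ev (d := d)) (d + 1) ⊤ S) (hS : S.card = d + 3)
    (m : ℕ) : 2 * rt S (m + 1) = pt S (m + 1) + pt S m := by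
  have h1 : 2 * rt S (m + 1) =
      ∑ T ∈ S.powersetCard (m + 1), ∑ B ∈ S.powersetCard (d + 2), (1 - tau (ev (d := d)) ⊤ B T) := by
    rw [rt_eq_cc]
    unfold cc
    rw [mul_sum]
    exact sum_congr rfl fun T _ => (two_circuits h (by omega) T).symm
  rw [h1, sum_comm, pt_eq_cc, pt_eq_cc, ← sum_add_distrib]
  refine sum_congr rfl fun R hR => ?_
  obtain ⟨hRS, hRc⟩ := mem_powersetCard.mp hR
  obtain ⟨x, hx⟩ : ∃ x, x ∈ S \ R := by
    have : 0 < (S \ R).card := by rw [card_sdiff_of_subset hRS]; omega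
    exact card_pos.mp this
  have hxS := (mem_sdiff.mp hx).1
  have hxR := (mem_sdiff.mp hx).2
  have e : S = insert x R := by
    symm
    apply eq_of_subset_of_card_le (insert_subset hxS hRS)
    rw [card_insert_of_notMem hxR]; omega
  rw [e, powersetCard_succ_insert hxR, sum_union, sum_image]
  · unfold cc
    congr 1
    refine sum_congr rfl fun T hT => ?_
    rw [tau_congr]
    intro v hv
    have : v ≠ x := fun h => hxR (h ▸ hv)
    simp [this]
  · intro R1 hR1 R2 hR2 hRR
    have h1 : x ∉ R1 := fun h => hxR ((mem_powersetCard.mp hR1).1 h)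
    have h2 : x ∉ R2 := fun h => hxR ((mem_powersetCard.mp hR2).1 h)
    have := congrArg (fun s => s.erase x) hRR
    simpa [erase_insert h1, erase_insert h2] using this
  · rw [disjoint_left]
    intro R1 h1 h2
    obtain ⟨R'', -, rfl⟩ := mem_image.mp h2
    exact hxR ((mem_powersetCard.mp h1).1 (mem_insert_self _ _))

/-! ### dimension one -/

lemma tau_one_bound {S : Finset (Fin 1 → ℝ)} {m : ℕ} (h1 : 1 ≤ m) (h2 : m < S.card) :
    ∑ T ∈ S.powersetCard m, tau (ev (d := 1)) ⊤ S T ≤ 2 := by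
  classical
  set F := (S.powersetCard m).filter fun T => Sep (ev (d := 1)) ⊤ S T with hF
  have e : ∑ T ∈ S.powersetCard m, tau (ev (d := 1)) ⊤ S T = F.card := by
    rw [hF, card_filter]
    push_cast
    refine sum_congr rfl fun T _ => ?_
    unfold tau
    congr
  rw [e]
  -- upper and lower sets
  have key : ∀ T ∈ F, (∀ p ∈ T, ∀ q ∈ S \ T, q 0 < p 0) ∨ (∀ p ∈ T, ∀ q ∈ S \ T, p 0 < q 0) := by
    intro T hT
    obtain ⟨hT1, f, -, hf1, hf2⟩ := mem_filter.mp hT
    obtain ⟨hTS, hTc⟩ := mem_powersetCard.mp hT1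
    have hlin : ∀ p : Fin 1 → ℝ, f.1 p = p 0 * f.1 1 := by
      intro p
      have : p = p 0 • (1 : Fin 1 → ℝ) := by
        ext i; rw [Subsingleton.elim i 0]; simp
      conv_lhs => rw [this]
      rw [map_smul, smul_eq_mul]
    have hpos : ∀ p ∈ T, 0 < p 0 * f.1 1 + f.2 := fun p hp => by
      have := hf1 p (hTS hp) hp
      rwa [ev_apply, hlin] at this
    have hneg : ∀ q ∈ S \ T, q 0 * f.1 1 + f.2 < 0 := fun q hq => by
      have := hf2 q (mem_sdiff.mp hq).1 (mem_sdiff.mp hq).2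
      rwa [ev_apply, hlin] at this
    rcases lt_trichotomy (f.1 1) 0 with h | h | h
    · right
      intro p hp q hq
      have a := hpos p hp
      have b := hneg q hq
      by_contra hc
      push Not at hc
      nlinarith
    · exfalso
      obtain ⟨p, hp⟩ : T.Nonempty := card_pos.mp (by omega)
      obtain ⟨q, hq⟩ : (S \ T).Nonempty := card_pos.mp (by
        rw [card_sdiff_of_subset hTS]; omega)
      have a := hpos p hp
      have b := hneg q hq
      rw [h] at a b
      linarith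
    · left
      intro p hp q hq
      have a := hpos p hp
      have b := hneg q hq
      by_contra hc
      push Not at hc
      nlinarith
  have uniq : ∀ T ∈ F, ∀ T' ∈ F, ∀ r : ℝ → ℝ → Prop, (∀ a b, r a b → ¬ r b a) →
      (∀ p ∈ T, ∀ q ∈ S \ T, r (q 0) (p 0)) → (∀ p ∈ T', ∀ q ∈ S \ T', r (q 0) (p 0)) → T = T' := by
    intro T hT T' hT' r hr h3 h4
    obtain ⟨hTS, hTc⟩ := mem_powersetCard.mp (mem_filter.mp hT).1
    obtain ⟨hTS', hTc'⟩ := mem_powersetCard.mp (mem_filter.mp hT').1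
    by_contra hne
    obtain ⟨p, hp⟩ : (T \ T').Nonempty := by
      rw [nonempty_iff_ne_empty, Ne, sdiff_eq_empty_iff_subset]
      intro hsub
      exact hne (eq_of_subset_of_card_le hsub (by omega))
    obtain ⟨q, hq⟩ : (T' \ T).Nonempty := by
      rw [nonempty_iff_ne_empty, Ne, sdiff_eq_empty_iff_subset]
      intro hsub
      exact hne (eq_of_subset_of_card_le hsub (by omega)).symm
    rw [mem_sdiff] at hp hq
    exact hr _ _ (h3 p hp.1 q (mem_sdiff.mpr ⟨hTS' hq.1, hq.2⟩))
      (h4 q hq.1 p (mem_sdiff.mpr ⟨hTS hp.1, hp.2⟩))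
  have hcard : F.card ≤ 2 := by
    have : F.card ≤ (univ : Finset Bool).card := by
      refine card_le_card_of_injOn (fun T => decide (∀ p ∈ T, ∀ q ∈ S \ T, q 0 < p 0))
        (fun _ _ => mem_univ _) ?_
      intro T hT T' hT' hTT
      simp only [decide_eq_decide] at hTT
      by_cases hc : ∀ p ∈ T, ∀ q ∈ S \ T, q 0 < p 0
      · exact uniq T hT T' hT' (fun a b => a < b) (fun a b h => not_lt.mpr h.le) hc (hTT.mp hc)
      · have a1 := (key T hT).resolve_left hc
        have a2 := (key T' hT').resolve_left (fun h => hc (hTT.mpr h))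
        exact uniq T hT T' hT' (fun a b => b < a) (fun a b h => not_lt.mpr h.le) a1 a2
    simpa using this
  exact_mod_cast hcard

lemma rel7 {S : Finset (Fin 1 → ℝ)} (h : GP (ev (d := 1)) (1 + 1) ⊤ S) {m : ℕ} (h1 : 1 ≤ m)
    (h2 : m < S.card) : rt S m = S.card.choose m - 2 := by
  have hle : ∀ m, 1 ≤ m → m < S.card → ∑ T ∈ S.powersetCard m, tau (ev (d := 1)) ⊤ S T ≤ 2 :=
    fun m h1 h2 => tau_one_bound h1 h2
  have htot : ∑ m ∈ range (S.card + 1), ∑ T ∈ S.powersetCard m, tau (ev (d := 1)) ⊤ S T =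
      2 * S.card := by
    rw [← sum_powerset, sum_tau S (1 + 1) ⊤ h]
    obtain ⟨a, ha⟩ : ∃ a, S.card = a + 1 := ⟨S.card - 1, by omega⟩
    rw [ha, cnt_eq]
    simp [sum_range_succ]
    ring
  have h0 : ∑ T ∈ S.powersetCard 0, tau (ev (d := 1)) ⊤ S T = 1 := by
    rw [powersetCard_zero, sum_singleton, tau_eq_one]
    exact ⟨(0, -1), Submodule.mem_top, by simp, by simp⟩
  have hs : ∑ T ∈ S.powersetCard S.card, tau (ev (d := 1)) ⊤ S T = 1 := by
    rw [powersetCard_self, sum_singleton, tau_eq_one]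
    exact ⟨(0, 1), Submodule.mem_top, by simp, fun v hv hv' => absurd hv hv'⟩
  have heq : ∑ T ∈ S.powersetCard m, tau (ev (d := 1)) ⊤ S T = 2 := by
    rw [sum_range_succ, hs] at htot
    obtain ⟨a, ha⟩ : ∃ a, S.card = a + 1 := ⟨S.card - 1, by omega⟩
    rw [ha, sum_range_succ'] at htot
    rw [h0] at htot
    have h3 : ∑ k ∈ range a, (2 - ∑ T ∈ S.powersetCard (k + 1), tau (ev (d := 1)) ⊤ S T) = 0 := by
      rw [sum_sub_distrib, sum_const, card_range, nsmul_eq_mul]
      push_cast at htot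
      linarith
    have h4 := (sum_eq_zero_iff_of_nonneg (fun k hk => by
      have := hle (k + 1) (by omega) (by rw [mem_range] at hk; omega)
      linarith)).mp h3 (m - 1) (by rw [mem_range]; omega)
    rw [Nat.sub_add_cancel h1] at h4
    linarith
  unfold rt
  rw [sum_sub_distrib, heq, sum_const, card_powersetCard, nsmul_eq_mul, mul_one]

end Pool.Agent.L5helper36.Radon
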