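import Mathlib

/-! Sign patterns of linear forms on subspaces; deletion and restriction. -/

set_option linter.unusedSectionVars false

namespace Pool.Agent.L5helper36.Radon

open Finset

variable {M : Type*} [AddCommGroup M] [Module ℝ M] {ι : Type*} [DecidableEq ι]

/-- The sign pattern `T` on `B` (positive on `T`, negative off `T`) is taken by some `f ∈ U`. -/
def Sep (φ : ι → M →ₗ[ℝ] ℝ) (U : Submodule ℝ M) (B T : Finset ι) : Prop :=
  ∃ f ∈ U, (∀ v ∈ B, v ∈ T → 0 < φ v f) ∧ (∀ v ∈ B, v ∉ T → φ v f < 0)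

/-- restriction of the subspace to the kernel of `φ x` -/
def res (φ : ι → M →ₗ[ℝ] ℝ) (U : Submodule ℝ M) (x : ι) : Submodule ℝ M :=
  U ⊓ LinearMap.ker (φ x)

lemma mem_res {φ : ι → M →ₗ[ℝ] ℝ} {U : Submodule ℝ M} {x : ι} {f : M} :
    f ∈ res φ U x ↔ f ∈ U ∧ φ x f = 0 := by
  simp [res, Submodule.mem_inf]

lemma Sep.mono {φ : ι → M →ₗ[ℝ] ℝ} {U : Submodule ℝ M} {B B' T : Finset ι} (h : Sep φ U B T)
    (hB : B' ⊆ B) : Sep φ U B' T := by
  obtain ⟨f, hf, h1, h2⟩ := h
  exact ⟨f, hf, fun v hv => h1 v (hB hv), fun v hv => h2 v (hB hv)⟩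

lemma Sep.congr {φ : ι → M →ₗ[ℝ] ℝ} {U : Submodule ℝ M} {B T T' : Finset ι} (h : Sep φ U B T)
    (hB : ∀ v ∈ B, v ∈ T ↔ v ∈ T') : Sep φ U B T' := by
  obtain ⟨f, hf, h1, h2⟩ := h
  exact ⟨f, hf, fun v hv hv' => h1 v hv ((hB v hv).2 hv'),
    fun v hv hv' => h2 v hv (fun h => hv' ((hB v hv).1 h))⟩

lemma sep_congr {φ : ι → M →ₗ[ℝ] ℝ} {U : Submodule ℝ M} {B T T' : Finset ι}
    (hB : ∀ v ∈ B, v ∈ T ↔ v ∈ T') : Sep φ U B T ↔ Sep φ U B T' :=
  ⟨fun h => h.congr hB, fun h => h.congr fun v hv => (hB v hv).symm⟩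

lemma sep_sdiff {φ : ι → M →ₗ[ℝ] ℝ} {U : Submodule ℝ M} {B T : Finset ι} :
    Sep φ U B (B \ T) ↔ Sep φ U B T := by
  constructor
  · rintro ⟨f, hf, h1, h2⟩
    refine ⟨-f, U.neg_mem hf, fun v hv hv' => ?_, fun v hv hv' => ?_⟩
    · have := h2 v hv (by simp [hv'])
      simp only [map_neg]; linarith
    · have := h1 v hv (by simp [hv, hv'])
      simp only [map_neg]; linarith
  · rintro ⟨f, hf, h1, h2⟩
    refine ⟨-f, U.neg_mem hf, fun v hv hv' => ?_, fun v hv hv' => ?_⟩
    · have := h2 v hv (by simp only [mem_sdiff] at hv'; exact hv'.2)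
      simp only [map_neg]; linarith
    · have := h1 v hv (by
        simp only [mem_sdiff, not_and, not_not] at hv'; exact hv' hv)
      simp only [map_neg]; linarith

/-- a small multiple of any vector may be added without changing a sign pattern -/
lemma exists_small (φ : ι → M →ₗ[ℝ] ℝ) (B : Finset ι) (f g : M) (hf : ∀ v ∈ B, φ v f ≠ 0) :
    ∃ ε : ℝ, 0 < ε ∧ ∀ v ∈ B, ε * |φ v g| < |φ v f| := by
  induction B using Finset.induction_on with
  | empty => exact ⟨1, one_pos, by simp⟩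
  | insert a s ha ih =>
    obtain ⟨ε, hε, h⟩ := ih (fun v hv => hf v (mem_insert_of_mem hv))
    have ha' : 0 < |φ a f| := abs_pos.mpr (hf a (mem_insert_self _ _))
    have hg : 0 ≤ |φ a g| := abs_nonneg _
    refine ⟨min ε (|φ a f| / (|φ a g| + 1)), lt_min hε (by positivity), ?_⟩
    intro v hv
    rcases mem_insert.mp hv with rfl | hv
    · have h1 : min ε (|φ v f| / (|φ v g| + 1)) ≤ |φ v f| / (|φ v g| + 1) := min_le_right _ _
      have h2 : |φ v f| / (|φ v g| + 1) * |φ v g| < |φ v f| := by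
        rw [div_mul_eq_mul_div, div_lt_iff₀ (by positivity)]
        nlinarith
      calc _ ≤ |φ v f| / (|φ v g| + 1) * |φ v g| := mul_le_mul_of_nonneg_right h1 hg
        _ < _ := h2
    · have h1 : min ε (|φ a f| / (|φ a g| + 1)) ≤ ε := min_le_left _ _
      calc _ ≤ ε * |φ v g| := mul_le_mul_of_nonneg_right h1 (abs_nonneg _)
        _ < _ := h v hv

lemma pattern_perturb {φ : ι → M →ₗ[ℝ] ℝ} {B T : Finset ι} {f g : M} {ε : ℝ}
    (h1 : ∀ v ∈ B, v ∈ T → 0 < φ v f) (h2 : ∀ v ∈ B, v ∉ T → φ v f < 0)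
    (hε : ∀ v ∈ B, ε * |φ v g| < |φ v f|) (hε0 : 0 < ε) (s : ℝ) (hs : |s| = 1) :
    (∀ v ∈ B, v ∈ T → 0 < φ v (f + (s * ε) • g)) ∧ (∀ v ∈ B, v ∉ T → φ v (f + (s * ε) • g) < 0) := by
  have key : ∀ v, |s * ε * φ v g| = ε * |φ v g| := by
    intro v
    rw [abs_mul, abs_mul, hs, abs_of_pos hε0, one_mul]
  constructor
  · intro v hv hv'
    have h3 := hε v hv
    rw [abs_of_pos (h1 v hv hv'), ← key] at h3
    rw [map_add, map_smul, smul_eq_mul]
    linarith [neg_abs_le (s * ε * φ v g)]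
  · intro v hv hv'
    have h3 := hε v hv
    rw [abs_of_neg (h2 v hv hv'), ← key] at h3
    rw [map_add, map_smul, smul_eq_mul]
    linarith [le_abs_self (s * ε * φ v g)]

section ext
variable {φ : ι → M →ₗ[ℝ] ℝ} {U : Submodule ℝ M} {B T : Finset ι} {x : ι}

lemma sep_or (hxB : x ∉ B) (hx : ∃ g ∈ U, φ x g ≠ 0) :
    (Sep φ U (insert x B) (insert x T) ∨ Sep φ U (insert x B) (T.erase x)) ↔ Sep φ U B T := by
  constructor
  · rintro (h | h)
    · refine (h.mono (subset_insert x B)).congr fun v hv => ?_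
      have : v ≠ x := fun h => hxB (h ▸ hv)
      simp [this]
    · refine (h.mono (subset_insert x B)).congr fun v hv => ?_
      have : v ≠ x := fun h => hxB (h ▸ hv)
      simp [this]
  · rintro ⟨f, hf, h1, h2⟩
    have hne : ∀ v ∈ B, v ≠ x := fun v hv h => hxB (h ▸ hv)
    obtain ⟨f', hf', h1', h2', h0'⟩ : ∃ f' ∈ U, (∀ v ∈ B, v ∈ T → 0 < φ v f') ∧
        (∀ v ∈ B, v ∉ T → φ v f' < 0) ∧ φ x f' ≠ 0 := by
      by_cases h0 : φ x f = 0
      · obtain ⟨g, hg, hgx⟩ := hx
        obtain ⟨ε, hε, hsm⟩ := exists_small φ B f g (by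
          intro v hv
          by_cases hT : v ∈ T
          · exact (h1 v hv hT).ne'
          · exact (h2 v hv hT).ne)
        obtain ⟨k1, k2⟩ := pattern_perturb h1 h2 hsm hε 1 (by simp)
        refine ⟨_, U.add_mem hf (U.smul_mem (1 * ε) hg), k1, k2, ?_⟩
        rw [map_add, h0, map_smul, smul_eq_mul, zero_add, one_mul]
        exact mul_ne_zero hε.ne' hgx
      · exact ⟨f, hf, h1, h2, h0⟩
    rcases lt_or_gt_of_ne h0' with h | h
    · right
      refine ⟨f', hf', fun v hv hv' => ?_, fun v hv hv' => ?_⟩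
      · rcases mem_insert.mp hv with rfl | hv
        · simp at hv'
        · exact h1' v hv (mem_of_mem_erase hv')
      · rcases mem_insert.mp hv with rfl | hv
        · exact h
        · exact h2' v hv (fun hT => hv' (mem_erase.mpr ⟨hne v hv, hT⟩))
    · left
      refine ⟨f', hf', fun v hv hv' => ?_, fun v hv hv' => ?_⟩
      · rcases mem_insert.mp hv with rfl | hv
        · exact h
        · exact h1' v hv ((mem_insert.mp hv').resolve_left (hne v hv))
      · rcases mem_insert.mp hv with rfl | hv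
        · simp at hv'
        · exact h2' v hv (fun hT => hv' (mem_insert_of_mem hT))

lemma sep_and (hxB : x ∉ B) (hx : ∃ g ∈ U, φ x g ≠ 0) :
    (Sep φ U (insert x B) (insert x T) ∧ Sep φ U (insert x B) (T.erase x)) ↔
      Sep φ (res φ U x) B T := by
  have hne : ∀ v ∈ B, v ≠ x := fun v hv h => hxB (h ▸ hv)
  constructor
  · rintro ⟨⟨f, hf, h1, h2⟩, ⟨g, hg, k1, k2⟩⟩
    have hfx : 0 < φ x f := h1 x (mem_insert_self _ _) (mem_insert_self _ _)
    have hgx : φ x g < 0 := k2 x (mem_insert_self _ _) (by simp)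
    refine ⟨(-φ x g) • f + (φ x f) • g, ?_, fun v hv hv' => ?_, fun v hv hv' => ?_⟩
    · rw [mem_res]
      refine ⟨U.add_mem (U.smul_mem _ hf) (U.smul_mem _ hg), ?_⟩
      simp only [map_add, map_smul, smul_eq_mul]
      ring
    · have a1 := h1 v (mem_insert_of_mem hv) (mem_insert_of_mem hv')
      have a2 := k1 v (mem_insert_of_mem hv) (mem_erase.mpr ⟨hne v hv, hv'⟩)
      simp only [map_add, map_smul, smul_eq_mul]
      have := mul_pos (neg_pos.mpr hgx) a1
      have := mul_pos hfx a2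
      linarith
    · have a1 := h2 v (mem_insert_of_mem hv) (by
        rw [mem_insert]; rintro (h | h)
        · exact hne v hv h
        · exact hv' h)
      have a2 := k2 v (mem_insert_of_mem hv) (fun h => hv' (mem_of_mem_erase h))
      simp only [map_add, map_smul, smul_eq_mul]
      have := mul_neg_of_pos_of_neg (neg_pos.mpr hgx) a1
      have := mul_neg_of_pos_of_neg hfx a2
      linarith
  · rintro ⟨f, hf, h1, h2⟩
    rw [mem_res] at hf
    obtain ⟨g, hg, hgx⟩ := hx
    obtain ⟨ε, hε, hsm⟩ := exists_small φ B f g (by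
      intro v hv
      by_cases hT : v ∈ T
      · exact (h1 v hv hT).ne'
      · exact (h2 v hv hT).ne)
    obtain ⟨s, hs1, hs2⟩ : ∃ s : ℝ, |s| = 1 ∧ 0 < s * φ x g := by
      rcases lt_or_gt_of_ne hgx with h | h
      · exact ⟨-1, by simp, by linarith⟩
      · exact ⟨1, by simp, by linarith⟩
    constructor
    · obtain ⟨k1, k2⟩ := pattern_perturb h1 h2 hsm hε s hs1
      refine ⟨f + (s * ε) • g, U.add_mem hf.1 (U.smul_mem _ hg), fun v hv hv' => ?_,
        fun v hv hv' => ?_⟩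
      · rcases mem_insert.mp hv with rfl | hv
        · rw [map_add, hf.2, map_smul, smul_eq_mul, zero_add]
          have : s * ε * φ v g = ε * (s * φ v g) := by ring
          rw [this]; positivity
        · exact k1 v hv ((mem_insert.mp hv').resolve_left (hne v hv))
      · rcases mem_insert.mp hv with rfl | hv
        · simp at hv'
        · exact k2 v hv (fun hT => hv' (mem_insert_of_mem hT))
    · obtain ⟨k1, k2⟩ := pattern_perturb h1 h2 hsm hε (-s) (by simpa using hs1)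
      refine ⟨f + (-s * ε) • g, U.add_mem hf.1 (U.smul_mem _ hg), fun v hv hv' => ?_,
        fun v hv hv' => ?_⟩
      · rcases mem_insert.mp hv with rfl | hv
        · simp at hv'
        · exact k1 v hv (mem_of_mem_erase hv')
      · rcases mem_insert.mp hv with rfl | hv
        · rw [map_add, hf.2, map_smul, smul_eq_mul, zero_add]
          have : -s * ε * φ v g = -(ε * (s * φ v g)) := by ring
          rw [this, neg_lt_zero]; positivity
        · exact k2 v hv (fun hT => hv' (mem_erase.mpr ⟨hne v hv, hT⟩))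

end ext

open Classical in
/-- indicator of `Sep` -/
noncomputable def tau (φ : ι → M →ₗ[ℝ] ℝ) (U : Submodule ℝ M) (B T : Finset ι) : ℤ :=
  if Sep φ U B T then 1 else 0

lemma tau_congr {φ : ι → M →ₗ[ℝ] ℝ} {U : Submodule ℝ M} {B T T' : Finset ι}
    (hB : ∀ v ∈ B, v ∈ T ↔ v ∈ T') : tau φ U B T = tau φ U B T' := by
  unfold tau
  by_cases h : Sep φ U B T
  · rw [if_pos h, if_pos ((sep_congr hB).mp h)]
  · rw [if_neg h, if_neg (fun h' => h ((sep_congr hB).mpr h'))]

lemma tau_ext {φ : ι → M →ₗ[ℝ] ℝ} {U : Submodule ℝ M} {B T : Finset ι} {x : ι}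
    (hxB : x ∉ B) (hx : ∃ g ∈ U, φ x g ≠ 0) :
    tau φ U (insert x B) (insert x T) + tau φ U (insert x B) (T.erase x) =
      tau φ U B T + tau φ (res φ U x) B T := by
  have a := sep_or (T := T) hxB hx
  have b := sep_and (T := T) hxB hx
  unfold tau
  by_cases h1 : Sep φ U (insert x B) (insert x T) <;>
    by_cases h2 : Sep φ U (insert x B) (T.erase x) <;>
    simp only [h1, h2, true_or, or_true, false_or, or_false, and_true, true_and, and_false,
      false_and, or_self, and_self, true_iff, false_iff] at a b <;> simp [h1, h2, a, b]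

/-- `n` is the dimension of `U` and the forms `φ v`, `v ∈ A`, are in general position on `U`. -/
structure GP (φ : ι → M →ₗ[ℝ] ℝ) (n : ℕ) (U : Submodule ℝ M) (A : Finset ι) : Prop where
  rank : Module.finrank ℝ U = n
  gen : ∀ Z ⊆ A, Z.card < n → ∀ x ∈ A, x ∉ Z → ∃ f ∈ U, (∀ z ∈ Z, φ z f = 0) ∧ φ x f ≠ 0

lemma GP.mono {φ : ι → M →ₗ[ℝ] ℝ} {n : ℕ} {U : Submodule ℝ M} {A B : Finset ι}
    (h : GP φ n U A) (hB : B ⊆ A) : GP φ n U B :=
  ⟨h.rank, fun Z hZ hn x hx hxZ => h.gen Z (hZ.trans hB) hn x (hB hx) hxZ⟩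

lemma GP.exists_ne {φ : ι → M →ₗ[ℝ] ℝ} {n : ℕ} {U : Submodule ℝ M} {A : Finset ι}
    (h : GP φ (n + 1) U A) {x : ι} (hx : x ∈ A) : ∃ g ∈ U, φ x g ≠ 0 := by
  obtain ⟨f, hf, -, h2⟩ := h.gen ∅ (empty_subset _) (by simp) x hx (by simp)
  exact ⟨f, hf, h2⟩

lemma finrank_res [FiniteDimensional ℝ M] {φ : ι → M →ₗ[ℝ] ℝ} {U : Submodule ℝ M} {x : ι}
    (hx : ∃ g ∈ U, φ x g ≠ 0) : Module.finrank ℝ (res φ U x) + 1 = Module.finrank ℝ U := by
  obtain ⟨g, hg, hgx⟩ := hx
  have h0 : (φ x).domRestrict U ≠ 0 := by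
    intro h
    apply hgx
    have := LinearMap.congr_fun h ⟨g, hg⟩
    simpa using this
  have h1 := Module.Dual.finrank_ker_add_one_of_ne_zero (f := (φ x).domRestrict U) h0
  rw [← h1]
  congr 1
  have h2 : (LinearMap.ker ((φ x).domRestrict U)).map U.subtype = res φ U x := by
    ext f
    simp only [Submodule.mem_map, LinearMap.mem_ker, mem_res]
    constructor
    · rintro ⟨⟨y, hy⟩, h, rfl⟩
      exact ⟨hy, by simpa using h⟩
    · rintro ⟨h1, h2⟩
      exact ⟨⟨f, h1⟩, by simpa using h2, rfl⟩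
  rw [← h2]
  exact (LinearEquiv.finrank_eq (Submodule.equivMapOfInjective U.subtype
    (Submodule.injective_subtype U) (LinearMap.ker ((φ x).domRestrict U)))).symm

lemma GP.res [FiniteDimensional ℝ M] {φ : ι → M →ₗ[ℝ] ℝ} {n : ℕ} {U : Submodule ℝ M}
    {A : Finset ι} {x : ι} (h : GP φ (n + 1) U (insert x A)) (hx : x ∉ A) :
    GP φ n (res φ U x) A := by
  refine ⟨?_, fun Z hZ hn y hy hyZ => ?_⟩
  · have := finrank_res (h.exists_ne (mem_insert_self x A))
    have h2 := h.rank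
    omega
  · have hxZ : x ∉ Z := fun h' => hx (hZ h')
    have hyx : y ≠ x := fun h' => hx (h' ▸ hy)
    obtain ⟨f, hf, h1, h2⟩ := h.gen (insert x Z) (insert_subset_insert x hZ)
      (by rw [card_insert_of_notMem hxZ]; omega) y (mem_insert_of_mem hy) (by
        rw [mem_insert]; rintro (h | h)
        · exact hyx h
        · exact hyZ h)
    exact ⟨f, mem_res.mpr ⟨hf, h1 x (mem_insert_self _ _)⟩,
      fun z hz => h1 z (mem_insert_of_mem hz), h2⟩

lemma GP.eq_zero [FiniteDimensional ℝ M] {φ : ι → M →ₗ[ℝ] ℝ} {U : Submodule ℝ M}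
    {A : Finset ι} (h : GP φ 0 U A) {f : M} (hf : f ∈ U) : f = 0 := by
  have : U = ⊥ := Submodule.finrank_eq_zero.mp h.rank
  rw [this] at hf
  simpa using hf

lemma not_sep_zero [FiniteDimensional ℝ M] {φ : ι → M →ₗ[ℝ] ℝ} {U : Submodule ℝ M}
    {A B T : Finset ι} (h : GP φ 0 U A) (hB : B.Nonempty) : ¬ Sep φ U B T := by
  rintro ⟨f, hf, h1, h2⟩
  obtain ⟨v, hv⟩ := hB
  have h0 := h.eq_zero hf
  subst h0
  by_cases hT : v ∈ T
  · simpa using h1 v hv hT
  · simpa using h2 v hv hT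

lemma sep_empty {φ : ι → M →ₗ[ℝ] ℝ} {U : Submodule ℝ M} {T : Finset ι} : Sep φ U ∅ T :=
  ⟨0, U.zero_mem, by simp, by simp⟩

/-- deletion and restriction for weighted sums over the sign patterns which occur -/
lemma sum_tau_insert {φ : ι → M →ₗ[ℝ] ℝ} {U : Submodule ℝ M} {A : Finset ι} {x : ι}
    (hxA : x ∉ A) (hx : ∃ g ∈ U, φ x g ≠ 0) (g : Finset ι → ℤ)
    (hg : ∀ T ⊆ A, g (insert x T) = g T) :
    ∑ T ∈ (insert x A).powerset, tau φ U (insert x A) T * g T =
      ∑ T ∈ A.powerset, tau φ U A T * g T + ∑ T ∈ A.powerset, tau φ (res φ U x) A T * g T := by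
  rw [sum_powerset_insert hxA, ← sum_add_distrib, ← sum_add_distrib]
  refine sum_congr rfl fun T hT => ?_
  rw [mem_powerset] at hT
  have hxT : x ∉ T := fun h => hxA (hT h)
  rw [hg T hT, ← add_mul, ← add_mul]
  congr 1
  have := tau_ext (T := T) hxA hx
  rw [erase_eq_of_notMem hxT] at this
  rw [← this]; ring

/-- number of sign patterns of `a` forms in general position in dimension `n` -/
def cnt : ℕ → ℕ → ℕ
  | 0, _ => 1
  | _ + 1, 0 => 0
  | a + 1, n + 1 => cnt a (n + 1) + cnt a n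

theorem sum_tau [FiniteDimensional ℝ M] {φ : ι → M →ₗ[ℝ] ℝ} (A : Finset ι) :
    ∀ (n : ℕ) (U : Submodule ℝ M), GP φ n U A →
      ∑ T ∈ A.powerset, tau φ U A T = cnt A.card n := by
  induction A using Finset.induction_on with
  | empty =>
    intro n U _
    simp [tau, sep_empty, cnt]
  | insert x A hx ih =>
    intro n U h
    rw [card_insert_of_notMem hx]
    cases n with
    | zero =>
      rw [cnt]
      refine sum_eq_zero fun T _ => ?_
      simp [tau, not_sep_zero h (insert_nonempty x A)]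
    | succ n =>
      rw [cnt]
      have := sum_tau_insert hx (h.exists_ne (mem_insert_self x A)) (fun _ => 1) (by simp)
      simp only [mul_one] at this
      rw [this, ih _ _ (h.mono (subset_insert x A)), ih _ _ (h.res hx)]
      push_cast; rfl

lemma cnt_eq : ∀ a n : ℕ, cnt (a + 1) n = 2 * ∑ k ∈ range n, a.choose k
  | 0, 0 => by simp [cnt]
  | 0, n + 1 => by
    rw [cnt, cnt, cnt, sum_range_succ']
    simp
  | a + 1, 0 => by simp [cnt]
  | a + 1, n + 1 => by
    rw [cnt, cnt_eq a (n + 1), cnt_eq a n, sum_range_succ' (fun k => (a + 1).choose k)]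
    simp only [Nat.choose_succ_succ, sum_add_distrib, Nat.choose_zero_right]
    rw [sum_range_succ' (fun k => a.choose k)]
    simp only [Nat.choose_zero_right]
    ring

end Pool.Agent.L5helper36.Radon
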