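import Pool.Agent.L5helper36.Radon.Conf
import Pool.Agent.L5helper36.Radon.Rel

/-! From forms to points. -/

set_option linter.unusedSectionVars false

namespace Pool.Agent.L5helper36.Radon

open Finset Filter Topology

variable {d : ℕ}

lemma sep_image {ρ : (Fin d → ℝ) → (Fin d → ℝ)} {Y B T : Finset (Fin d → ℝ)}
    (hρ : Set.InjOn ρ Y) (hB : B ⊆ Y) (hT : T ⊆ B) :
    Sep (ev (d := d)) ⊤ (B.image ρ) (T.image ρ) ↔ Sep (fun v => ev (ρ v)) ⊤ B T := by
  constructor
  · rintro ⟨f, hf, h1, h2⟩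
    refine ⟨f, hf, fun v hv hv' => h1 _ (mem_image_of_mem ρ hv) (mem_image_of_mem ρ hv'),
      fun v hv hv' => h2 _ (mem_image_of_mem ρ hv) fun h => ?_⟩
    obtain ⟨v', h3, h4⟩ := mem_image.mp h
    exact hv' (hρ (hB (hT h3)) (hB hv) h4 ▸ h3)
  · rintro ⟨f, hf, h1, h2⟩
    refine ⟨f, hf, fun w hw hw' => ?_, fun w hw hw' => ?_⟩
    · obtain ⟨v, hv, rfl⟩ := mem_image.mp hw'
      exact h1 v (hT hv) hv
    · obtain ⟨v, hv, rfl⟩ := mem_image.mp hw
      exact h2 v hv fun h => hw' (mem_image_of_mem ρ h)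

lemma tau_image {ρ : (Fin d → ℝ) → (Fin d → ℝ)} {Y B T : Finset (Fin d → ℝ)}
    (hρ : Set.InjOn ρ Y) (hB : B ⊆ Y) (hT : T ⊆ B) :
    tau (ev (d := d)) ⊤ (B.image ρ) (T.image ρ) = tau (fun v => ev (ρ v)) ⊤ B T := by
  unfold tau
  by_cases h : Sep (fun v => ev (ρ v)) ⊤ B T
  · rw [if_pos h, if_pos ((sep_image hρ hB hT).mpr h)]
  · rw [if_neg h, if_neg fun h' => h ((sep_image hρ hB hT).mp h')]

lemma sum_powersetCard_image {α : Type*} [DecidableEq α] {ρ : α → α} {B : Finset α}
    (hρ : Set.InjOn ρ B) (m : ℕ) (F : Finset α → ℤ) :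
    ∑ T ∈ (B.image ρ).powersetCard m, F T = ∑ T ∈ B.powersetCard m, F (T.image ρ) := by
  have e : (B.image ρ).powersetCard m = (B.powersetCard m).image (fun T => T.image ρ) := by
    ext T
    rw [mem_powersetCard, mem_image]
    constructor
    · rintro ⟨h1, h2⟩
      refine ⟨B.filter fun v => ρ v ∈ T, ?_, ?_⟩
      · have h3 : (B.filter fun v => ρ v ∈ T).image ρ = T := by
          ext w
          simp only [mem_image, mem_filter]
          constructor
          · rintro ⟨v, ⟨-, h⟩, rfl⟩; exact h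
          · intro hw
            obtain ⟨v, hv, rfl⟩ := mem_image.mp (h1 hw)
            exact ⟨v, ⟨hv, hw⟩, rfl⟩
        rw [mem_powersetCard]
        refine ⟨filter_subset _ _, ?_⟩
        rw [← h2]
        conv_rhs => rw [← h3]
        exact (card_image_of_injOn (hρ.mono (by
          intro v hv
          exact (mem_filter.mp hv).1))).symm
      · ext w
        simp only [mem_image, mem_filter]
        constructor
        · rintro ⟨v, ⟨-, h⟩, rfl⟩; exact h
        · intro hw
          obtain ⟨v, hv, rfl⟩ := mem_image.mp (h1 hw)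
          exact ⟨v, ⟨hv, hw⟩, rfl⟩
    · rintro ⟨T', h1, rfl⟩
      rw [mem_powersetCard] at h1
      exact ⟨image_subset_image h1.1, by
        rw [card_image_of_injOn (hρ.mono (by exact_mod_cast h1.1)), h1.2]⟩
  rw [e, sum_image]
  intro T hT T' hT' h
  rw [mem_coe, mem_powersetCard] at hT hT'
  ext v
  constructor
  · intro hv
    have : ρ v ∈ T'.image ρ := by
      have h' : T.image ρ = T'.image ρ := h
      rw [← h']; exact mem_image_of_mem ρ hv
    obtain ⟨v', h3, h4⟩ := mem_image.mp this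
    exact hρ (hT'.1 h3) (hT.1 hv) h4 ▸ h3
  · intro hv
    have : ρ v ∈ T.image ρ := by
      have h' : T.image ρ = T'.image ρ := h
      rw [h']; exact mem_image_of_mem ρ hv
    obtain ⟨v', h3, h4⟩ := mem_image.mp this
    exact hρ (hT.1 h3) (hT'.1 hv) h4 ▸ h3

lemma cc_image {ρ : (Fin d → ℝ) → (Fin d → ℝ)} {Y B : Finset (Fin d → ℝ)}
    (hρ : Set.InjOn ρ Y) (hB : B ⊆ Y) (m : ℕ) :
    cc (B.image ρ) m = ccs (fun v => ev (ρ v)) B m := by
  unfold cc ccs
  rw [sum_powersetCard_image (hρ.mono (by exact_mod_cast hB)) m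
    (fun T => 1 - tau (ev (d := d)) ⊤ (B.image ρ) T)]
  refine sum_congr rfl fun T hT => ?_
  rw [tau_image hρ hB (mem_powersetCard.mp hT).1]

lemma rt_image {ρ : (Fin d → ℝ) → (Fin d → ℝ)} {Y : Finset (Fin d → ℝ)}
    (hρ : Set.InjOn ρ Y) (m : ℕ) :
    rt (Y.image ρ) m = ccs (fun v => ev (ρ v)) Y m := cc_image hρ (Subset.refl _) m

lemma pt_image {ρ : (Fin d → ℝ) → (Fin d → ℝ)} {Y : Finset (Fin d → ℝ)}
    (hρ : Set.InjOn ρ Y) (m : ℕ) :
    pt (Y.image ρ) m = ∑ R ∈ Y.powersetCard (d + 2), ccs (fun v => ev (ρ v)) R m := by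
  rw [pt_eq_cc, sum_powersetCard_image hρ (d + 2) (fun R => cc R m)]
  refine sum_congr rfl fun R hR => ?_
  rw [cc_image hρ (mem_powersetCard.mp hR).1]

lemma injOn_of_gp {n : ℕ} {ρ : (Fin d → ℝ) → (Fin d → ℝ)} {Y : Finset (Fin d → ℝ)}
    (h : GP (fun v => ev (ρ v)) (n + 2) ⊤ Y) : Set.InjOn ρ Y := by
  intro v hv v' hv' hvv
  by_contra hne
  obtain ⟨f, -, h1, h2⟩ := h.gen {v} (by simpa using hv) (by simp) v' hv' (by
    simpa using Ne.symm hne)
  have h3 : ev (ρ v) f = 0 := h1 v (mem_singleton_self _)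
  rw [hvv] at h3
  exact h2 h3

lemma generalPosition_image {ρ : (Fin d → ℝ) → (Fin d → ℝ)} {Y : Finset (Fin d → ℝ)}
    (hρ : Set.InjOn ρ Y) (h : GP (fun v => ev (ρ v)) (d + 1) ⊤ Y) :
    GeneralPosition (Y.image ρ) := by
  rintro T hT hc ⟨f, b, hf, hb⟩
  set T' := Y.filter fun v => ρ v ∈ T with hT'
  have h3 : T'.image ρ = T := by
    ext w
    simp only [hT', mem_image, mem_filter]
    constructor
    · rintro ⟨v, ⟨-, h⟩, rfl⟩; exact h
    · intro hw
      obtain ⟨v, hv, rfl⟩ := mem_image.mp (hT hw)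
      exact ⟨v, ⟨hv, hw⟩, rfl⟩
  have hsub : T' ⊆ Y := filter_subset _ _
  have h4 : T'.card = d + 1 := by
    rw [← hc, ← h3]
    exact (card_image_of_injOn (hρ.mono (by exact_mod_cast hsub))).symm
  have h5 := GP.eq_zero_of_card T' (d + 1) ⊤ (h.mono hsub) h4 ((f, -b) : Aff d)
    Submodule.mem_top (by
      intro v hv
      have := hb (ρ v) (mem_filter.mp hv).2
      rw [ev_apply]
      simp [this])
  exact hf (congrArg Prod.fst h5)

/-- move one point -/
noncomputable def mv (x0 u : Fin d → ℝ) (t : ℝ) (v : Fin d → ℝ) : Fin d → ℝ :=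
  if v = x0 then x0 + t • u else v

/-- evaluation of the linear part -/
noncomputable def lin (u : Fin d → ℝ) : Aff d →ₗ[ℝ] ℝ :=
  (Module.Dual.eval ℝ (Fin d → ℝ) u).comp (LinearMap.fst ℝ _ _)

lemma lin_apply (u : Fin d → ℝ) (f : Aff d) : lin u f = f.1 u := by simp [lin]

lemma shift_eq (x0 u : Fin d → ℝ) (t : ℝ) :
    shift (ev (d := d)) x0 (lin u) t = fun v => ev (mv x0 u t v) := by
  funext v
  by_cases hv : v = x0
  · subst hv
    refine LinearMap.ext fun f => ?_
    rw [shift_self, lin_apply, mv, if_pos rfl, ev_apply, ev_apply, map_add, map_smul, smul_eq_mul]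
    ring
  · refine LinearMap.ext fun f => ?_
    rw [shift_ne _ hv, mv, if_neg hv]

/-- **Mutation pairs.** -/
theorem mut_pair {e i k l : ℕ} (he : 1 ≤ e) (hi1 : 1 ≤ i) (hi2 : i ≤ e + 1) (hkl : 1 ≤ k + l) :
    ∃ S S' : Finset (Fin (e + 1) → ℝ), S.card = e + 2 + k + l ∧ S'.card = e + 2 + k + l ∧
      GeneralPosition S ∧ GeneralPosition S' ∧
      (∀ m : ℕ, rt S m - rt S' m =
        (if i + k = m then 1 else 0) + (if e + 2 - i + l = m then 1 else 0) -
        (if i + l = m then 1 else 0) - (if e + 2 - i + k = m then 1 else 0)) ∧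
      (∀ m : ℕ, pt S m - pt S' m =
        ((l : ℤ) - k) * ((if i = m then 1 else 0) + (if e + 3 - i = m then 1 else 0) -
        (if i + 1 = m then 1 else 0) - (if e + 2 - i = m then 1 else 0))) := by
  classical
  obtain ⟨c, hc, h0, hneg⟩ := exists_coeff e i hi1 hi2
  obtain ⟨Y, hY1, hY2, hY3, hY4, hY5⟩ := exists_conf hc h0 he k l
  set cf : (Fin (e + 1) → ℝ) → ℝ := fun v => ∑ j, if v = ww j then c j else 0 with hcf
  have hcfw : ∀ j, cf (ww j) = c j := by
    intro j
    simp only [hcf]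
    rw [Finset.sum_eq_single j]
    · simp
    · intro b _ hb
      rw [if_neg]
      exact fun h => hb (ww_inj h).symm
    · intro h; exact absurd (mem_univ j) h
  set A : Finset (Fin (e + 1) → ℝ) := insert (pp c) ((univ.filter fun j => c j < 0).image ww)
    with hA
  have hAcard : A.card = i := by
    rw [hA, card_insert_of_notMem, card_image_of_injective _ ww_inj, hneg]
    · omega
    · simp only [mem_image, not_exists, not_and]
      exact fun j _ h => pp_ne_ww hc h0 he j h.symm
  have hAR : A ⊆ RR c := by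
    intro v hv
    rw [hA, mem_insert, mem_image] at hv
    rw [mem_RR]
    rcases hv with h | ⟨j, -, h⟩
    · exact Or.inl h
    · exact Or.inr ⟨j, h⟩
  have H : Mut (ev (d := e + 1)) (e + 1 + 1) Y (RR c) A (pp c) height (lin (Pi.single 0 1)) cf := by
    refine ⟨hY1, mem_insert_self _ _, hAR, ?_, ?_, ?_, ?_, ?_, ?_, ?_⟩
    · intro v hv; rw [ev_height, RR_zero hv]
    · intro v hv hv'; rw [ev_height]; exact hY2 v hv hv'
    · rw [lin_apply]; simp [height]
    · intro f
      rw [RR_erase hc h0 he, sum_image (fun a _ b _ h => ww_inj h), ev_pp hc]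
      exact sum_congr rfl fun j _ => by rw [hcfw]
    · intro v hv hv'
      rw [hA, mem_insert, mem_image] at hv
      rcases hv with h | ⟨j, h1, rfl⟩
      · exact absurd h hv'
      · rw [hcfw]; exact (mem_filter.mp h1).2
    · intro v hv hv'
      rw [mem_RR] at hv
      rcases hv with rfl | ⟨j, rfl⟩
      · exact absurd (mem_insert_self _ _) hv'
      · rw [hcfw]
        by_contra hle
        push Not at hle
        apply hv'
        exact mem_insert_of_mem (mem_image_of_mem ww (mem_filter.mpr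
          ⟨mem_univ j, lt_of_le_of_ne hle (h0 j)⟩))
    · by_contra hno
      push Not at hno
      have : Y.card ≤ (RR c).card := card_le_card hno
      rw [RR_card hc h0 he, hY5] at this
      omega
  obtain ⟨ε, hε, hball⟩ := Metric.mem_nhdsWithin_iff.mp H.eventually_good
  have hg : ∀ t : ℝ, t ≠ 0 → |t| < ε → Good (ev (d := e + 1)) (e + 1 + 1) Y (pp c)
      (lin (Pi.single 0 1)) t := by
    intro t ht ht'
    exact hball ⟨by simpa using ht', ht⟩
  have g1 := hg (ε / 2) (by positivity) (by rw [abs_of_pos (by positivity)]; linarith)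
  have g2 := hg (-(ε / 2)) (by
    rw [neg_ne_zero]; positivity) (by rw [abs_neg, abs_of_pos (by positivity)]; linarith)
  set u : Fin (e + 1) → ℝ := Pi.single 0 1 with hu
  have i1 : Set.InjOn (mv (pp c) u (ε / 2)) Y := injOn_of_gp (n := e) (by
    have := g1.gp
    rwa [shift_eq] at this)
  have i2 : Set.InjOn (mv (pp c) u (-(ε / 2))) Y := injOn_of_gp (n := e) (by
    have := g2.gp
    rwa [shift_eq] at this)
  have hl : (Y.filter fun v => 0 < ev v height).card = l := by
    simp only [ev_height]; exact hY3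
  have hk : (Y.filter fun v => ev v height < 0).card = k := by
    simp only [ev_height]; exact hY4
  refine ⟨Y.image (mv (pp c) u (ε / 2)), Y.image (mv (pp c) u (-(ε / 2))), ?_, ?_, ?_, ?_, ?_, ?_⟩
  · rw [card_image_of_injOn i1, hY5]
  · rw [card_image_of_injOn i2, hY5]
  · exact generalPosition_image i1 (by
      have := g1.gp
      rwa [shift_eq] at this)
  · exact generalPosition_image i2 (by
      have := g2.gp
      rwa [shift_eq] at this)
  · intro m
    rw [rt_image i1, rt_image i2, ← shift_eq, ← shift_eq]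
    have := H.diff_r (t := ε / 2) (t' := -(ε / 2)) (by positivity) (by
      rw [neg_lt_zero]; positivity) g1 g2 hAcard hl hk (by omega) (by omega) m
    convert this using 1
  · intro m
    rw [pt_image i1, pt_image i2, ← shift_eq, ← shift_eq]
    have := H.diff_P (t := ε / 2) (t' := -(ε / 2)) (by positivity) (by
      rw [neg_lt_zero]; positivity) g1 g2 hAcard hl hk (by omega) m
    convert this using 1

end Pool.Agent.L5helper36.Radon
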